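import Mathlib

namespace Pool.Agent.Lib.MP_b69f85_lc

/-- Binary strings. -/
abbrev Str : Type := List Bool

/-- `U` is an optimal decompressor: it is computable (possibly not total), and every other such
decompressor `V` is simulated with a bounded additive overhead in the description length. -/
def Optimal (U : Str →. Str) : Prop :=
  Partrec U ∧ ∀ V : Str →. Str, Partrec V →
    ∃ c : ℕ, ∀ p x, x ∈ V p → ∃ q, x ∈ U q ∧ q.length ≤ p.length + c

/-- Plain Kolmogorov complexity of `x` with respect to `U`: the least length of a description. -/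
noncomputable def KC (U : Str →. Str) (x : Str) : ℕ :=
  sInf {n | ∃ p, x ∈ U p ∧ p.length = n}

/-- The tuple `A^u`: the strings `A i`, `i ∈ u`, in increasing order of `i`. -/
def tup {k : ℕ} (A : Fin k → Str) (u : Finset (Fin k)) : List Str :=
  (u.sort (· ≤ ·)).map A

/-- The cone `C_k` of coefficient vectors of linear inequalities valid up to `O(log n)`. -/
def cone (U : Str →. Str) (enc : List Str → Str) (k : ℕ) :
    Set ({u : Finset (Fin k) // u.Nonempty} → ℝ) :=
  {l | ∃ c : ℝ, ∀ n : ℕ, 2 ≤ n → ∀ A : Fin k → Str, (∀ i, (A i).length ≤ n) →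
    -(c * Real.log n) ≤ ∑ u, l u * (KC U (enc (tup A u.1)) : ℝ)}

/-- Semialgebraic subsets of `ℝ^ι`: finite Boolean combinations of sets `p > 0` and `p = 0`
for polynomials `p` with real coefficients. -/
inductive SemiAlg {ι : Type} : Set (ι → ℝ) → Prop
  | pos (p : MvPolynomial ι ℝ) : SemiAlg {x | 0 < MvPolynomial.eval x p}
  | zero (p : MvPolynomial ι ℝ) : SemiAlg {x | MvPolynomial.eval x p = 0}
  | compl {s : Set (ι → ℝ)} : SemiAlg s → SemiAlg sᶜ
  | union {s t : Set (ι → ℝ)} : SemiAlg s → SemiAlg t → SemiAlg (s ∪ t)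
  | inter {s t : Set (ι → ℝ)} : SemiAlg s → SemiAlg t → SemiAlg (s ∩ t)

end Pool.Agent.Lib.MP_b69f85_lc
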