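import Pool.Agent.Lib.MP_b69f85_lc.Defs

namespace Pool.Agent.Lib.MP_b69f85_lc

open Encodable

abbrev LS : Type := List Str

theorem exists_run {α β : Type} [Primcodable α] [Primcodable β] {W : α →. β} (h : Partrec W) :
    ∃ run : ℕ → α → Option β, Primrec₂ run ∧ ∀ p y, y ∈ W p ↔ ∃ s, run s p = some y := by
  obtain ⟨c, hc⟩ := Nat.Partrec.Code.exists_code.1 h
  refine ⟨fun s p => (Nat.Partrec.Code.evaln s c (encode p)).bind (fun n => decode n), ?_, ?_⟩
  · refine Primrec.option_bind ?_ ?_
    · exact Nat.Partrec.Code.primrec_evaln.comp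
        ((Primrec.fst.pair (Primrec.const c)).pair (Primrec.encode.comp Primrec.snd))
    · exact (Primrec.decode.comp Primrec.snd).to₂
  · intro p y
    have key : ∀ n, n ∈ Nat.Partrec.Code.eval c (encode p) ↔ ∃ y', y' ∈ W p ∧ encode y' = n := by
      intro n
      rw [hc]
      simp [Part.mem_map_iff]
    constructor
    · intro hy
      obtain ⟨s, hs⟩ := Nat.Partrec.Code.evaln_complete.1 ((key _).2 ⟨y, hy, rfl⟩)
      refine ⟨s, ?_⟩
      rw [Option.mem_def] at hs
      simp [hs]
    · rintro ⟨s, hs⟩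
      rw [Option.bind_eq_some_iff] at hs
      obtain ⟨n, hn, hd⟩ := hs
      obtain ⟨y', hy', rfl⟩ := (key n).1 (Nat.Partrec.Code.evaln_sound hn)
      simp at hd
      exact hd ▸ hy'

/-- The interface to complexity of tuples used below. -/
structure Mach (K : LS → ℕ) (run : ℕ → Str → Option LS) : Prop where
  prim : Primrec₂ run
  det : ∀ {s s' p y y'}, run s p = some y → run s' p = some y' → y = y'
  le_iff : ∀ y L, K y ≤ L ↔ ∃ p s, p.length ≤ L ∧ run s p = some y
  opt : ∀ V : Str →. LS, Partrec V → ∃ c, ∀ p y, y ∈ V p → K y ≤ p.length + c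

theorem exists_mach {U : Str →. Str} (hU : Optimal U) {enc : LS → Str} (he : Computable enc)
    (hi : Function.Injective enc) : ∃ run, Mach (fun y => KC U (enc y)) run := by
  classical
  let f : Str → ℕ → Option LS := fun x n =>
    (decode (α := LS) n).bind fun y => bif decide (enc y = x) then some y else none
  have hf : Computable₂ f := by
    refine Computable.option_bind (Computable.decode.comp Computable.snd) ?_
    refine Computable.cond ?_ (Computable.option_some.comp Computable.snd) (Computable.const none)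
    exact (Primrec.eq.decide.to_comp).comp (he.comp Computable.snd)
      (Computable.fst.comp Computable.fst)
  let W : Str →. LS := fun p => (U p).bind fun x => Nat.rfindOpt (f x)
  have hW : Partrec W := hU.1.bind ((Partrec.rfindOpt hf).comp Computable.snd).to₂
  have hfs : ∀ x n y, y ∈ f x n → enc y = x := by
    intro x n y hy
    simp only [f, Option.mem_def, Option.bind_eq_some_iff] at hy
    obtain ⟨a, _, ha⟩ := hy
    by_cases h : enc a = x
    · simp [h] at ha; exact ha ▸ h
    · simp [h] at ha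
  have hmem : ∀ p y, y ∈ W p ↔ enc y ∈ U p := by
    intro p y
    simp only [W, Part.mem_bind_iff]
    constructor
    · rintro ⟨x, hx, hy⟩
      obtain ⟨n, hn⟩ := Nat.rfindOpt_spec hy
      exact (hfs _ _ _ hn) ▸ hx
    · intro hy
      refine ⟨_, hy, ?_⟩
      have hd : (Nat.rfindOpt (f (enc y))).Dom :=
        Nat.rfindOpt_dom.2 ⟨encode y, y, by simp [f]⟩
      have hm := Part.get_mem hd
      obtain ⟨n, hn⟩ := Nat.rfindOpt_spec hm
      have := hi (hfs _ _ _ hn)
      rw [this] at hm
      exact hm
  obtain ⟨run, hr, hrun⟩ := exists_run hW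
  have hne : ∀ x, ({n | ∃ p, x ∈ U p ∧ p.length = n} : Set ℕ).Nonempty := by
    intro x
    obtain ⟨c, hc⟩ := hU.2 Part.some Partrec.some
    obtain ⟨q, hq, _⟩ := hc x x (by simp)
    exact ⟨_, q, hq, rfl⟩
  refine ⟨run, hr, ?_, ?_, ?_⟩
  · intro s s' p y y' h1 h2
    exact Part.mem_unique ((hrun p y).2 ⟨s, h1⟩) ((hrun p y').2 ⟨s', h2⟩)
  · intro y L
    constructor
    · intro h
      obtain ⟨p, hp, hl⟩ := Nat.sInf_mem (hne (enc y))
      obtain ⟨s, hs⟩ := (hrun p y).1 ((hmem p y).2 hp)
      exact ⟨p, s, hl ▸ h, hs⟩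
    · rintro ⟨p, s, hl, hs⟩
      have : enc y ∈ U p := (hmem p y).1 ((hrun p y).2 ⟨s, hs⟩)
      exact (Nat.sInf_le (s := {n | ∃ p, enc y ∈ U p ∧ p.length = n}) ⟨p, this, rfl⟩).trans hl
  · intro V hV
    obtain ⟨c, hc⟩ := hU.2 (fun p => (V p).map enc) (hV.map (he.comp Computable.snd).to₂)
    refine ⟨c, fun p y hy => ?_⟩
    obtain ⟨q, hq, hl⟩ := hc p (enc y) (Part.mem_map _ hy)
    exact (Nat.sInf_le (s := {n | ∃ p, enc y ∈ U p ∧ p.length = n}) ⟨q, hq, rfl⟩).trans hl

/-- Duplicate-free accumulation of the values of a sequence. -/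
def acc {β : Type} [DecidableEq β] (g : ℕ → Option β) : ℕ → List β
  | 0 => []
  | s + 1 => (g s).casesOn (acc g s) fun x => if x ∈ acc g s then acc g s else acc g s ++ [x]

section
variable {β : Type} [DecidableEq β]

theorem mem_acc (g : ℕ → Option β) (x : β) : ∀ s, x ∈ acc g s ↔ ∃ z < s, g z = some x
  | 0 => by simp [acc]
  | s + 1 => by
    have ih := mem_acc g x s
    rw [Nat.exists_lt_succ_right, ← ih, acc]
    cases h : g s with
    | none => simp
    | some y =>
      by_cases hy : y ∈ acc g s
      · simp only [hy, if_true, Option.some.injEq]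
        exact ⟨Or.inl, fun h => h.elim id (fun h => h ▸ hy)⟩
      · simp [hy, eq_comm]

theorem nodup_acc (g : ℕ → Option β) : ∀ s, (acc g s).Nodup
  | 0 => by simp [acc]
  | s + 1 => by
    have ih := nodup_acc g s
    unfold acc
    cases h : g s with
    | none => simpa
    | some y =>
      by_cases hy : y ∈ acc g s
      · simpa [hy]
      · simp only [hy, if_false]
        rw [List.nodup_append]
        refine ⟨ih, by simp, ?_⟩
        intro a ha b hb
        simp at hb
        rintro rfl
        exact hy (hb ▸ ha)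

theorem acc_pre (g : ℕ → Option β) {s t : ℕ} (h : s ≤ t) : acc g s <+: acc g t := by
  induction h with
  | refl => exact List.prefix_rfl
  | @step m _ ih =>
    refine ih.trans ?_
    conv_rhs => unfold acc
    cases h : g m with
    | none => exact List.prefix_rfl
    | some y =>
      by_cases hy : y ∈ acc g m
      · simp [hy]
      · simp [hy]

omit [DecidableEq β] in
theorem prim_mem [Primcodable β] : PrimrecRel fun (x : β) (l : List β) => x ∈ l := by
  have := (PrimrecRel.exists_mem_list (α := β) (β := β) (R := fun a b => a = b) Primrec.eq)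
  exact (this.comp Primrec.snd Primrec.fst).of_eq (by simp)

theorem prim_acc {α : Type} [Primcodable α] [Primcodable β] {g : α → ℕ → Option β}
    (hg : Primrec₂ g) : Primrec₂ fun a s => acc (g a) s := by
  have h : Primrec₂ fun (a : α) (q : ℕ × List β) =>
      ((g a q.1).casesOn q.2 fun x => if x ∈ q.2 then q.2 else q.2 ++ [x] : List β) := by
    refine Primrec.option_casesOn (hg.comp Primrec.fst (Primrec.fst.comp Primrec.snd))
      (Primrec.snd.comp Primrec.snd) ?_
    have h2 : Primrec fun q : (α × ℕ × List β) × β => q.1.2.2 :=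
      Primrec.snd.comp (Primrec.snd.comp Primrec.fst)
    exact Primrec.ite (prim_mem.comp Primrec.snd h2) h2 (Primrec.list_concat.comp h2 Primrec.snd)
  refine (Primrec.nat_rec (Primrec.const []) h).of_eq ?_
  intro a s
  induction s with
  | zero => rfl
  | succ s ih => simp only [ih]; rfl

end

/-- Value of a little-endian bit string. -/
def val (l : Str) : ℕ := l.foldr (fun b n => 2 * n + bif b then 1 else 0) 0

theorem prim_val : Primrec val := by
  refine Primrec.list_foldr (f := id) (g := fun _ => 0)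
    (h := fun _ q => 2 * q.2 + bif q.1 then 1 else 0) Primrec.id (Primrec.const 0) ?_
  exact Primrec.nat_add.comp (Primrec.nat_mul.comp (Primrec.const 2) (Primrec.snd.comp Primrec.snd))
    (Primrec.cond (Primrec.fst.comp Primrec.snd) (Primrec.const 1) (Primrec.const 0))

theorem exists_bits : ∀ L n : ℕ, n < 2 ^ L → ∃ l : Str, l.length = L ∧ val l = n
  | 0, n, h => ⟨[], rfl, by simp [val] at *; omega⟩
  | L + 1, n, h => by
    obtain ⟨l, hl, hv⟩ := exists_bits L (n / 2) (by rw [pow_succ] at h; omega)
    refine ⟨decide (n % 2 = 1) :: l, by simp [hl], ?_⟩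
    unfold val at *
    rw [List.foldr_cons, hv]
    by_cases h2 : n % 2 = 1
    · simp [h2]; omega
    · simp [h2]; omega

theorem prim_pow2 : Primrec fun n : ℕ => 2 ^ n :=
  (Primrec₂.unpaired'.1 Nat.Primrec.pow).comp (Primrec.const 2) Primrec.id

variable {K : LS → ℕ} {run : ℕ → Str → Option LS}

theorem Mach.enum_nat (M : Mach K run) {g : ℕ → ℕ → Option LS} (hg : Primrec₂ g) :
    ∃ c, ∀ P e L (T : Finset LS), P < 2 ^ e → T.card ≤ 2 ^ L →
      (∀ z x, g P z = some x → x ∈ T) → ∀ z y, g P z = some y → K y ≤ 2 * e + L + c := by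
  let ee : Str → ℕ := fun p => p.findIdx (fun b => !b)
  let R : Str → ℕ := fun p => val (p.drop (ee p + 1))
  have hee : Primrec ee := Primrec.list_findIdx Primrec.id (Primrec.not.comp Primrec.snd).to₂
  have hR : Primrec R := prim_val.comp (Primrec.list_drop.comp (Primrec.succ.comp hee) Primrec.id)
  let f : Str → ℕ → Option LS := fun p s => (acc (g (R p % 2 ^ ee p)) s)[R p / 2 ^ ee p]?
  have hf : Primrec₂ f := by
    refine Primrec.list_getElem?.comp ((prim_acc hg).comp ?_ Primrec.snd) ?_
    · exact (Primrec.nat_mod.comp hR (prim_pow2.comp hee)).comp Primrec.fst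
    · exact (Primrec.nat_div.comp hR (prim_pow2.comp hee)).comp Primrec.fst
  obtain ⟨c, hc⟩ := M.opt (fun p => Nat.rfindOpt (f p)) (Partrec.rfindOpt hf.to_comp)
  refine ⟨c + 1, fun P e L T hP hT hsub z y hy => ?_⟩
  have hmem : y ∈ acc (g P) (z + 1) := (mem_acc _ _ _).2 ⟨z, by omega, hy⟩
  obtain ⟨i, hi, hiy⟩ := List.getElem_of_mem hmem
  have hlen : (acc (g P) (z + 1)).length ≤ T.card := by
    rw [← List.toFinset_card_of_nodup (nodup_acc _ _)]
    refine Finset.card_le_card fun x hx => ?_
    obtain ⟨z', _, hz⟩ := (mem_acc _ _ _).1 (List.mem_toFinset.1 hx)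
    exact hsub _ _ hz
  have hlt : i * 2 ^ e + P < 2 ^ (L + e) := by
    have : i + 1 ≤ 2 ^ L := by omega
    calc i * 2 ^ e + P < (i + 1) * 2 ^ e := by rw [add_mul]; omega
      _ ≤ 2 ^ L * 2 ^ e := Nat.mul_le_mul_right _ this
      _ = _ := by rw [pow_add]
  obtain ⟨l, hl, hv⟩ := exists_bits _ _ hlt
  let p : Str := List.replicate e true ++ false :: l
  have h1 : ee p = e := by
    simp only [ee, p]
    clear hP hlt hl hv
    induction e with
    | zero => simp [List.findIdx_cons]
    | succ e ih => simp only [List.replicate_succ, List.cons_append, List.findIdx_cons]; simpa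
  have h2 : R p = i * 2 ^ e + P := by
    simp only [R, h1, p]
    rw [List.drop_append]
    simp [hv]
  have h3 : R p % 2 ^ ee p = P := by
    rw [h1, h2, add_comm, Nat.add_mul_mod_self_right, Nat.mod_eq_of_lt hP]
  have h4 : R p / 2 ^ ee p = i := by
    rw [h1, h2, add_comm, Nat.add_mul_div_right _ _ (by positivity), Nat.div_eq_of_lt hP, zero_add]
  have h5 : y ∈ Nat.rfindOpt (f p) := by
    rw [Nat.rfindOpt_mono]
    · refine ⟨z + 1, ?_⟩
      simp only [f, h3, h4, Option.mem_def]
      rw [List.getElem?_eq_getElem hi, hiy]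
    · intro a m n hmn ha
      simp only [f, Option.mem_def] at ha ⊢
      obtain ⟨t, ht⟩ := acc_pre (g (R p % 2 ^ ee p)) hmn
      rw [← ht, List.getElem?_append_left, ha]
      exact (List.getElem?_eq_some_iff.1 ha).1
  have := hc p y h5
  simp only [p, List.length_append, List.length_replicate, List.length_cons, hl] at this
  omega

theorem encode_lt {e : ℕ} (he : 1 ≤ e) : ∀ ps : List ℕ, (∀ x ∈ ps, x < 2 ^ e) →
    encode ps < 2 ^ (3 ^ ps.length * e)
  | [], _ => by simp
  | x :: l, h => by
    have ih := encode_lt he l (fun y hy => h y (List.mem_cons_of_mem _ hy))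
    have hx := h x (by simp)
    rw [encode_list_cons, List.length_cons]
    set B := 2 ^ (3 ^ l.length * e) with hB
    have hle : 2 ^ e ≤ B := Nat.pow_le_pow_right (by norm_num)
      (Nat.le_mul_of_pos_left _ (by positivity))
    have hB2 : 2 ≤ B := le_trans (by
      calc 2 = 2 ^ 1 := rfl
        _ ≤ 2 ^ e := Nat.pow_le_pow_right (by norm_num) he) hle
    have h1 : Nat.pair (encode x) (encode l) < (max (encode x) (encode l) + 1) ^ 2 :=
      Nat.pair_lt_max_add_one_sq _ _
    have h2 : max (encode x) (encode l) + 1 ≤ B := by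
      have : encode x = x := rfl
      omega
    have h3 : (max (encode x) (encode l) + 1) ^ 2 ≤ B ^ 2 := Nat.pow_le_pow_left h2 2
    have h4 : 2 ^ (3 ^ (l.length + 1) * e) = B ^ 3 := by
      rw [hB, ← pow_mul]; congr 1; ring
    rw [h4]
    have : B ^ 2 < B ^ 3 := Nat.pow_lt_pow_right (by omega) (by norm_num)
    simp only [Nat.succ_eq_add_one]
    omega

/-- Enumeration lemma. -/
theorem Mach.enum (M : Mach K run) {g : List ℕ → ℕ → Option LS} (hg : Primrec₂ g) (r : ℕ) :
    ∃ c, ∀ (ps : List ℕ) e L (T : Finset LS), 1 ≤ e → ps.length ≤ r → (∀ x ∈ ps, x < 2 ^ e) →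
      T.card ≤ 2 ^ L → (∀ z x, g ps z = some x → x ∈ T) →
      ∀ z y, g ps z = some y → K y ≤ L + c * e := by
  have hg' : Primrec₂ fun (P z : ℕ) => g ((decode (α := List ℕ) P).getD []) z :=
    hg.comp (Primrec.option_getD.comp (Primrec.decode.comp Primrec.fst) (Primrec.const []))
      Primrec.snd
  obtain ⟨c, hc⟩ := M.enum_nat hg'
  refine ⟨2 * 3 ^ r + c, fun ps e L T he hr hps hT hsub z y hy => ?_⟩
  have h1 := hc (encode ps) (3 ^ ps.length * e) L T (encode_lt he ps hps) hT
    (by simpa using hsub) z y (by simpa using hy)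
  have h2 : 3 ^ ps.length * e ≤ 3 ^ r * e :=
    Nat.mul_le_mul_right _ (Nat.pow_le_pow_right (by norm_num) hr)
  have h3 : c ≤ c * e := Nat.le_mul_of_pos_right _ he
  rw [add_mul, mul_assoc]
  omega

/-- Lists of length at most `r` over a finite set. -/
def listsLe {α : Type} [DecidableEq α] (s : Finset α) : ℕ → Finset (List α)
  | 0 => {[]}
  | r + 1 => insert [] (Finset.image₂ List.cons s (listsLe s r))

theorem mem_listsLe {α : Type} [DecidableEq α] (s : Finset α) :
    ∀ r (l : List α), l.length ≤ r → (∀ x ∈ l, x ∈ s) → l ∈ listsLe s r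
  | 0, l, h, _ => by
    have : l = [] := List.length_eq_zero_iff.1 (by omega)
    simp [listsLe, this]
  | r + 1, [], _, _ => by simp [listsLe]
  | r + 1, x :: l, h, hs => by
    refine Finset.mem_insert_of_mem (Finset.mem_image₂_of_mem (hs x (by simp)) ?_)
    exact mem_listsLe s r l (by simpa using h) fun y hy => hs y (List.mem_cons_of_mem _ hy)

theorem card_listsLe_succ {α : Type} [DecidableEq α] (s : Finset α) (r : ℕ) :
    (listsLe s (r + 1)).card ≤ s.card * (listsLe s r).card + 1 :=
  (Finset.card_insert_le _ _).trans (Nat.add_le_add_right (Finset.card_image₂_le _ _ _) 1)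

theorem card_strs : ∀ r, (listsLe (Finset.univ : Finset Bool) r).card + 1 ≤ 2 ^ (r + 1)
  | 0 => by simp [listsLe]
  | r + 1 => by
    have h1 := card_listsLe_succ (Finset.univ : Finset Bool) r
    have h2 := card_strs r
    rw [Finset.card_univ, Fintype.card_bool] at h1
    rw [pow_succ]
    omega

theorem card_listsLe {α : Type} [DecidableEq α] (s : Finset α) :
    ∀ r, (listsLe s r).card ≤ (s.card + 1) ^ r
  | 0 => by simp [listsLe]
  | r + 1 => by
    have h1 := card_listsLe_succ s r
    have h2 := card_listsLe s r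
    have h3 : 1 ≤ (s.card + 1) ^ r := Nat.one_le_pow _ _ (by omega)
    have h4 := Nat.mul_le_mul_left s.card h2
    rw [pow_succ, mul_add, mul_comm _ s.card]
    omega

/-- There are fewer than `2^(L+1)` tuples of complexity at most `L`. -/
theorem Mach.exists_low (M : Mach K run) (L : ℕ) :
    ∃ T : Finset LS, T.card < 2 ^ (L + 1) ∧ ∀ y, y ∈ T ↔ K y ≤ L := by
  classical
  let f : Str → LS := fun p => if h : ∃ q : ℕ × LS, run q.1 p = some q.2 then h.choose.2 else []
  let T0 := (listsLe (Finset.univ : Finset Bool) L).image f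
  refine ⟨T0.filter (fun y => K y ≤ L), ?_, fun y => ⟨fun h => (Finset.mem_filter.1 h).2, ?_⟩⟩
  · have h1 := card_strs L
    have h2 : T0.card ≤ _ := Finset.card_image_le
    have h3 := Finset.card_filter_le T0 (fun y => K y ≤ L)
    omega
  · intro h
    refine Finset.mem_filter.2 ⟨?_, h⟩
    obtain ⟨p, s, hl, hs⟩ := (M.le_iff y L).1 h
    refine Finset.mem_image.2 ⟨p, mem_listsLe _ _ _ hl (by simp), ?_⟩
    have hex : ∃ q : ℕ × LS, run q.1 p = some q.2 := ⟨(s, y), hs⟩
    simp only [f, dif_pos hex]
    exact M.det hex.choose_spec hs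

end Pool.Agent.Lib.MP_b69f85_lc
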