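import Mathlib
import Pool.Agent.Lib.MP_b69f85_lc.Defs

-- part Pool.Agent.Lib.MP_b69f85_lc.Ent
section

namespace Pool.Agent.Lib.MP_b69f85_lc

open Finset
open scoped Classical

/-- Partitions of a type. -/
structure Eqv (α : Type) where
  r : α → α → Prop
  iseqv : Equivalence r

instance {α : Type} : CoeFun (Eqv α) (fun _ => α → α → Prop) := ⟨Eqv.r⟩

namespace Eqv
variable {α β : Type}
theorem refl' (s : Eqv α) (x : α) : s x x := s.iseqv.refl x
theorem symm' (s : Eqv α) {x y : α} (h : s x y) : s y x := s.iseqv.symm h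
theorem trans' (s : Eqv α) {x y z : α} (h : s x y) (h' : s y z) : s x z := s.iseqv.trans h h'
instance : Min (Eqv α) := ⟨fun r s => ⟨fun x y => r x y ∧ s x y, fun x => ⟨r.refl' x, s.refl' x⟩,
  fun h => ⟨r.symm' h.1, s.symm' h.2⟩, fun h h' => ⟨r.trans' h.1 h'.1, s.trans' h.2 h'.2⟩⟩⟩
def comap (r : Eqv β) (f : α → β) : Eqv α :=
  ⟨fun x y => r (f x) (f y), fun _ => r.refl' _, fun h => r.symm' h, fun h h' => r.trans' h h'⟩
def ker (f : α → β) : Eqv α := ⟨fun x y => f x = f y, fun _ => rfl, Eq.symm, Eq.trans⟩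
theorem ker_def {f : α → β} {x y : α} : (ker f).r x y ↔ f x = f y := Iff.rfl
end Eqv

theorem inf_rel {α : Type} (r s : Eqv α) (x y : α) : (r ⊓ s).r x y ↔ r.r x y ∧ s.r x y :=
  Iff.rfl

theorem comap_rel' {α β : Type} (f : α → β) (r : Eqv β) (x y : α) :
    (r.comap f).r x y ↔ r.r (f x) (f y) := Iff.rfl

variable {Ω : Type} [Fintype Ω]

/-- Mass of the class of `ω`. -/
noncomputable def mass (p : Ω → ℝ) (r : Eqv Ω) (ω : Ω) : ℝ := ∑ x, if r ω x then p x else 0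

/-- Shannon entropy of a partition. -/
noncomputable def H (p : Ω → ℝ) (r : Eqv Ω) : ℝ := ∑ ω, p ω * -Real.log (mass p r ω)

theorem mass_nonneg {p : Ω → ℝ} (hp : ∀ x, 0 ≤ p x) (r : Eqv Ω) (ω : Ω) : 0 ≤ mass p r ω :=
  sum_nonneg fun x _ => by split_ifs; exacts [hp x, le_rfl]

theorem le_mass {p : Ω → ℝ} (hp : ∀ x, 0 ≤ p x) (r : Eqv Ω) (ω : Ω) : p ω ≤ mass p r ω := by
  have := single_le_sum (f := fun x => if r ω x then p x else 0) (s := univ)
    (fun x _ => by split_ifs; exacts [hp x, le_rfl]) (mem_univ ω)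
  simpa [r.refl' ω, mass] using this

theorem mass_eq (p : Ω → ℝ) (r : Eqv Ω) {ω ω' : Ω} (h : r ω ω') : mass p r ω = mass p r ω' :=
  sum_congr rfl fun x _ => by
    have : r ω x ↔ r ω' x := ⟨fun h1 => r.trans' (r.symm' h) h1, fun h1 => r.trans' h h1⟩
    simp only [this]

theorem submod {p : Ω → ℝ} (hp : ∀ x, 0 ≤ p x) (h1 : ∑ x, p x = 1) (f g u v : Eqv Ω)
    (hu : ∀ x y, f x y → g x y → u x y) (hf : ∀ x y, f x y → v x y)
    (hg : ∀ x y, g x y → v x y) : H p u + H p v ≤ H p f + H p g := by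
  have inner : ∀ x y, (∑ ω, if f ω x ∧ g ω y then p ω / (mass p u ω * mass p v ω) else 0) ≤
      if v x y then 1 / mass p v x else 0 := by
    intro x y
    by_cases hex : ∃ ω0, f ω0 x ∧ g ω0 y
    · obtain ⟨ω0, h0⟩ := hex
      rw [if_pos (v.trans' (v.symm' (hf _ _ h0.1)) (hg _ _ h0.2))]
      have e1 : (∑ ω, if f ω x ∧ g ω y then p ω / (mass p u ω * mass p v ω) else 0) =
          (∑ ω, if f ω x ∧ g ω y then p ω else 0) / mass p u ω0 * (1 / mass p v x) := by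
        rw [sum_div, sum_mul]
        refine sum_congr rfl fun ω _ => ?_
        split_ifs with h
        · rw [mass_eq p u (hu ω ω0 (f.trans' h.1 (f.symm' h0.1)) (g.trans' h.2 (g.symm' h0.2))),
            mass_eq p v (hf _ _ h.1), div_mul_div_comm, mul_one]
        · simp
      rw [e1]
      refine mul_le_of_le_one_left (one_div_nonneg.2 (mass_nonneg hp _ _)) ?_
      refine div_le_one_of_le₀ (sum_le_sum fun ω _ => ?_) (mass_nonneg hp _ _)
      split_ifs with h h'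
      · exact le_rfl
      · exact absurd (hu ω0 ω (f.trans' h0.1 (f.symm' h.1)) (g.trans' h0.2 (g.symm' h.2))) h'
      · exact hp ω
      · exact le_rfl
    · rw [sum_eq_zero fun ω _ => if_neg fun h => hex ⟨ω, h⟩]
      split_ifs
      · exact one_div_nonneg.2 (mass_nonneg hp _ _)
      · exact le_rfl
  have key : ∑ ω, p ω * (mass p f ω * mass p g ω / (mass p u ω * mass p v ω)) ≤ 1 := by
    calc ∑ ω, p ω * (mass p f ω * mass p g ω / (mass p u ω * mass p v ω))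
        = ∑ ω, ∑ x, ∑ y, p x * (p y *
            if f ω x ∧ g ω y then p ω / (mass p u ω * mass p v ω) else 0) := by
          refine sum_congr rfl fun ω _ => ?_
          rw [show p ω * (mass p f ω * mass p g ω / (mass p u ω * mass p v ω)) =
            mass p f ω * mass p g ω * (p ω / (mass p u ω * mass p v ω)) by ring]
          generalize p ω / (mass p u ω * mass p v ω) = q
          unfold mass
          rw [sum_mul_sum, sum_mul]
          refine sum_congr rfl fun x _ => ?_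
          rw [sum_mul]
          refine sum_congr rfl fun y _ => ?_
          by_cases a : f ω x <;> by_cases b : g ω y <;> simp [a, b, mul_assoc]
      _ = ∑ x, ∑ y, p x * (p y *
            ∑ ω, if f ω x ∧ g ω y then p ω / (mass p u ω * mass p v ω) else 0) := by
          rw [sum_comm]
          refine sum_congr rfl fun x _ => ?_
          rw [sum_comm]
          refine sum_congr rfl fun y _ => ?_
          rw [mul_sum, mul_sum]
      _ ≤ ∑ x, ∑ y, p x * (p y * if v x y then 1 / mass p v x else 0) :=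
          sum_le_sum fun x _ => sum_le_sum fun y _ =>
            mul_le_mul_of_nonneg_left (mul_le_mul_of_nonneg_left (inner x y) (hp y)) (hp x)
      _ = ∑ x, p x * (mass p v x / mass p v x) := by
          refine sum_congr rfl fun x _ => ?_
          rw [← mul_sum]
          congr 1
          generalize hq : mass p v x = q
          rw [← hq]
          conv_rhs => rw [mass, sum_div]
          refine sum_congr rfl fun y _ => ?_
          split_ifs
          · rw [mul_one_div, mass]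
          · simp
      _ ≤ ∑ x, p x := sum_le_sum fun x _ =>
          mul_le_of_le_one_right (hp x) (div_self_le_one _)
      _ = 1 := h1
  have pt : ∀ ω, p ω * -Real.log (mass p u ω) + p ω * -Real.log (mass p v ω) -
      (p ω * -Real.log (mass p f ω) + p ω * -Real.log (mass p g ω)) ≤
      p ω * (mass p f ω * mass p g ω / (mass p u ω * mass p v ω)) - p ω := by
    intro ω
    rcases (hp ω).eq_or_lt with h | h
    · simp [← h]
    have a1 := h.trans_le (le_mass hp f ω)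
    have a2 := h.trans_le (le_mass hp g ω)
    have a3 := h.trans_le (le_mass hp u ω)
    have a4 := h.trans_le (le_mass hp v ω)
    have := Real.log_le_sub_one_of_pos (div_pos (mul_pos a1 a2) (mul_pos a3 a4))
    rw [Real.log_div (by positivity) (by positivity), Real.log_mul a1.ne' a2.ne',
      Real.log_mul a3.ne' a4.ne'] at this
    have := mul_le_mul_of_nonneg_left this h.le
    linarith
  have := sum_le_sum fun ω (_ : ω ∈ univ) => pt ω
  rw [sum_sub_distrib, sum_sub_distrib, sum_add_distrib, sum_add_distrib, h1] at this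
  unfold H
  linarith

variable {Ω' : Type} [Fintype Ω']

/-- `φ` pushes `q` to `p`. -/
def Push (q : Ω' → ℝ) (φ : Ω' → Ω) (p : Ω → ℝ) : Prop :=
  ∀ x, ∑ y, (if φ y = x then q y else 0) = p x

theorem Push.sum {q : Ω' → ℝ} {φ : Ω' → Ω} {p : Ω → ℝ} (h : Push q φ p) (F : Ω → ℝ) :
    ∑ y, q y * F (φ y) = ∑ x, p x * F x := by
  simp_rw [← h _, sum_mul]
  rw [sum_comm]
  refine sum_congr rfl fun y _ => ?_
  simp

theorem Push.mass {q : Ω' → ℝ} {φ : Ω' → Ω} {p : Ω → ℝ} (h : Push q φ p) (r : Eqv Ω) (x : Ω) :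
    (∑ y, if r x (φ y) then q y else 0) = mass p r x := by
  have := h.sum (fun t => if r x t then 1 else 0)
  simpa [MP_b69f85_lc.mass] using this

theorem H_push {q : Ω' → ℝ} {φ : Ω' → Ω} {p : Ω → ℝ} (h : Push q φ p) (r' : Eqv Ω')
    (r : Eqv Ω) (hr : ∀ x y, q x ≠ 0 → q y ≠ 0 → (r' x y ↔ r (φ x) (φ y))) :
    H q r' = H p r := by
  unfold H
  rw [← h.sum]
  refine sum_congr rfl fun y _ => ?_
  by_cases hy : q y = 0
  · simp [hy]
  rw [← h.mass]
  congr 3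
  refine sum_congr rfl fun x _ => ?_
  by_cases hx : q x = 0
  · simp [hx]
  simp only [hr y x hy hx]

theorem push_id (p : Ω → ℝ) : Push p id p := fun x => by simp

theorem H_congr (p : Ω → ℝ) (r r' : Eqv Ω) (h : ∀ x y, r x y ↔ r' x y) : H p r = H p r' :=
  H_push (push_id p) _ _ fun x y _ _ => h x y

noncomputable def Zf (p : Ω → ℝ) (a b z : Eqv Ω) : ℝ :=
  H p (a ⊓ z) + H p (b ⊓ z) - H p (a ⊓ b ⊓ z) - H p z

noncomputable def Xf (p : Ω → ℝ) (a b z : Eqv Ω) : ℝ :=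
  2 * H p (a ⊓ b) + H p (a ⊓ z) + H p (b ⊓ z) - 2 * H p (a ⊓ b ⊓ z) - H p a - H p b

noncomputable def Vf (p : Ω → ℝ) (a b c d : Eqv Ω) : ℝ :=
  H p a + H p b - H p (a ⊓ b) - H p (a ⊓ c) - H p (b ⊓ c) + H p (a ⊓ b ⊓ c) - H p (a ⊓ d)
    - H p (b ⊓ d) + H p (a ⊓ b ⊓ d) + H p (c ⊓ d)

theorem Zf_nonneg {p : Ω → ℝ} (hp : ∀ x, 0 ≤ p x) (h1 : ∑ x, p x = 1) (a b z : Eqv Ω) :
    0 ≤ Zf p a b z := by
  have := submod hp h1 (a ⊓ z) (b ⊓ z) (a ⊓ b ⊓ z) z
    (by simp only [inf_rel]; tauto) (by simp only [inf_rel]; tauto)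
    (by simp only [inf_rel]; tauto)
  unfold Zf; linarith

theorem Xf_nonneg {p : Ω → ℝ} (hp : ∀ x, 0 ≤ p x) (h1 : ∑ x, p x = 1) (a b z : Eqv Ω) :
    0 ≤ Xf p a b z := by
  have t1 := submod hp h1 (a ⊓ b) (a ⊓ z) (a ⊓ b ⊓ z) a
    (by simp only [inf_rel]; tauto) (by simp only [inf_rel]; tauto)
    (by simp only [inf_rel]; tauto)
  have t2 := submod hp h1 (a ⊓ b) (b ⊓ z) (a ⊓ b ⊓ z) b
    (by simp only [inf_rel]; tauto) (by simp only [inf_rel]; tauto)
    (by simp only [inf_rel]; tauto)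
  unfold Xf; linarith

theorem five {p : Ω → ℝ} (hp : ∀ x, 0 ≤ p x) (h1 : ∑ x, p x = 1) (a b c d z : Eqv Ω)
    (ci : H p (a ⊓ b ⊓ z) + H p (a ⊓ b ⊓ c ⊓ d) ≤ H p (a ⊓ b ⊓ c ⊓ d ⊓ z) + H p (a ⊓ b)) :
    Vf p a b c d + Zf p a b (z ⊓ c) + Zf p a b (z ⊓ d) ≤ Zf p a b z + Xf p a b z ∧
    Xf p a b (z ⊓ c) ≤ Xf p a b z + Xf p a b c ∧ Xf p a b (z ⊓ d) ≤ Xf p a b z + Xf p a b d := by
  have S : ∀ f g u v : Eqv Ω, ((∀ x y, f x y → g x y → u x y) ∧ (∀ x y, f x y → v x y) ∧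
      (∀ x y, g x y → v x y)) → H p u + H p v ≤ H p f + H p g :=
    fun f g u v h => submod hp h1 f g u v h.1 h.2.1 h.2.2
  have t1 := S (a ⊓ b ⊓ c ⊓ d) (a ⊓ b ⊓ (z ⊓ c)) (a ⊓ b ⊓ c ⊓ d ⊓ z) (a ⊓ b ⊓ c)
    (by simp only [inf_rel]; tauto)
  have t2 := S (a ⊓ b ⊓ c ⊓ d) (a ⊓ b ⊓ (z ⊓ d)) (a ⊓ b ⊓ c ⊓ d ⊓ z) (a ⊓ b ⊓ d)
    (by simp only [inf_rel]; tauto)
  have t3 := S (a ⊓ z) (a ⊓ c) (a ⊓ (z ⊓ c)) a (by simp only [inf_rel]; tauto)
  have t4 := S (b ⊓ z) (b ⊓ c) (b ⊓ (z ⊓ c)) b (by simp only [inf_rel]; tauto)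
  have t5 := S (a ⊓ z) (a ⊓ d) (a ⊓ (z ⊓ d)) a (by simp only [inf_rel]; tauto)
  have t6 := S (b ⊓ z) (b ⊓ d) (b ⊓ (z ⊓ d)) b (by simp only [inf_rel]; tauto)
  have t7 := S (z ⊓ c) (z ⊓ d) (z ⊓ c ⊓ d) z (by simp only [inf_rel]; tauto)
  have t8 := S (a ⊓ b ⊓ c ⊓ d) (z ⊓ c ⊓ d) (a ⊓ b ⊓ c ⊓ d ⊓ z) (c ⊓ d)
    (by simp only [inf_rel]; tauto)
  unfold Vf Zf Xf
  refine ⟨by linarith, by linarith, by linarith⟩

/-- Conditionally independent coupling over the partition `s`. -/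
noncomputable def cpl (q : Ω' → ℝ) (φ : Ω' → Ω) (p : Ω → ℝ) (s : Eqv Ω) (w : Ω' × Ω) : ℝ :=
  if s (φ w.1) w.2 then q w.1 * p w.2 / mass p s w.2 else 0

section
variable {q : Ω' → ℝ} {φ : Ω' → Ω} {p : Ω → ℝ}

omit [Fintype Ω'] in
theorem cpl_nonneg (hq : ∀ x, 0 ≤ q x) (hp : ∀ x, 0 ≤ p x) (s : Eqv Ω) (w : Ω' × Ω) :
    0 ≤ cpl q φ p s w := by
  unfold cpl
  split_ifs
  · exact div_nonneg (mul_nonneg (hq _) (hp _)) (mass_nonneg hp _ _)
  · exact le_rfl

omit [Fintype Ω] in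
theorem Push.le (h : Push q φ p) (hq : ∀ x, 0 ≤ q x) (y : Ω') : q y ≤ p (φ y) := by
  rw [← h]
  have := single_le_sum (f := fun t => if φ t = φ y then q t else 0) (s := univ)
    (fun x _ => by split_ifs; exacts [hq x, le_rfl]) (mem_univ y)
  simpa using this

theorem cpl_snd (h : Push q φ p) (hp : ∀ x, 0 ≤ p x) (s : Eqv Ω) :
    Push (cpl q φ p s) Prod.snd p := by
  intro x
  rw [Fintype.sum_prod_type]
  have : ∀ y : Ω', (∑ t : Ω, if t = x then cpl q φ p s (y, t) else 0) =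
      (if s x (φ y) then q y else 0) * (p x / mass p s x) := by
    intro y
    rw [sum_ite_eq' univ x, if_pos (mem_univ _)]
    unfold cpl
    by_cases hs : s x (φ y)
    · rw [if_pos (s.symm' hs), if_pos hs, mul_div_assoc]
    · rw [if_neg (fun h => hs (s.symm' h)), if_neg hs, zero_mul]
  simp only [this]
  rw [← sum_mul, h.mass]
  rcases (mass_nonneg hp s x).eq_or_lt with h0 | h0
  · have := le_antisymm ((le_mass hp s x).trans h0.ge) (hp x)
    simp [this]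
  · field_simp

theorem cpl_fst (h : Push q φ p) (hq : ∀ x, 0 ≤ q x) (hp : ∀ x, 0 ≤ p x) (s : Eqv Ω) :
    Push (cpl q φ p s) Prod.fst q := by
  intro y
  rw [Fintype.sum_prod_type, sum_comm]
  have : ∀ t : Ω, (∑ y' : Ω', if y' = y then cpl q φ p s (y', t) else 0) =
      (if s (φ y) t then p t else 0) * (q y / mass p s (φ y)) := by
    intro t
    rw [sum_ite_eq' univ y, if_pos (mem_univ _)]
    unfold cpl
    by_cases hs : s (φ y) t
    · simp only [if_pos hs]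
      rw [mass_eq p s hs]; ring
    · simp only [if_neg hs, zero_mul]
  simp only [this]
  rw [← sum_mul]
  change mass p s (φ y) * _ = _
  rcases (mass_nonneg hp s (φ y)).eq_or_lt with h0 | h0
  · have := le_antisymm (((h.le hq y).trans (le_mass hp s _)).trans h0.ge) (hq y)
    simp [this]
  · field_simp

omit [Fintype Ω'] in
theorem cpl_supp {s : Eqv Ω} {w : Ω' × Ω} (h : cpl q φ p s w ≠ 0) : s (φ w.1) w.2 := by
  by_contra hs
  exact h (if_neg hs)

theorem H_cpl (h : Push q φ p) (hq : ∀ x, 0 ≤ q x) (hp : ∀ x, 0 ≤ p x) (s : Eqv Ω)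
    (F : Eqv Ω') (G : Eqv Ω) (hF : ∀ x y, F x y → s (φ x) (φ y)) (hG : ∀ x y, G x y → s x y)
    (R : Eqv (Ω' × Ω)) (hR : ∀ x y, cpl q φ p s x ≠ 0 → cpl q φ p s y ≠ 0 →
      (R x y ↔ F x.1 y.1 ∧ G x.2 y.2)) :
    H (cpl q φ p s) R = H q F + H p G - H p s := by
  unfold H
  rw [← (cpl_fst h hq hp s).sum, ← (cpl_snd h hp s).sum, ← (cpl_snd h hp s).sum,
    ← sum_add_distrib, ← sum_sub_distrib]
  refine sum_congr rfl fun w _ => ?_
  by_cases hw : cpl q φ p s w = 0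
  · simp [hw]
  have hs := cpl_supp hw
  have hne : q w.1 ≠ 0 ∧ p w.2 ≠ 0 := by
    unfold cpl at hw
    rw [if_pos hs] at hw
    exact ⟨fun h => hw (by simp [h]), fun h => hw (by simp [h])⟩
  have a1 := (lt_of_le_of_ne (hq _) hne.1.symm).trans_le (le_mass hq F w.1)
  have a2 := (lt_of_le_of_ne (hp _) hne.2.symm).trans_le (le_mass hp G w.2)
  have a3 := (lt_of_le_of_ne (hp _) hne.2.symm).trans_le (le_mass hp s w.2)
  have hm : mass (cpl q φ p s) R w = mass q F w.1 * mass p G w.2 / mass p s w.2 := by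
    generalize hm0 : mass p s w.2 = m0
    unfold mass
    rw [sum_mul_sum, Fintype.sum_prod_type, sum_div]
    refine sum_congr rfl fun y _ => ?_
    rw [sum_div]
    refine sum_congr rfl fun t _ => ?_
    by_cases hFG : F w.1 y ∧ G w.2 t
    · have hs' : s (φ y) t := s.trans' (s.symm' (hF _ _ hFG.1)) (s.trans' hs (hG _ _ hFG.2))
      have hc : cpl q φ p s (y, t) = q y * p t / m0 := by
        unfold cpl
        rw [if_pos hs', ← hm0, mass_eq p s (hG _ _ hFG.2)]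
      rw [if_pos hFG.1, if_pos hFG.2, ← hc]
      by_cases h0 : cpl q φ p s (y, t) = 0
      · simp [h0]
      · rw [if_pos ((hR w (y, t) hw h0).2 hFG)]
    · have : (if F w.1 y then q y else 0) * (if G w.2 t then p t else 0) = 0 := by
        by_cases a : F w.1 y
        · rw [if_neg (fun b => hFG ⟨a, b⟩), mul_zero]
        · rw [if_neg a, zero_mul]
      rw [this, zero_div]
      by_cases h0 : cpl q φ p s (y, t) = 0
      · simp [h0]
      · rw [if_neg (fun h => hFG ((hR w (y, t) hw h0).1 h))]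
  rw [hm, Real.log_div (by positivity) a3.ne', Real.log_mul a1.ne' a2.ne']
  ring

end

/-- The Dougherty, Freiling, Zeger family, five-variable form. -/
theorem dfz_aux {p : Ω → ℝ} (hp : ∀ x, 0 ≤ p x) (h1 : ∑ x, p x = 1) (a b c d : Eqv Ω) (k : ℕ) :
    ∀ (Ω' : Type) [Fintype Ω'] (q : Ω' → ℝ) (φ : Ω' → Ω) (z : Eqv Ω'), (∀ x, 0 ≤ q x) →
      Push q φ p → (2 ^ k - 1) * Vf p a b c d ≤ Zf q (a.comap φ) (b.comap φ) z +
        (2 ^ k - 1) * Xf q (a.comap φ) (b.comap φ) z +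
        k * 2 ^ k * (Xf p a b c + Xf p a b d) := by
  have hsum : ∀ (Ω' : Type) [Fintype Ω'] (q : Ω' → ℝ) (φ : Ω' → Ω), Push q φ p →
      ∑ x, q x = 1 := by
    intro Ω' _ q φ h
    have := h.sum (fun _ => 1)
    simpa [h1] using this
  induction k with
  | zero =>
    intro Ω' _ q φ z hq h
    simpa using Zf_nonneg hq (hsum _ q φ h) _ _ _
  | succ k ih =>
    intro Ω' _ q φ z hq h
    set ρ := cpl q φ p (a ⊓ b) with hρ
    have hρ0 : ∀ w, 0 ≤ ρ w := cpl_nonneg hq hp _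
    have hf : Push ρ Prod.fst q := cpl_fst h hq hp _
    have hs : Push ρ Prod.snd p := cpl_snd h hp _
    have hρ1 := hsum _ ρ _ hs
    set A := a.comap (Prod.snd : Ω' × Ω → Ω)
    set B := b.comap (Prod.snd : Ω' × Ω → Ω)
    set C := c.comap (Prod.snd : Ω' × Ω → Ω)
    set D := d.comap (Prod.snd : Ω' × Ω → Ω)
    set Z := z.comap (Prod.fst : Ω' × Ω → Ω')
    have hA : ∀ x y, ρ x ≠ 0 → ρ y ≠ 0 → (a x.2 y.2 ↔ a (φ x.1) (φ y.1)) := by
      intro x y hx hy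
      have e1 := ((inf_rel _ _ _ _).1 (cpl_supp hx)).1
      have e2 := ((inf_rel _ _ _ _).1 (cpl_supp hy)).1
      exact ⟨fun h => a.trans' e1 (a.trans' h (a.symm' e2)),
        fun h => a.trans' (a.symm' e1) (a.trans' h e2)⟩
    have hB : ∀ x y, ρ x ≠ 0 → ρ y ≠ 0 → (b x.2 y.2 ↔ b (φ x.1) (φ y.1)) := by
      intro x y hx hy
      have e1 := ((inf_rel _ _ _ _).1 (cpl_supp hx)).2
      have e2 := ((inf_rel _ _ _ _).1 (cpl_supp hy)).2
      exact ⟨fun h => b.trans' e1 (b.trans' h (b.symm' e2)),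
        fun h => b.trans' (b.symm' e1) (b.trans' h e2)⟩
    have P1 : ∀ (r' : Eqv (Ω' × Ω)) (r : Eqv Ω'),
        (∀ x y : Ω' × Ω, (a x.2 y.2 ↔ a (φ x.1) (φ y.1)) → (b x.2 y.2 ↔ b (φ x.1) (φ y.1)) →
          (r' x y ↔ r x.1 y.1)) → H ρ r' = H q r :=
      fun r' r hr => H_push hf r' r fun x y hx hy => hr x y (hA x y hx hy) (hB x y hx hy)
    have P2 : ∀ (r' : Eqv (Ω' × Ω)) (r : Eqv Ω),
        (∀ x y : Ω' × Ω, (r' x y ↔ r x.2 y.2)) → H ρ r' = H p r :=
      fun r' r hr => H_push hs r' r fun x y _ _ => hr x y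
    have q3 : H ρ (A ⊓ B ⊓ Z) = H q (a.comap φ ⊓ b.comap φ ⊓ z) :=
      P1 _ _ (by simp only [inf_rel, A, B, Z, comap_rel']; tauto)
    have eZ : Zf ρ A B Z = Zf q (a.comap φ) (b.comap φ) z := by
      unfold Zf
      rw [q3, P1 (A ⊓ Z) (a.comap φ ⊓ z), P1 (B ⊓ Z) (b.comap φ ⊓ z), P1 Z z] <;>
        simp only [inf_rel, A, B, Z, comap_rel'] <;> tauto
    have eX : Xf ρ A B Z = Xf q (a.comap φ) (b.comap φ) z := by
      unfold Xf
      rw [q3, P1 (A ⊓ Z) (a.comap φ ⊓ z), P1 (B ⊓ Z) (b.comap φ ⊓ z), P1 A (a.comap φ),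
        P1 B (b.comap φ), P1 (A ⊓ B) (a.comap φ ⊓ b.comap φ)] <;>
        simp only [inf_rel, A, B, Z, comap_rel'] <;> tauto
    have eC : Xf ρ A B C = Xf p a b c := by
      unfold Xf
      rw [P2 (A ⊓ B ⊓ C) (a ⊓ b ⊓ c), P2 (A ⊓ C) (a ⊓ c), P2 (B ⊓ C) (b ⊓ c), P2 A a, P2 B b,
        P2 (A ⊓ B) (a ⊓ b)] <;>
        simp only [inf_rel, A, B, C, comap_rel'] <;> tauto
    have eD : Xf ρ A B D = Xf p a b d := by
      unfold Xf
      rw [P2 (A ⊓ B ⊓ D) (a ⊓ b ⊓ d), P2 (A ⊓ D) (a ⊓ d), P2 (B ⊓ D) (b ⊓ d), P2 A a, P2 B b,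
        P2 (A ⊓ B) (a ⊓ b)] <;>
        simp only [inf_rel, A, B, D, comap_rel'] <;> tauto
    have eV : Vf ρ A B C D = Vf p a b c d := by
      unfold Vf
      rw [P2 (A ⊓ B ⊓ D) (a ⊓ b ⊓ d), P2 (A ⊓ D) (a ⊓ d), P2 (B ⊓ D) (b ⊓ d), P2 A a, P2 B b,
        P2 (A ⊓ B ⊓ C) (a ⊓ b ⊓ c), P2 (A ⊓ C) (a ⊓ c), P2 (B ⊓ C) (b ⊓ c),
        P2 (A ⊓ B) (a ⊓ b), P2 (C ⊓ D) (c ⊓ d)] <;>
        simp only [inf_rel, A, B, C, D, comap_rel'] <;> tauto
    have ci : H ρ (A ⊓ B ⊓ C ⊓ D ⊓ Z) = H q (a.comap φ ⊓ b.comap φ ⊓ z) + H p (a ⊓ b ⊓ c ⊓ d)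
        - H p (a ⊓ b) := by
      refine H_cpl h hq hp _ _ _ ?_ ?_ _ fun x y hx hy => ?_
      · simp only [inf_rel, comap_rel']; tauto
      · simp only [inf_rel]; tauto
      · have := hA x y hx hy
        have := hB x y hx hy
        simp only [inf_rel, A, B, C, D, Z, comap_rel']; tauto
    obtain ⟨l1, l2, l3⟩ := five hρ0 hρ1 A B C D Z (by
      rw [ci, q3, P2 (A ⊓ B) (a ⊓ b), P2 (A ⊓ B ⊓ C ⊓ D) (a ⊓ b ⊓ c ⊓ d)]
      · linarith
      all_goals simp only [inf_rel, A, B, C, D, comap_rel']; tauto)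
    have i1 := ih _ ρ Prod.snd (Z ⊓ C) hρ0 hs
    have i2 := ih _ ρ Prod.snd (Z ⊓ D) hρ0 hs
    rw [eZ, eX, eV] at l1
    rw [eX, eC] at l2
    rw [eX, eD] at l3
    have n1 := Xf_nonneg hp h1 a b c
    have n2 := Xf_nonneg hp h1 a b d
    have hk : (0 : ℝ) ≤ 2 ^ k - 1 := sub_nonneg.2 (one_le_pow₀ (by norm_num))
    have m1 := mul_le_mul_of_nonneg_left l2 hk
    have m2 := mul_le_mul_of_nonneg_left l3 hk
    have m3 : (0 : ℝ) ≤ 2 ^ k * (Xf p a b c + Xf p a b d) := by positivity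
    push_cast
    rw [pow_succ]
    change _ ≤ Zf ρ A B _ + _ * Xf ρ A B _ + _ at i1 i2
    nlinarith

theorem dfz {p : Ω → ℝ} (hp : ∀ x, 0 ≤ p x) (h1 : ∑ x, p x = 1) (a b c d : Eqv Ω) (k : ℕ) :
    (2 ^ k - 1) * Vf p a b c d ≤ Zf p a b c + (k + 1) * 2 ^ k * (Xf p a b c + Xf p a b d) := by
  have := dfz_aux hp h1 a b c d k Ω p id c hp (push_id p)
  have e1 : a.comap id = a := rfl
  have e2 : b.comap id = b := rfl
  rw [e1, e2] at this
  have n1 := Xf_nonneg hp h1 a b c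
  have n2 := Xf_nonneg hp h1 a b d
  have m3 : (0 : ℝ) ≤ 2 ^ k * Xf p a b d := by positivity
  nlinarith

theorem H_le_log {β : Type} {p : Ω → ℝ} (hp : ∀ x, 0 ≤ p x) (h1 : ∑ x, p x = 1) (f : Ω → β)
    (T : Finset β) (hT : ∀ x, f x ∈ T) {N : ℝ} (hN : (T.card : ℝ) ≤ N) (hN0 : 0 < N) :
    H p (Eqv.ker f) ≤ Real.log N := by
  have key : ∑ ω, p ω / mass p (Eqv.ker f) ω ≤ N := by
    rw [← sum_fiberwise_of_maps_to (s := univ) (t := T) (g := f) (fun x _ => hT x)]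
    refine le_trans (sum_le_card_nsmul _ _ 1 fun t _ => ?_) (by simpa using hN)
    rcases (univ.filter (fun x => f x = t)).eq_empty_or_nonempty with h | ⟨x, hx⟩
    · simp [h]
    have hx' := (mem_filter.1 hx).2
    rw [sum_congr rfl (g := fun ω => p ω / mass p (Eqv.ker f) x) fun ω hω => by
      rw [mass_eq p _ (show Eqv.ker f ω x from by
        rw [Eqv.ker_def, (mem_filter.1 hω).2, hx'])], ← sum_div]
    refine div_le_one_of_le₀ (le_of_eq ?_) (mass_nonneg hp _ _)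
    rw [mass, sum_filter]
    refine sum_congr rfl fun y _ => ?_
    simp only [Eqv.ker_def, hx', eq_comm]
  have pt : ∀ ω, p ω * -Real.log (mass p (Eqv.ker f) ω) ≤
      p ω * Real.log N + (p ω / mass p (Eqv.ker f) ω / N - p ω) := by
    intro ω
    rcases (hp ω).eq_or_lt with h | h
    · simp [← h]
    have a1 := h.trans_le (le_mass hp (Eqv.ker f) ω)
    have := Real.log_le_sub_one_of_pos (div_pos (div_pos one_pos a1) hN0)
    rw [Real.log_div (by positivity) hN0.ne', Real.log_div one_ne_zero a1.ne', Real.log_one] at this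
    have h2 := mul_le_mul_of_nonneg_left this h.le
    have h3 : p ω / mass p (Eqv.ker f) ω / N = p ω * (1 / mass p (Eqv.ker f) ω / N) := by
      ring
    linarith
  have := sum_le_sum fun ω (_ : ω ∈ univ) => pt ω
  rw [sum_add_distrib, sum_sub_distrib, ← sum_mul, ← sum_div, h1] at this
  have h4 : (∑ ω, p ω / mass p (Eqv.ker f) ω) / N ≤ 1 := div_le_one_of_le₀ key hN0.le
  unfold H
  linarith

theorem le_H {p : Ω → ℝ} (hp : ∀ x, 0 ≤ p x) (h1 : ∑ x, p x = 1) (r : Eqv Ω) {t : ℝ}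
    (h : ∀ x, mass p r x ≤ t) : -Real.log t ≤ H p r := by
  have : ∑ x, p x * -Real.log t ≤ H p r := by
    refine sum_le_sum fun x _ => ?_
    rcases (hp x).eq_or_lt with h0 | h0
    · simp [← h0]
    refine mul_le_mul_of_nonneg_left (neg_le_neg ?_) h0.le
    exact Real.log_le_log (h0.trans_le (le_mass hp r x)) (h x)
  rwa [← sum_mul, h1, one_mul] at this

end Pool.Agent.Lib.MP_b69f85_lc
end

-- part Pool.Agent.Lib.MP_b69f85_lc.Semi
section

namespace Pool.Agent.Lib.MP_b69f85_lc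

open Polynomial Filter

theorem SemiAlg.signs {ι : Type} (φ : ι → ℝ[X][X]) {S : Set (ι → ℝ)} (h : SemiAlg S) :
    ∃ F : Finset ℝ[X][X], ∀ s ρ ρ' : ℝ,
      (∀ P ∈ F, SignType.sign (P.evalEval ρ s) = SignType.sign (P.evalEval ρ' s)) →
      ((fun i => (φ i).evalEval ρ s) ∈ S ↔ (fun i => (φ i).evalEval ρ' s) ∈ S) := by
  classical
  have key : ∀ (p : MvPolynomial ι ℝ) (s ρ : ℝ),
      MvPolynomial.eval (fun i => (φ i).evalEval ρ s) p =
        (MvPolynomial.eval₂ (C.comp C) φ p).evalEval ρ s := by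
    intro p s ρ
    have := MvPolynomial.eval₂_comp_left (evalEvalRingHom ρ s) (C.comp C) φ p
    rw [coe_evalEvalRingHom] at this
    rw [this]
    have e : (evalEvalRingHom ρ s).comp (C.comp C) = RingHom.id ℝ := by
      ext x; simp
    rw [e]
    rfl
  induction h with
  | pos p =>
    refine ⟨{MvPolynomial.eval₂ (C.comp C) φ p}, fun s ρ ρ' h => ?_⟩
    have := h _ (Finset.mem_singleton_self _)
    simp only [Set.mem_ofPred_eq, key]
    rw [← sign_eq_one_iff, ← sign_eq_one_iff, this]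
  | zero p =>
    refine ⟨{MvPolynomial.eval₂ (C.comp C) φ p}, fun s ρ ρ' h => ?_⟩
    have := h _ (Finset.mem_singleton_self _)
    simp only [Set.mem_ofPred_eq, key]
    rw [← sign_eq_zero_iff, this, sign_eq_zero_iff]
  | compl _ ih =>
    obtain ⟨F, hF⟩ := ih
    exact ⟨F, fun s ρ ρ' h => not_congr (hF s ρ ρ' h)⟩
  | union _ _ ih1 ih2 =>
    obtain ⟨F, hF⟩ := ih1
    obtain ⟨G, hG⟩ := ih2
    exact ⟨F ∪ G, fun s ρ ρ' h => or_congr
      (hF s ρ ρ' fun P hP => h P (Finset.mem_union_left _ hP))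
      (hG s ρ ρ' fun P hP => h P (Finset.mem_union_right _ hP))⟩
  | inter _ _ ih1 ih2 =>
    obtain ⟨F, hF⟩ := ih1
    obtain ⟨G, hG⟩ := ih2
    exact ⟨F ∪ G, fun s ρ ρ' h => and_congr
      (hF s ρ ρ' fun P hP => h P (Finset.mem_union_left _ hP))
      (hG s ρ ρ' fun P hP => h P (Finset.mem_union_right _ hP))⟩

theorem sign_const (q : ℝ[X]) {a b : ℝ} (hab : a ≤ b) (h : ∀ x ∈ Set.Icc a b, q.eval x ≠ 0) :
    SignType.sign (q.eval a) = SignType.sign (q.eval b) := by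
  have hc : ContinuousOn (fun x => q.eval x) (Set.Icc a b) := q.continuous.continuousOn
  have ha := h a ⟨le_rfl, hab⟩
  have hb := h b ⟨hab, le_rfl⟩
  rcases lt_or_gt_of_ne ha with h1 | h1 <;> rcases lt_or_gt_of_ne hb with h2 | h2
  · rw [sign_neg h1, sign_neg h2]
  · obtain ⟨x, hx, h0⟩ := intermediate_value_Icc hab hc ⟨h1.le, h2.le⟩
    exact absurd h0 (h x hx)
  · obtain ⟨x, hx, h0⟩ := intermediate_value_Icc' hab hc ⟨h2.le, h1.le⟩
    exact absurd h0 (h x hx)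
  · rw [sign_pos h1, sign_pos h2]

theorem poly_bound (q : ℝ[X]) : ∃ (A : ℝ) (D : ℕ), 0 ≤ A ∧ ∀ ρ : ℝ, 1 ≤ ρ → |q.eval ρ| ≤ A * ρ ^ D := by
  induction q using Polynomial.induction_on' with
  | add p q hp hq =>
    obtain ⟨A, D, hA, h⟩ := hp
    obtain ⟨A', D', hA', h'⟩ := hq
    refine ⟨A + A', D + D', by positivity, fun ρ hρ => ?_⟩
    have e1 : ρ ^ D ≤ ρ ^ (D + D') := pow_le_pow_right₀ hρ (by omega)
    have e2 : ρ ^ D' ≤ ρ ^ (D + D') := pow_le_pow_right₀ hρ (by omega)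
    rw [eval_add]
    have := abs_add_le (p.eval ρ) (q.eval ρ)
    have := h ρ hρ
    have := h' ρ hρ
    have := mul_le_mul_of_nonneg_left e1 hA
    have := mul_le_mul_of_nonneg_left e2 hA'
    linarith
  | monomial n a =>
    refine ⟨|a|, n, abs_nonneg _, fun ρ hρ => ?_⟩
    rw [eval_monomial, abs_mul, abs_of_nonneg (a := ρ ^ n) (by positivity)]

theorem poly_bound₂ (Q : ℝ[X][X]) : ∃ (A : ℝ) (D : ℕ), 0 ≤ A ∧ ∀ s ρ : ℝ, |s| ≤ 1 → 1 ≤ ρ →
    |Q.evalEval ρ s| ≤ A * ρ ^ D := by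
  induction Q using Polynomial.induction_on' with
  | add p q hp hq =>
    obtain ⟨A, D, hA, h⟩ := hp
    obtain ⟨A', D', hA', h'⟩ := hq
    refine ⟨A + A', D + D', by positivity, fun s ρ hs hρ => ?_⟩
    have e1 : ρ ^ D ≤ ρ ^ (D + D') := pow_le_pow_right₀ hρ (by omega)
    have e2 : ρ ^ D' ≤ ρ ^ (D + D') := pow_le_pow_right₀ hρ (by omega)
    rw [evalEval_add]
    have := abs_add_le (p.evalEval ρ s) (q.evalEval ρ s)
    have := h s ρ hs hρ
    have := h' s ρ hs hρ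
    have := mul_le_mul_of_nonneg_left e1 hA
    have := mul_le_mul_of_nonneg_left e2 hA'
    linarith
  | monomial n a =>
    obtain ⟨A, D, hA, h⟩ := poly_bound a
    refine ⟨A, D, hA, fun s ρ hs hρ => ?_⟩
    have : (monomial n a).evalEval ρ s = a.eval ρ * s ^ n := by simp [evalEval]
    rw [this, abs_mul, abs_pow]
    exact (mul_le_of_le_one_right (abs_nonneg _) (pow_le_one₀ (abs_nonneg _) hs)).trans (h ρ hρ)

theorem poly_lower {q : ℝ[X]} (hq : q ≠ 0) : ∃ c : ℝ, 0 < c ∧ ∀ᶠ ρ in atTop, c ≤ |q.eval ρ| := by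
  by_cases h : 0 < q.degree
  · exact ⟨1, one_pos, (q.abs_tendsto_atTop h).eventually_ge_atTop 1⟩
  · have := eq_C_of_degree_le_zero (not_lt.1 h)
    refine ⟨|q.coeff 0|, abs_pos.2 fun h0 => hq (by rw [this, h0, map_zero]), ?_⟩
    refine Eventually.of_forall fun ρ => ?_
    conv_rhs => rw [this, eval_C]

theorem no_root {P : ℝ[X][X]} (hP : P ≠ 0) : ∀ᶠ R : ℝ in atTop, ∀ᶠ k : ℕ in atTop,
    ∀ ρ ∈ Set.Icc R (2 * (k + 1)), P.evalEval ρ (1 / (2 ^ k - 1)) ≠ 0 := by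
  obtain ⟨Q, hQ, hd⟩ := exists_eq_pow_rootMultiplicity_mul_and_not_dvd P hP 0
  rw [map_zero, sub_zero] at hQ hd
  rw [X_dvd_iff] at hd
  obtain ⟨c, hc, hlow⟩ := poly_lower hd
  obtain ⟨R0, hR0⟩ := eventually_atTop.1 hlow
  obtain ⟨A, D, hA, hup⟩ := poly_bound₂ Q.divX
  have hlim : Tendsto (fun k : ℕ => ((k + 1 : ℕ) : ℝ) ^ D / 2 ^ (k + 1) * (4 * A * 2 ^ D)) atTop
      (nhds 0) := by
    have := (tendsto_pow_const_div_const_pow_of_one_lt D (r := 2) (by norm_num)).comp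
      (tendsto_add_atTop_nat 1)
    simpa using this.mul_const (4 * A * 2 ^ D)
  filter_upwards [eventually_ge_atTop R0, eventually_ge_atTop 1] with R h1 h2
  filter_upwards [hlim.eventually (gt_mem_nhds hc), eventually_ge_atTop 1] with k hk hk1
  intro ρ hρ
  set s : ℝ := 1 / (2 ^ k - 1) with hs
  have h2k : (2 : ℝ) ≤ 2 ^ k := by
    calc (2 : ℝ) = 2 ^ 1 := by norm_num
      _ ≤ 2 ^ k := pow_le_pow_right₀ (by norm_num) hk1
  have hs0 : 0 < s := one_div_pos.2 (by linarith)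
  have hs1 : s ≤ 4 / 2 ^ (k + 1) := by
    rw [hs, div_le_div_iff₀ (by linarith) (by positivity), pow_succ]; linarith
  have hs2 : |s| ≤ 1 := by
    rw [abs_of_pos hs0, hs, div_le_one (by linarith)]; linarith
  have e : Q.evalEval ρ s = (Q.coeff 0).eval ρ + s * Q.divX.evalEval ρ s := by
    conv_lhs => rw [← X_mul_divX_add Q]
    rw [evalEval_add, evalEval_mul, evalEval_X, evalEval_C, add_comm]
  have b1 := hR0 ρ (h1.trans hρ.1)
  have b2 := hup s ρ hs2 (h2.trans hρ.1)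
  have b3 : ρ ^ D ≤ (2 * (k + 1)) ^ D := pow_le_pow_left₀ (by linarith [hρ.1]) hρ.2 D
  have b4 : |s * Q.divX.evalEval ρ s| < c := by
    rw [abs_mul, abs_of_pos hs0]
    refine lt_of_le_of_lt ?_ hk
    calc s * |Q.divX.evalEval ρ s| ≤ 4 / 2 ^ (k + 1) * (A * (2 * (k + 1)) ^ D) :=
          mul_le_mul hs1 (b2.trans (mul_le_mul_of_nonneg_left b3 hA)) (abs_nonneg _)
            (by positivity)
      _ = _ := by push_cast; rw [mul_pow]; ring
  rw [hQ, evalEval_mul, evalEval_pow, evalEval_X]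
  refine mul_ne_zero (pow_ne_zero _ hs0.ne') ?_
  rw [e]
  intro h0
  have : (Q.coeff 0).eval ρ = -(s * Q.divX.evalEval ρ s) := by linarith
  rw [this, abs_neg] at b1
  linarith

/-- A set whose plane section has a boundary growing slower than every power, but unboundedly,
is not semialgebraic. -/
theorem not_semiAlg {ι : Type} (φ : ι → ℝ[X][X]) {S : Set (ι → ℝ)}
    (h1 : ∀ k : ℕ, 1 ≤ k → ∃ ρ : ℝ, k ≤ ρ ∧ ρ ≤ 2 * (k + 1) ∧
      (fun i => (φ i).evalEval ρ (1 / (2 ^ k - 1))) ∈ S)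
    (h2 : ∀ R : ℝ, 0 ≤ R → ∀ᶠ k : ℕ in atTop,
      (fun i => (φ i).evalEval R (1 / (2 ^ k - 1))) ∉ S) : ¬ SemiAlg S := by
  classical
  intro h
  obtain ⟨F, hF⟩ := h.signs φ
  have hev := (eventually_all_finset (F.filter (· ≠ 0))).2
    fun P hP => no_root (Finset.mem_filter.1 hP).2
  obtain ⟨R, hR, hR0⟩ := (hev.and (eventually_ge_atTop 0)).exists
  have hk := (eventually_all_finset (F.filter (· ≠ 0))).2 hR
  have hk2 : ∀ᶠ k : ℕ in atTop, R ≤ (k : ℝ) :=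
    tendsto_natCast_atTop_atTop.eventually_ge_atTop R
  obtain ⟨k, ⟨⟨a1, a2⟩, a3⟩, a4⟩ :=
    (((hk.and hk2).and (h2 R hR0)).and (eventually_ge_atTop 1)).exists
  obtain ⟨ρ, r1, r2, r3⟩ := h1 k a4
  refine a3 ((hF _ R ρ fun P hP => ?_).2 r3)
  by_cases h0 : P = 0
  · simp [h0]
  · exact sign_const (P.eval (C (1 / (2 ^ k - 1)))) (by linarith)
      fun x hx => a1 P (Finset.mem_filter.2 ⟨hP, h0⟩) x ⟨hx.1, hx.2.trans r2⟩

end Pool.Agent.Lib.MP_b69f85_lc
end
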