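import Pool.Agent.Lib.MP_b69f85_lc.Enum
import Pool.Agent.Lib.MP_b69f85_lc.Semi

-- part Pool.Agent.Lib.MP_b69f85_lc.Typ
section

namespace Pool.Agent.Lib.MP_b69f85_lc

open Encodable

variable {K : LS → ℕ} {run : ℕ → Str → Option LS}

/-- Enumeration of the tuples of complexity at most `k`. -/
def en (run : ℕ → Str → Option LS) (k z : ℕ) : Option LS :=
  (decode (α := ℕ × Str) z).bind fun q => if q.2.length ≤ k then run q.1 q.2 else none

def LT (run : ℕ → Str → Option LS) (k s : ℕ) : List LS := acc (en run k) s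

theorem Mach.prim_LT (M : Mach K run) : Primrec₂ (LT run) := by
  refine prim_acc ?_
  refine Primrec.option_bind (Primrec.decode.comp Primrec.snd) ?_
  refine Primrec.ite (Primrec.nat_le.comp (Primrec.list_length.comp (Primrec.snd.comp Primrec.snd))
    (Primrec.fst.comp Primrec.fst)) ?_ (Primrec.const none)
  exact M.prim.comp (Primrec.fst.comp Primrec.snd) (Primrec.snd.comp Primrec.snd)

theorem Mach.le_of_mem (M : Mach K run) {k s y} (h : y ∈ LT run k s) : K y ≤ k := by
  obtain ⟨z, _, hz⟩ := (mem_acc _ _ _).1 h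
  simp only [en, Option.bind_eq_some_iff] at hz
  obtain ⟨q, _, hq⟩ := hz
  split_ifs at hq with hl
  exact (M.le_iff _ _).2 ⟨q.2, q.1, hl, hq⟩

theorem Mach.ev_mem (M : Mach K run) {k y} (h : K y ≤ k) :
    ∀ᶠ s in Filter.atTop, y ∈ LT run k s := by
  obtain ⟨p, s, hl, hs⟩ := (M.le_iff _ _).1 h
  refine Filter.eventually_atTop.2 ⟨encode (s, p) + 1, fun t ht => ?_⟩
  refine (mem_acc _ _ _).2 ⟨encode (s, p), by omega, ?_⟩
  simp only [en, encodek, Option.bind_some, hl, if_true, hs]

theorem card_filter_le_len {T : Finset LS} {l : List LS} (P : LS → Prop) [DecidablePred P]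
    (h : ∀ x ∈ T, P x → x ∈ l) : (T.filter P).card ≤ (l.filter (fun x => P x)).length := by
  refine le_trans (Finset.card_le_card ?_) (List.toFinset_card_le _)
  intro x hx
  rw [Finset.mem_filter] at hx
  simp [hx.2, h x hx.1 hx.2]

theorem len_le_card_filter {T : Finset LS} {l : List LS} (P : LS → Prop) [DecidablePred P]
    (hn : l.Nodup) (h : ∀ x ∈ l, x ∈ T) :
    (l.filter (fun x => P x)).length ≤ (T.filter P).card := by
  rw [← List.toFinset_card_of_nodup (hn.filter _)]
  refine Finset.card_le_card fun x hx => ?_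
  simp only [List.mem_toFinset, List.mem_filter, decide_eq_true_eq] at hx
  exact Finset.mem_filter.2 ⟨h x hx.1, hx.2⟩

theorem prim_fib {α : Type} [Primcodable α] {π : α → LS → LS} (hπ : Primrec₂ π)
    {l : α → List LS} (hl : Primrec l) {w : α → LS} (hw : Primrec w) :
    Primrec fun a => ((l a).filter (fun x => π a x = w a)).length := by
  have h1 : PrimrecRel fun (x : LS) (a : α) => π a x = w a :=
    Primrec.eq.comp (hπ.comp Primrec.snd Primrec.fst) (hw.comp Primrec.snd)
  exact Primrec.list_length.comp (h1.listFilter.comp hl Primrec.id)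

/-- A tuple with a large fibre in the set of simple tuples has a simple projection. -/
theorem Mach.proj_le (M : Mach K run) {π : LS → LS} (hπ : Primrec π) :
    ∃ c, ∀ (k m e : ℕ) (T : Finset LS) (w : LS), 1 ≤ e → k < 2 ^ e → m ≤ k →
      T.card < 2 ^ (k + 1) → (∀ y, y ∈ T ↔ K y ≤ k) →
      2 ^ m ≤ (T.filter (fun x => π x = w)).card → K w ≤ k + 1 - m + c * e := by
  let g : List ℕ → ℕ → Option LS := fun ps z => (decode (α := ℕ × LS) z).bind fun q =>
    if 2 ^ (ps.getD 1 0) ≤ ((LT run (ps.getD 0 0) q.1).filter (fun x => π x = q.2)).length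
    then some q.2 else none
  have hg : Primrec₂ g := by
    refine Primrec.option_bind (Primrec.decode.comp Primrec.snd) ?_
    refine Primrec.ite (Primrec.nat_le.comp ?_ ?_)
      (Primrec.option_some.comp (Primrec.snd.comp Primrec.snd)) (Primrec.const none)
    · exact prim_pow2.comp ((Primrec.list_getD 0).comp (Primrec.fst.comp Primrec.fst)
        (Primrec.const 1))
    · refine prim_fib (π := fun _ x => π x) (hπ.comp Primrec.snd).to₂ ?_
        (Primrec.snd.comp Primrec.snd)
      exact M.prim_LT.comp ((Primrec.list_getD 0).comp (Primrec.fst.comp Primrec.fst)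
        (Primrec.const 0)) (Primrec.fst.comp Primrec.snd)
  obtain ⟨c, hc⟩ := M.enum hg 2
  refine ⟨c, fun k m e T w he hk hm hT hTm hw => ?_⟩
  let R := (T.image π).filter (fun v => 2 ^ m ≤ (T.filter (fun x => π x = v)).card)
  have hR : R.card ≤ 2 ^ (k + 1 - m) := by
    have h1 : R.card * 2 ^ m ≤ T.card := by
      rw [Finset.card_eq_sum_card_image π T]
      calc R.card * 2 ^ m = ∑ _v ∈ R, 2 ^ m := by simp
        _ ≤ ∑ v ∈ R, (T.filter (fun x => π x = v)).card :=
          Finset.sum_le_sum fun v hv => (Finset.mem_filter.1 hv).2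
        _ ≤ _ := Finset.sum_le_sum_of_subset (Finset.filter_subset _ _)
    have h2 : 2 ^ (k + 1) = 2 ^ (k + 1 - m) * 2 ^ m := by rw [← pow_add]; congr 1; omega
    have h3 : R.card * 2 ^ m < 2 ^ (k + 1 - m) * 2 ^ m := by omega
    exact (Nat.lt_of_mul_lt_mul_right h3).le
  have hev : ∀ᶠ s in Filter.atTop, ∀ x ∈ T, x ∈ LT run k s :=
    (Filter.eventually_all_finset T).2 fun x hx => M.ev_mem ((hTm x).1 hx)
  obtain ⟨s, hs⟩ := hev.exists
  refine hc [k, m] e (k + 1 - m) R he (by simp) (by simp; omega) hR ?_ (encode (s, w)) w ?_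
  · intro z x hz
    simp only [g, Option.bind_eq_some_iff] at hz
    obtain ⟨q, _, hq⟩ := hz
    split_ifs at hq with hl
    obtain rfl : q.2 = x := by simpa using hq
    have h1 : 2 ^ m ≤ (T.filter (fun x => π x = q.2)).card :=
      le_trans (by simpa [LT] using hl) (len_le_card_filter _ (nodup_acc (en run k) q.1)
        fun x hx => (hTm x).2 (M.le_of_mem (k := k) (s := q.1) hx))
    refine Finset.mem_filter.2 ⟨?_, h1⟩
    have : 0 < (T.filter (fun x => π x = q.2)).card := lt_of_lt_of_le (by positivity) h1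
    obtain ⟨x, hx⟩ := Finset.card_pos.1 this
    rw [Finset.mem_filter] at hx
    exact Finset.mem_image.2 ⟨x, hx.1, hx.2⟩
  · have := hw.trans (card_filter_le_len (fun x => π x = w) (fun x hx _ => hs x hx))
    simp only [g, encodek, Option.bind_some]
    rw [if_pos]
    simpa using this

/-- Typization: a tuple lies in a set that is nearly uniform for all the projections. -/
theorem Mach.typ (M : Mach K run) {π : ℕ → LS → LS} (hπ : Primrec₂ π) (r : ℕ) :
    ∃ c, ∀ (y : LS) (e : ℕ), 1 ≤ e → K y + 1 < 2 ^ e → (∀ i < r, K (π i y) < 2 ^ e) →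
      ∃ S : Finset LS, S.Nonempty ∧ ∀ i < r,
        (S.image (π i)).card ≤ 2 ^ (K (π i y) + 1) ∧
        ∀ w, (S.filter (fun x => π i x = w)).card * 2 ^ (K (π i y)) ≤ S.card * 2 ^ (c * e) := by
  classical
  have h1 := fun i => M.proj_le (π := π i) (hπ.comp (Primrec.const i) Primrec.id)
  choose c1 hc1 using h1
  let cond : List ℕ → (ℕ × ℕ) × LS → Prop := fun ps q =>
    q.2 ∈ LT run (ps.getD 0 0) q.1.1 ∧ ∀ i ∈ List.range r,
      ((LT run (ps.getD 0 0) q.1.1).filter (fun x => π i x = π i q.2)).length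
        ≤ 2 ^ (ps.getD (i + 1) 0) ∧ π i q.2 ∈ LT run (ps.getD (r + 1 + i) 0) q.1.2
  let g : List ℕ → ℕ → Option LS := fun ps z => (decode (α := (ℕ × ℕ) × LS) z).bind fun q =>
    if cond ps q then some q.2 else none
  have hcond : PrimrecPred fun a : List ℕ × ((ℕ × ℕ) × LS) => cond a.1 a.2 := by
    have hL : Primrec fun a : List ℕ × ((ℕ × ℕ) × LS) => LT run (a.1.getD 0 0) a.2.1.1 :=
      M.prim_LT.comp ((Primrec.list_getD 0).comp Primrec.fst (Primrec.const 0))
        (Primrec.fst.comp (Primrec.fst.comp Primrec.snd))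
    refine PrimrecPred.and (prim_mem.comp (Primrec.snd.comp Primrec.snd) hL) ?_
    have hR : PrimrecRel fun (i : ℕ) (a : List ℕ × ((ℕ × ℕ) × LS)) =>
        ((LT run (a.1.getD 0 0) a.2.1.1).filter (fun x => π i x = π i a.2.2)).length
        ≤ 2 ^ (a.1.getD (i + 1) 0) ∧ π i a.2.2 ∈ LT run (a.1.getD (r + 1 + i) 0) a.2.1.2 := by
      have hw : Primrec fun b : ℕ × (List ℕ × ((ℕ × ℕ) × LS)) => π b.1 b.2.2.2 :=
        hπ.comp Primrec.fst (Primrec.snd.comp (Primrec.snd.comp Primrec.snd))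
      refine PrimrecPred.and (Primrec.nat_le.comp ?_ ?_) (prim_mem.comp hw ?_)
      · exact prim_fib (π := fun (b : ℕ × (List ℕ × ((ℕ × ℕ) × LS))) x => π b.1 x)
          (hπ.comp (Primrec.fst.comp Primrec.fst) Primrec.snd).to₂ (hL.comp Primrec.snd) hw
      · exact prim_pow2.comp ((Primrec.list_getD 0).comp (Primrec.fst.comp Primrec.snd)
          (Primrec.succ.comp Primrec.fst))
      · exact M.prim_LT.comp ((Primrec.list_getD 0).comp (Primrec.fst.comp Primrec.snd)
          (Primrec.nat_add.comp (Primrec.const (r + 1)) Primrec.fst))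
          (Primrec.snd.comp (Primrec.fst.comp (Primrec.snd.comp Primrec.snd)))
    exact hR.forall_mem_list.comp (Primrec.const (List.range r)) Primrec.id
  have hg : Primrec₂ g := by
    refine Primrec.option_bind (Primrec.decode.comp Primrec.snd) ?_
    exact Primrec.ite (hcond.comp ((Primrec.fst.comp Primrec.fst).pair Primrec.snd))
      (Primrec.option_some.comp (Primrec.snd.comp Primrec.snd)) (Primrec.const none)
  obtain ⟨c2, hc2⟩ := M.enum hg (2 * r + 1)
  refine ⟨(Finset.range r).sup c1 + c2 + 3, fun y e he hy hyi => ?_⟩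
  obtain ⟨T, hT, hTm⟩ := M.exists_low (K y)
  set k := K y with hk
  have hyT : y ∈ T := (hTm y).2 le_rfl
  let F : ℕ → ℕ := fun i => (T.filter (fun x => π i x = π i y)).card
  have hF0 : ∀ i, F i ≠ 0 := fun i =>
    Finset.card_ne_zero.2 ⟨y, Finset.mem_filter.2 ⟨hyT, rfl⟩⟩
  let m : ℕ → ℕ := fun i => Nat.log 2 (F i)
  have hm1 : ∀ i, 2 ^ m i ≤ F i := fun i => Nat.pow_log_le_self 2 (hF0 i)
  have hm2 : ∀ i, F i < 2 ^ (m i + 1) := fun i => Nat.lt_pow_succ_log_self (by norm_num) _
  have hmk : ∀ i, m i ≤ k := by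
    intro i
    have : 2 ^ m i < 2 ^ (k + 1) :=
      lt_of_le_of_lt ((hm1 i).trans (Finset.card_filter_le _ _)) hT
    have := (Nat.pow_lt_pow_iff_right (by norm_num)).1 this
    omega
  have hKi : ∀ i, K (π i y) ≤ k + 1 - m i + c1 i * e := fun i =>
    hc1 i k (m i) e T _ he (by omega) (hmk i) hT hTm (hm1 i)
  let f : ℕ → ℕ := fun j => if j = 0 then k else if j ≤ r then m (j - 1) + 1
    else K (π (j - (r + 1)) y)
  let ps : List ℕ := (List.range (2 * r + 1)).map f
  have hps : ∀ j < 2 * r + 1, ps.getD j 0 = f j := by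
    intro j hj
    simp [ps, List.getD_eq_getElem?_getD, hj]
  have hp0 : ps.getD 0 0 = k := by rw [hps 0 (by omega)]; simp [f]
  have hp1 : ∀ i < r, ps.getD (i + 1) 0 = m i + 1 := by
    intro i hi
    rw [hps _ (by omega)]
    simp only [f]
    rw [if_neg (by omega), if_pos (by omega)]
    simp
  have hp2 : ∀ i < r, ps.getD (r + 1 + i) 0 = K (π i y) := by
    intro i hi
    rw [hps _ (by omega)]
    simp only [f]
    rw [if_neg (by omega), if_neg (by omega)]
    simp
  let S := T.filter (fun x => ∃ s : ℕ × ℕ, cond ps (s, x))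
  have hyS : ∃ s : ℕ × ℕ, cond ps (s, y) := by
    obtain ⟨s, hs⟩ := (M.ev_mem (le_refl (K y))).exists
    have hev : ∀ᶠ s in Filter.atTop, ∀ i ∈ Finset.range r, π i y ∈ LT run (K (π i y)) s :=
      (Filter.eventually_all_finset _).2 fun i _ => M.ev_mem le_rfl
    obtain ⟨s', hs'⟩ := hev.exists
    refine ⟨(s, s'), by rw [hp0]; exact hs, fun i hi => ?_⟩
    have hi' : i < r := List.mem_range.1 hi
    rw [hp0, hp1 i hi', hp2 i hi']
    refine ⟨le_trans (len_le_card_filter (T := T) _ (nodup_acc _ _)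
      fun x hx => (hTm x).2 (M.le_of_mem (k := k) (s := s) hx)) (hm2 i).le,
      hs' i (Finset.mem_range.2 hi')⟩
  have hne : S.Nonempty := ⟨y, Finset.mem_filter.2 ⟨hyT, hyS⟩⟩
  have hS0 : S.card ≠ 0 := Finset.card_ne_zero.2 hne
  have hky : k ≤ (Nat.log 2 S.card + 1) + c2 * e := by
    obtain ⟨s, hs⟩ := hyS
    refine hc2 ps e _ S he (by simp [ps]) ?_ (Nat.lt_pow_succ_log_self (by norm_num) _).le ?_
      (encode (s, y)) y ?_
    · intro x hx
      obtain ⟨j, hj, rfl⟩ := List.mem_map.1 hx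
      have hj' := List.mem_range.1 hj
      simp only [f]
      split_ifs with a b
      · omega
      · have := hmk (j - 1); omega
      · exact hyi _ (by omega)
    · intro z x hz
      simp only [g, Option.bind_eq_some_iff] at hz
      obtain ⟨q, _, hq⟩ := hz
      split_ifs at hq with hl
      obtain rfl : q.2 = x := by simpa using hq
      refine Finset.mem_filter.2 ⟨(hTm _).2 ?_, q.1, hl⟩
      have := hl.1
      rw [hp0] at this
      exact M.le_of_mem this
    · simp only [g, encodek, Option.bind_some]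
      rw [if_pos hs]
  refine ⟨S, hne, fun i hi => ⟨?_, fun w => ?_⟩⟩
  · obtain ⟨T', hT', hTm'⟩ := M.exists_low (K (π i y))
    refine le_trans (Finset.card_le_card fun v hv => ?_) hT'.le
    obtain ⟨x, hx, rfl⟩ := Finset.mem_image.1 hv
    obtain ⟨s, hs⟩ := (Finset.mem_filter.1 hx).2
    have := (hs.2 i (List.mem_range.2 hi)).2
    rw [hp2 i hi] at this
    exact (hTm' _).2 (M.le_of_mem this)
  · have hfib : (S.filter (fun x => π i x = w)).card ≤ 2 ^ (m i + 1) := by
      rcases (S.filter (fun x => π i x = w)).eq_empty_or_nonempty with h | h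
      · simp [h]
      have hch : ∀ x ∈ S, ∃ s : ℕ × ℕ, cond ps (s, x) := fun x hx => (Finset.mem_filter.1 hx).2
      choose! σ hσ using hch
      obtain ⟨x, hx, hmax⟩ := Finset.exists_max_image _ (fun x => (σ x).1) h
      rw [Finset.mem_filter] at hx
      have h2 := ((hσ x hx.1).2 i (List.mem_range.2 hi)).1
      rw [hp1 i hi] at h2
      refine le_trans ?_ h2
      simp only [hx.2]
      refine card_filter_le_len _ fun x' hx' hw => ?_
      exact (acc_pre _ (hmax x' (Finset.mem_filter.2 ⟨hx', hw⟩))).subset (hσ x' hx').1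
    have h3 : c1 i ≤ (Finset.range r).sup c1 := Finset.le_sup (Finset.mem_range.2 hi)
    have h4 : c1 i * e ≤ (Finset.range r).sup c1 * e := Nat.mul_le_mul_right _ h3
    have h5 : 2 ^ Nat.log 2 S.card ≤ S.card := Nat.pow_log_le_self 2 hS0
    have h6 := hKi i
    have h7 := hmk i
    calc _ ≤ 2 ^ (m i + 1) * 2 ^ (K (π i y)) := Nat.mul_le_mul_right _ hfib
      _ = 2 ^ (m i + 1 + K (π i y)) := by rw [← pow_add]
      _ ≤ 2 ^ (Nat.log 2 S.card + ((Finset.range r).sup c1 + c2 + 3) * e) := by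
        refine Nat.pow_le_pow_right (by norm_num) ?_
        rw [add_mul, add_mul]
        omega
      _ ≤ _ := by rw [pow_add]; exact Nat.mul_le_mul_right _ h5

end Pool.Agent.Lib.MP_b69f85_lc
end

-- part Pool.Agent.Lib.MP_b69f85_lc.Upper
section

namespace Pool.Agent.Lib.MP_b69f85_lc

open Encodable

variable {K : LS → ℕ} {run : ℕ → Str → Option LS}

theorem Mach.len_bound (M : Mach K run) : ∃ c : ℕ, ∀ n : ℕ, 1 ≤ n → ∀ y : LS, y.length ≤ 4 →
    (∀ x ∈ y, x.length ≤ n) → K y ≤ c * n := by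
  let g : List ℕ → ℕ → Option LS := fun ps z => (decode (α := LS) z).bind fun y =>
    if y.length ≤ 4 ∧ ∀ x ∈ y, x.length ≤ ps.getD 0 0 then some y else none
  have hg : Primrec₂ g := by
    refine Primrec.option_bind (Primrec.decode.comp Primrec.snd) ?_
    refine Primrec.ite (PrimrecPred.and ?_ ?_) (Primrec.option_some.comp Primrec.snd)
      (Primrec.const none)
    · exact Primrec.nat_le.comp (Primrec.list_length.comp Primrec.snd) (Primrec.const 4)
    · have h : PrimrecRel fun (x : Str) (n : ℕ) => x.length ≤ n :=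
        Primrec.nat_le.comp (Primrec.list_length.comp Primrec.fst) Primrec.snd
      exact h.forall_mem_list.comp Primrec.snd
        ((Primrec.list_getD 0).comp (Primrec.fst.comp Primrec.fst) (Primrec.const 0))
  obtain ⟨c, hc⟩ := M.enum hg 1
  refine ⟨c + 8, fun n hn y hy hx => ?_⟩
  have h1 := hc [n] n (4 * (n + 1)) (listsLe (listsLe (Finset.univ : Finset Bool) n) 4) hn
    (by simp) (by simpa using Nat.lt_two_pow_self) ?_ ?_ (encode y) y ?_
  · rw [add_mul]; omega
  · refine (card_listsLe _ _).trans ?_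
    rw [mul_comm, pow_mul]
    exact Nat.pow_le_pow_left (card_strs n) _
  · intro z x hz
    simp only [g, Option.bind_eq_some_iff] at hz
    obtain ⟨q, _, hq⟩ := hz
    split_ifs at hq with hl
    obtain rfl : q = x := by simpa using hq
    exact mem_listsLe _ _ _ hl.1 fun s hs => mem_listsLe _ _ _ (by simpa using hl.2 s hs) (by simp)
  · simp only [g, encodek, Option.bind_some]
    rw [if_pos ⟨hy, by simpa using hx⟩]

/-- Minus the Ingleton expression. -/
def VK (K : LS → ℕ) (a b c d : Str) : ℝ :=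
  (K [a] : ℝ) + K [b] - K [a, b] - K [a, c] - K [b, c] + K [a, b, c] - K [a, d] - K [b, d]
    + K [a, b, d] + K [c, d]

def ZK (K : LS → ℕ) (a b c : Str) : ℝ := (K [a, c] : ℝ) + K [b, c] - K [a, b, c] - K [c]

def XK (K : LS → ℕ) (a b c : Str) : ℝ :=
  2 * (K [a, b] : ℝ) + K [a, c] + K [b, c] - 2 * K [a, b, c] - K [a] - K [b]

def us : List (List ℕ) :=
  [[0], [1], [2], [0, 1], [0, 2], [1, 2], [0, 1, 2], [0, 3], [1, 3], [0, 1, 3], [2, 3]]

def pr (i : ℕ) (y : LS) : LS := (us.getD i []).map fun j => y.getD j []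

theorem prim_pr : Primrec₂ pr :=
  Primrec.list_map ((Primrec.list_getD []).comp (Primrec.const us) Primrec.fst)
    ((Primrec.list_getD []).comp (Primrec.snd.comp Primrec.fst) Primrec.snd).to₂

theorem unif_bounds {α β : Type} [DecidableEq β] (S : Finset α) (hS : S.Nonempty) (f : α → β)
    (k m : ℕ) (h1 : (S.image f).card ≤ 2 ^ (k + 1))
    (h2 : ∀ w, (S.filter (fun x => f x = w)).card * 2 ^ k ≤ S.card * 2 ^ m) :
    |H (fun _ : S => 1 / (S.card : ℝ)) (Eqv.ker fun x : S => f x) - k * Real.log 2| ≤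
      (m + 1) * Real.log 2 := by
  classical
  have hc : (0 : ℝ) < S.card := by exact_mod_cast hS.card_pos
  have hp : ∀ _ : S, (0 : ℝ) ≤ 1 / (S.card : ℝ) := fun _ => by positivity
  have hs : ∑ _x : S, 1 / (S.card : ℝ) = 1 := by simp [hc.ne']
  have l2 : 0 < Real.log 2 := Real.log_pos (by norm_num)
  have u := H_le_log hp hs (fun x : S => f x) (S.image f)
    (fun x => Finset.mem_image_of_mem f x.2) (N := 2 ^ (k + 1)) (by exact_mod_cast h1)
    (by positivity)
  have l := le_H hp hs (Eqv.ker fun x : S => f x) (t := 2 ^ m / 2 ^ k) (by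
    intro x
    have e : mass (fun _ : S => 1 / (S.card : ℝ)) (Eqv.ker fun x : S => f x) x =
        (S.filter (fun y => f y = f x)).card / (S.card : ℝ) := by
      unfold mass
      rw [Finset.card_filter, ← Finset.sum_coe_sort S]
      push_cast
      rw [Finset.sum_div]
      refine Finset.sum_congr rfl fun y _ => ?_
      by_cases h : f y = f x
      · rw [if_pos h, if_pos (show (Eqv.ker fun x : S => f x) x y from h.symm)]
      · rw [if_neg h, if_neg (show ¬ (Eqv.ker fun x : S => f x) x y from fun h' => h h'.symm),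
          zero_div]
    rw [e, div_le_div_iff₀ hc (by positivity), mul_comm _ (S.card : ℝ)]
    exact_mod_cast h2 (f x))
  rw [Real.log_pow] at u
  rw [Real.log_div (by positivity) (by positivity), Real.log_pow, Real.log_pow] at l
  push_cast at u
  have : (0 : ℝ) ≤ m * Real.log 2 := by positivity
  rw [abs_le]
  constructor <;> nlinarith

theorem Mach.upper (M : Mach K run) (k : ℕ) : ∃ C : ℝ, ∀ n : ℕ, 2 ≤ n → ∀ a b c d : Str,
    a.length ≤ n → b.length ≤ n → c.length ≤ n → d.length ≤ n →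
    (2 ^ k - 1) * VK K a b c d ≤
      ZK K a b c + (k + 1) * 2 ^ k * (XK K a b c + XK K a b d) + C * Real.log n := by
  obtain ⟨c0, hc0⟩ := M.len_bound
  obtain ⟨c1, hc1⟩ := M.typ prim_pr 11
  have l2 : 0 < Real.log 2 := Real.log_pos (by norm_num)
  set W : ℝ := (2 ^ k - 1) * 10 + 4 + (k + 1) * 2 ^ k * 16 with hW
  have hk : (0 : ℝ) ≤ 2 ^ k - 1 := sub_nonneg.2 (one_le_pow₀ (by norm_num))
  refine ⟨W * ((c1 + 1) * (c0 + 3)) / Real.log 2, fun n hn a b c d ha hb hc hd => ?_⟩
  set e := Nat.log 2 n + 1 + (c0 + 1) with he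
  have hlog : 1 ≤ Nat.log 2 n := Nat.log_pos (by norm_num) hn
  have hbig : c0 * n + 1 < 2 ^ e := by
    have h1 : n < 2 ^ (Nat.log 2 n + 1) := Nat.lt_pow_succ_log_self (by norm_num) n
    have h2 : c0 + 1 < 2 ^ (c0 + 1) := Nat.lt_two_pow_self
    rw [he, pow_add]
    nlinarith
  have hall : ∀ x ∈ [a, b, c, d], x.length ≤ n := by simp [*]
  have hK : ∀ y : LS, y.length ≤ 4 → (∀ x ∈ y, x.length ≤ n) → K y + 1 < 2 ^ e :=
    fun y h1 h2 => lt_of_le_of_lt (Nat.succ_le_succ (hc0 n (by omega) y h1 h2)) hbig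
  obtain ⟨S, hS, hb'⟩ := hc1 [a, b, c, d] e (by omega) (hK _ (by simp) hall) (by
    intro i hi
    refine Nat.lt_of_succ_lt (hK _ ?_ ?_)
    · interval_cases i <;> simp [pr, us]
    · interval_cases i <;> simp [pr, us, *])
  have hB := fun i (hi : i < 11) => unif_bounds S hS (pr i) _ _ (hb' i hi).1 (hb' i hi).2
  have hc' : (0 : ℝ) < S.card := by exact_mod_cast hS.card_pos
  set p : S → ℝ := fun _ => 1 / (S.card : ℝ) with hpdef
  have hp : ∀ x, 0 ≤ p x := fun _ => by positivity
  have hs : ∑ x, p x = 1 := by simp [hpdef, hc'.ne']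
  let v : ℕ → Eqv S := fun j => Eqv.ker fun x : S => (x : LS).getD j []
  have D := dfz hp hs (v 0) (v 1) (v 2) (v 3) k
  set δ : ℝ := (((c1 * e : ℕ) : ℝ) + 1) * Real.log 2 with hδ
  have b0 := hB 0 (by norm_num)
  have b1 := hB 1 (by norm_num)
  have b2 := hB 2 (by norm_num)
  have b3 := hB 3 (by norm_num)
  have b4 := hB 4 (by norm_num)
  have b5 := hB 5 (by norm_num)
  have b6 := hB 6 (by norm_num)
  have b7 := hB 7 (by norm_num)
  have b8 := hB 8 (by norm_num)
  have b9 := hB 9 (by norm_num)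
  have b10 := hB 10 (by norm_num)
  rw [H_congr p _ (v 0) (by simp [pr, us, v, Eqv.ker_def]), show pr 0 [a, b, c, d] = [a] from rfl,
    abs_le] at b0
  rw [H_congr p _ (v 1) (by simp [pr, us, v, Eqv.ker_def]), show pr 1 [a, b, c, d] = [b] from rfl,
    abs_le] at b1
  rw [H_congr p _ (v 2) (by simp [pr, us, v, Eqv.ker_def]), show pr 2 [a, b, c, d] = [c] from rfl,
    abs_le] at b2
  rw [H_congr p _ (v 0 ⊓ v 1) (by simp [pr, us, v, Eqv.ker_def, inf_rel]),
    show pr 3 [a, b, c, d] = [a, b] from rfl, abs_le] at b3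
  rw [H_congr p _ (v 0 ⊓ v 2) (by simp [pr, us, v, Eqv.ker_def, inf_rel]),
    show pr 4 [a, b, c, d] = [a, c] from rfl, abs_le] at b4
  rw [H_congr p _ (v 1 ⊓ v 2) (by simp [pr, us, v, Eqv.ker_def, inf_rel]),
    show pr 5 [a, b, c, d] = [b, c] from rfl, abs_le] at b5
  rw [H_congr p _ (v 0 ⊓ v 1 ⊓ v 2) (by simp [pr, us, v, Eqv.ker_def, inf_rel, and_assoc]),
    show pr 6 [a, b, c, d] = [a, b, c] from rfl, abs_le] at b6
  rw [H_congr p _ (v 0 ⊓ v 3) (by simp [pr, us, v, Eqv.ker_def, inf_rel]),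
    show pr 7 [a, b, c, d] = [a, d] from rfl, abs_le] at b7
  rw [H_congr p _ (v 1 ⊓ v 3) (by simp [pr, us, v, Eqv.ker_def, inf_rel]),
    show pr 8 [a, b, c, d] = [b, d] from rfl, abs_le] at b8
  rw [H_congr p _ (v 0 ⊓ v 1 ⊓ v 3) (by simp [pr, us, v, Eqv.ker_def, inf_rel, and_assoc]),
    show pr 9 [a, b, c, d] = [a, b, d] from rfl, abs_le] at b9
  rw [H_congr p _ (v 2 ⊓ v 3) (by simp [pr, us, v, Eqv.ker_def, inf_rel]),
    show pr 10 [a, b, c, d] = [c, d] from rfl, abs_le] at b10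
  have eV : VK K a b c d * Real.log 2 ≤ Vf p (v 0) (v 1) (v 2) (v 3) + 10 * δ := by
    unfold VK Vf; linarith
  have eZ : Zf p (v 0) (v 1) (v 2) ≤ ZK K a b c * Real.log 2 + 4 * δ := by
    unfold ZK Zf; linarith
  have eX : Xf p (v 0) (v 1) (v 2) + Xf p (v 0) (v 1) (v 3) ≤
      (XK K a b c + XK K a b d) * Real.log 2 + 16 * δ := by
    unfold XK Xf; linarith
  have hδle : δ ≤ (c1 + 1) * (c0 + 3) * Real.log n := by
    have h1 : (Nat.log 2 n : ℝ) * Real.log 2 ≤ Real.log n := by
      rw [← Real.log_pow]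
      refine Real.log_le_log (by positivity) ?_
      exact_mod_cast Nat.pow_log_le_self 2 (by omega)
    have h2 : c1 * e + 1 ≤ (c1 + 1) * (c0 + 3) * Nat.log 2 n := by
      have : e ≤ (c0 + 3) * Nat.log 2 n := by rw [he]; nlinarith
      calc c1 * e + 1 ≤ (c1 + 1) * e := by rw [add_mul]; omega
        _ ≤ _ := by rw [mul_assoc]; exact Nat.mul_le_mul_left _ this
    have h3 : ((c1 * e : ℕ) : ℝ) + 1 ≤ (c1 + 1) * (c0 + 3) * (Nat.log 2 n : ℝ) := by
      exact_mod_cast h2
    calc δ ≤ (c1 + 1) * (c0 + 3) * (Nat.log 2 n : ℝ) * Real.log 2 :=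
          mul_le_mul_of_nonneg_right h3 l2.le
      _ ≤ _ := by rw [mul_assoc]; exact mul_le_mul_of_nonneg_left h1 (by positivity)
  have hW0 : 0 ≤ W := by positivity
  have m1 := mul_le_mul_of_nonneg_left eV hk
  have m2 := mul_le_mul_of_nonneg_left eX (show (0 : ℝ) ≤ (k + 1) * 2 ^ k by positivity)
  have m3 := mul_le_mul_of_nonneg_left hδle hW0
  refine le_of_mul_le_mul_right ?_ l2
  have m4 : W * ((c1 + 1) * (c0 + 3)) / Real.log 2 * Real.log n * Real.log 2 =
      W * ((c1 + 1) * (c0 + 3) * Real.log n) := by field_simp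
  rw [add_mul, m4]
  have m5 : W * δ = (2 ^ k - 1) * (10 * δ) + 4 * δ + (k + 1) * 2 ^ k * (16 * δ) := by
    rw [hW]; ring
  linarith

end Pool.Agent.Lib.MP_b69f85_lc
end

-- part Pool.Agent.Lib.MP_b69f85_lc.Sample
section

namespace Pool.Agent.Lib.MP_b69f85_lc

open Encodable Finset

variable {K : LS → ℕ} {run : ℕ → Str → Option LS}

/-- Columnwise concatenation of a list of tuples. -/
def glue (w : ℕ) (zs : List LS) : LS := (List.range w).map fun j => zs.flatMap fun y => y.getD j []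

theorem prim_glue (w : ℕ) : Primrec (glue w) :=
  Primrec.list_map (Primrec.const _) (Primrec.list_flatMap Primrec.fst
    ((Primrec.list_getD []).comp Primrec.snd (Primrec.snd.comp Primrec.fst)).to₂).to₂

theorem Mach.glue_le (M : Mach K run) (w : ℕ) (Q : Finset LS) : ∃ c, ∀ m e L : ℕ, 1 ≤ e →
    m < 2 ^ e → Q.card ^ m ≤ 2 ^ L → ∀ f : Fin m → LS, (∀ i, f i ∈ Q) →
    K (glue w (List.ofFn f)) ≤ L + c * e := by
  let g : List ℕ → ℕ → Option LS := fun ps z => (decode (α := List LS) z).bind fun zs =>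
    if zs.length = ps.getD 0 0 ∧ ∀ y ∈ zs, y ∈ Q.toList then some (glue w zs) else none
  have hg : Primrec₂ g := by
    refine Primrec.option_bind (Primrec.decode.comp Primrec.snd) ?_
    refine Primrec.ite (PrimrecPred.and ?_ ?_)
      (Primrec.option_some.comp ((prim_glue w).comp Primrec.snd)) (Primrec.const none)
    · exact Primrec.eq.comp (Primrec.list_length.comp Primrec.snd)
        ((Primrec.list_getD 0).comp (Primrec.fst.comp Primrec.fst) (Primrec.const 0))
    · exact prim_mem.forall_mem_list.comp Primrec.snd (Primrec.const Q.toList)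
  obtain ⟨c, hc⟩ := M.enum hg 1
  refine ⟨c, fun m e L he hm hQ f hf => ?_⟩
  refine hc [m] e L ((Fintype.piFinset fun _ : Fin m => Q).image fun f => glue w (List.ofFn f))
    he (by simp) (by simpa using hm) ?_ ?_ (encode (List.ofFn f)) _ ?_
  · refine card_image_le.trans ?_
    simpa [Fintype.card_piFinset] using hQ
  · intro z x hz
    simp only [g, Option.bind_eq_some_iff] at hz
    obtain ⟨q, _, hq⟩ := hz
    split_ifs at hq with hl
    obtain rfl : glue w q = x := by simpa using hq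
    obtain rfl : q.length = m := by simpa using hl.1
    refine mem_image.2 ⟨q.get, Fintype.mem_piFinset.2 fun i => ?_, by rw [List.ofFn_get]⟩
    exact mem_toList.1 (hl.2 _ (List.get_mem _ _))
  · simp only [g, encodek, Option.bind_some]
    rw [if_pos]
    refine ⟨by simp, fun y hy => ?_⟩
    obtain ⟨i, rfl⟩ := List.mem_ofFn.1 hy
    exact mem_toList.2 (hf i)

theorem flatMap_inj {α : Type} (h : α → Str) (l : ℕ) : ∀ (m : ℕ) (f g : Fin m → α),
    (∀ i, (h (f i)).length = l) → (∀ i, (h (g i)).length = l) →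
    (List.ofFn f).flatMap h = (List.ofFn g).flatMap h → ∀ i, h (f i) = h (g i)
  | 0, _, _, _, _, _ => fun i => i.elim0
  | m + 1, f, g, hf, hg, e => by
    rw [List.ofFn_succ, List.ofFn_succ, List.flatMap_cons, List.flatMap_cons] at e
    obtain ⟨e1, e2⟩ := List.append_inj e (by rw [hf, hg])
    intro i
    refine Fin.cases e1 (fun j => ?_) i
    exact flatMap_inj h l m _ _ (fun i => hf _) (fun i => hg _) e2 j

theorem length_flatMap_ofFn {α : Type} (h : α → Str) (l : ℕ) : ∀ (m : ℕ) (f : Fin m → α),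
    (∀ i, (h (f i)).length = l) → ((List.ofFn f).flatMap h).length = m * l
  | 0, _, _ => by simp
  | m + 1, f, hf => by
    rw [List.ofFn_succ, List.flatMap_cons, List.length_append, hf,
      length_flatMap_ofFn h l m _ (fun i => hf _)]
    ring

theorem glue_inj {w l m : ℕ} {f g : Fin m → LS} (hf : ∀ i, (f i).length = w ∧ ∀ x ∈ f i, x.length = l)
    (hg : ∀ i, (g i).length = w ∧ ∀ x ∈ g i, x.length = l)
    (e : glue w (List.ofFn f) = glue w (List.ofFn g)) (i : Fin m) : f i = g i := by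
  refine List.ext_getElem (by rw [(hf i).1, (hg i).1]) fun j h1 h2 => ?_
  have hj : j < w := (hf i).1 ▸ h1
  have e1 := List.map_inj_left.1 e j (List.mem_range.2 hj)
  have key : ∀ y : LS, (y.length = w ∧ ∀ x ∈ y, x.length = l) → (y.getD j []).length = l := by
    intro y hy
    rw [List.getD_eq_getElem _ _ (hy.1 ▸ hj)]
    exact hy.2 _ (List.getElem_mem _)
  have := flatMap_inj (fun y : LS => y.getD j []) l m f g (fun i => key _ (hf i))
    (fun i => key _ (hg i)) e1 i
  rwa [List.getD_eq_getElem _ _ h1, List.getD_eq_getElem _ _ h2] at this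

theorem Mach.few_bad (M : Mach K run) {Ω : Type} [Fintype Ω] [Nonempty Ω] (Φ : Ω → LS) (w l F m : ℕ)
    (hΦ : ∀ x, (Φ x).length = w ∧ ∀ s ∈ Φ x, s.length = l)
    (hF : ∀ y, (univ.filter fun x => Φ x = y).card ≤ F) :
    32 * (univ.filter fun ω : Fin m → Ω => 2 ^ (K (glue w (List.ofFn (Φ ∘ ω))) + 6) * F ^ m <
      Fintype.card Ω ^ m).card < Fintype.card Ω ^ m := by
  classical
  set B := univ.filter fun ω : Fin m → Ω => 2 ^ (K (glue w (List.ofFn (Φ ∘ ω))) + 6) * F ^ m <
      Fintype.card Ω ^ m with hB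
  rcases B.eq_empty_or_nonempty with h | h
  · rw [h]; simpa using pow_pos Fintype.card_pos m
  obtain ⟨ω0, h0, hmax⟩ := exists_max_image B (fun ω => K (glue w (List.ofFn (Φ ∘ ω)))) h
  obtain ⟨T, hT, hTm⟩ := M.exists_low (K (glue w (List.ofFn (Φ ∘ ω0))))
  have h1 : B.card ≤ F ^ m * T.card := by
    refine card_le_mul_card_image_of_maps_to (f := fun ω => glue w (List.ofFn (Φ ∘ ω)))
      (fun ω hω => (hTm _).2 (hmax ω hω)) _ fun y _ => ?_
    rcases (B.filter fun ω => glue w (List.ofFn (Φ ∘ ω)) = y).eq_empty_or_nonempty with h | ⟨ω1, h1⟩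
    · simp [h]
    calc _ ≤ (Fintype.piFinset fun i => univ.filter fun x => Φ x = Φ (ω1 i)).card := by
          refine card_le_card fun ω hω => Fintype.mem_piFinset.2 fun i => ?_
          refine mem_filter.2 ⟨mem_univ _, ?_⟩
          exact glue_inj (f := Φ ∘ ω) (g := Φ ∘ ω1) (fun i => hΦ _) (fun i => hΦ _)
            ((mem_filter.1 hω).2.trans (mem_filter.1 h1).2.symm) i
      _ ≤ F ^ m := by
          rw [Fintype.card_piFinset]
          exact (prod_le_pow_card _ _ F fun i _ => hF _).trans (by simp)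
  have h2 := (mem_filter.1 h0).2
  have h3 := Nat.mul_le_mul_left (F ^ m) hT.le
  have h4 : 2 ^ (K (glue w (List.ofFn (Φ ∘ ω0))) + 6) =
      32 * 2 ^ (K (glue w (List.ofFn (Φ ∘ ω0))) + 1) := by ring
  rw [h4] at h2
  nlinarith

theorem pr_glue (i : ℕ) (hi : i < 11) (zs : List LS) :
    pr i (glue 4 zs) = glue (us.getD i []).length (zs.map (pr i)) := by
  interval_cases i <;> simp [pr, us, glue, List.range_succ, List.flatMap_map]

theorem pr_len (i : ℕ) (hi : i < 11) (l : ℕ) (y : LS) (h : y.length = 4 ∧ ∀ s ∈ y, s.length = l) :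
    (pr i y).length = (us.getD i []).length ∧ ∀ s ∈ pr i y, s.length = l := by
  obtain ⟨h1, h2⟩ := h
  match y, h1 with
  | [a, b, c, d], _ =>
    simp only [List.mem_cons, List.not_mem_nil, or_false, forall_eq_or_imp, forall_eq] at h2
    interval_cases i <;> simp [pr, us, h2]

/-- Long random samples have the expected complexity profile. -/
theorem Mach.sample (M : Mach K run) {Ω : Type} [Fintype Ω] [Nonempty Ω] (Φ : Ω → LS) (l : ℕ)
    (hΦ : ∀ x, (Φ x).length = 4 ∧ ∀ s ∈ Φ x, s.length = l) :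
    ∃ C : ℝ, ∀ m : ℕ, 2 ≤ m → ∃ a b c d : Str, a.length = m * l ∧ b.length = m * l ∧
      c.length = m * l ∧ d.length = m * l ∧ ∀ i < 11,
      (∀ F : ℕ, 0 < F → (∀ y, (univ.filter fun x => pr i (Φ x) = y).card ≤ F) →
        m * (Real.log (Fintype.card Ω) - Real.log F) - C * Real.log m ≤
          K (pr i [a, b, c, d]) * Real.log 2) ∧
      (∀ N : ℕ, (univ.image fun x => pr i (Φ x)).card ≤ N →
        K (pr i [a, b, c, d]) * Real.log 2 ≤ m * Real.log N + C * Real.log m) := by
  classical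
  have h1 := fun i => M.glue_le (us.getD i []).length (univ.image fun x => pr i (Φ x))
  choose c hc using h1
  set c1 := (range 11).sup c
  refine ⟨2 * c1 + 6, fun m hm => ?_⟩
  let F0 : ℕ → ℕ := fun i => univ.sup fun x0 => (univ.filter fun x => pr i (Φ x) = pr i (Φ x0)).card
  have hF0 : ∀ i y, (univ.filter fun x => pr i (Φ x) = y).card ≤ F0 i := by
    intro i y
    rcases (univ.filter fun x => pr i (Φ x) = y).eq_empty_or_nonempty with h | ⟨x, hx⟩
    · simp [h]
    · rw [← (mem_filter.1 hx).2]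
      exact le_sup (f := fun x0 => (univ.filter fun x => pr i (Φ x) = pr i (Φ x0)).card)
        (mem_univ x)
  let B : ℕ → Finset (Fin m → Ω) := fun i => univ.filter fun ω : Fin m → Ω =>
    2 ^ (K (glue (us.getD i []).length (List.ofFn ((fun x => pr i (Φ x)) ∘ ω))) + 6) * F0 i ^ m <
      Fintype.card Ω ^ m
  have hB : ∀ i ∈ range 11, 32 * (B i).card ≤ Fintype.card Ω ^ m := fun i hi =>
    (M.few_bad (fun x => pr i (Φ x)) _ l (F0 i) m
      (fun x => pr_len i (mem_range.1 hi) l _ (hΦ x)) (hF0 i)).le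
  have hlt : ((range 11).biUnion B).card < (univ : Finset (Fin m → Ω)).card := by
    have e1 : ((range 11).biUnion B).card ≤ ∑ i ∈ range 11, (B i).card := card_biUnion_le
    have e2 := sum_le_sum hB
    rw [← mul_sum] at e2
    have e3 : 0 < Fintype.card Ω ^ m := pow_pos Fintype.card_pos m
    simp only [sum_const, card_range, smul_eq_mul] at e2
    rw [card_univ, Fintype.card_fun, Fintype.card_fin]
    omega
  obtain ⟨ω, _, hω⟩ := exists_mem_notMem_of_card_lt_card hlt
  have hlen : ∀ j < 4, ((List.ofFn (Φ ∘ ω)).flatMap fun y => y.getD j []).length = m * l := by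
    intro j hj
    refine length_flatMap_ofFn _ l m _ fun i => ?_
    have := hΦ (ω i)
    rw [Function.comp, List.getD_eq_getElem _ _ (this.1 ▸ hj)]
    exact this.2 _ (List.getElem_mem _)
  refine ⟨_, _, _, _, hlen 0 (by norm_num), hlen 1 (by norm_num), hlen 2 (by norm_num),
    hlen 3 (by norm_num), fun i hi => ?_⟩
  change (∀ F : ℕ, _ → _ → _ ≤ (K (pr i (glue 4 (List.ofFn (Φ ∘ ω)))) : ℝ) * _) ∧
    (∀ N : ℕ, _ → (K (pr i (glue 4 (List.ofFn (Φ ∘ ω)))) : ℝ) * _ ≤ _)
  rw [pr_glue i hi, List.map_ofFn]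
  set k := K (glue (us.getD i []).length (List.ofFn (pr i ∘ Φ ∘ ω))) with hk
  have l2 : 0 < Real.log 2 := Real.log_pos (by norm_num)
  have lm : Real.log 2 ≤ Real.log m := Real.log_le_log (by norm_num) (by exact_mod_cast hm)
  have hc1 : (0 : ℝ) ≤ c1 := Nat.cast_nonneg _
  constructor
  · intro F hF hfib
    have h1 : Fintype.card Ω ^ m ≤ 2 ^ (k + 6) * F0 i ^ m := by
      by_contra h
      exact hω (mem_biUnion.2 ⟨i, mem_range.2 hi, mem_filter.2 ⟨mem_univ _, not_le.1 h⟩⟩)
    have h2 : F0 i ≤ F := Finset.sup_le fun x _ => hfib _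
    have h3 : Fintype.card Ω ^ m ≤ 2 ^ (k + 6) * F ^ m :=
      h1.trans (Nat.mul_le_mul_left _ (Nat.pow_le_pow_left h2 m))
    have h4 : ((Fintype.card Ω : ℝ)) ^ m ≤ 2 ^ (k + 6) * (F : ℝ) ^ m := by exact_mod_cast h3
    have h5 := Real.log_le_log (pow_pos (by exact_mod_cast Fintype.card_pos) m) h4
    rw [Real.log_mul (by positivity) (by positivity), Real.log_pow, Real.log_pow,
      Real.log_pow] at h5
    push_cast at h5
    nlinarith
  · intro N hN
    have hN0 : 0 < N := lt_of_lt_of_le (card_pos.2 (univ_nonempty.image _)) hN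
    have h1 := hc i m (Nat.log 2 m + 1) (Nat.log 2 (N ^ m) + 1) (by omega)
      (Nat.lt_pow_succ_log_self (by norm_num) m)
      ((Nat.pow_le_pow_left hN m).trans (Nat.lt_pow_succ_log_self (by norm_num) _).le)
      (pr i ∘ Φ ∘ ω) (fun j => mem_image_of_mem _ (mem_univ _))
    have h2 : c i ≤ c1 := le_sup (mem_range.2 hi)
    have h3 : k ≤ Nat.log 2 (N ^ m) + 1 + c1 * (Nat.log 2 m + 1) :=
      h1.trans (Nat.add_le_add_left (Nat.mul_le_mul_right _ h2) _)
    have h4 : (k : ℝ) ≤ Nat.log 2 (N ^ m) + 1 + c1 * (Nat.log 2 m + 1) := by exact_mod_cast h3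
    have lg : ∀ t : ℕ, t ≠ 0 → (Nat.log 2 t : ℝ) * Real.log 2 ≤ Real.log t := by
      intro t ht
      rw [← Real.log_pow]
      refine Real.log_le_log (by positivity) ?_
      exact_mod_cast Nat.pow_log_le_self 2 ht
    have h5 := lg (N ^ m) (by positivity)
    have h6 := mul_le_mul_of_nonneg_left (lg m (by omega)) hc1
    have h7 := mul_le_mul_of_nonneg_left lm hc1
    have h8 := mul_le_mul_of_nonneg_right h4 l2.le
    rw [Nat.cast_pow, Real.log_pow] at h5
    nlinarith

theorem nonpos_of_le_log {A C D : ℝ} (h : ∀ m : ℕ, 2 ≤ m → m * A ≤ C * Real.log m + D) : A ≤ 0 := by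
  by_contra hA
  have hA := not_le.1 hA
  have h1 := (Real.isLittleO_log_id_atTop.comp_tendsto tendsto_natCast_atTop_atTop).const_mul_left C
  have h2 := h1.bound (half_pos hA)
  have h3 : ∀ᶠ m : ℕ in Filter.atTop, 2 * D / A < m :=
    tendsto_natCast_atTop_atTop.eventually_gt_atTop _
  obtain ⟨m, ⟨a1, a2⟩, a3⟩ := ((h2.and h3).and (Filter.eventually_ge_atTop 2)).exists
  have := h m a3
  simp only [Function.comp, id, Real.norm_eq_abs, Nat.abs_cast] at a1
  have b := le_abs_self (C * Real.log m)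
  rw [div_lt_iff₀ hA] at a2
  linarith

end Pool.Agent.Lib.MP_b69f85_lc
end

-- part Pool.Agent.Lib.MP_b69f85_lc.Lower
section

namespace Pool.Agent.Lib.MP_b69f85_lc

open Finset

variable {K : LS → ℕ} {run : ℕ → Str → Option LS}

theorem Mach.lower_abs (M : Mach K run) {s r C : ℝ} (hs : 0 ≤ s) (hr : 0 ≤ r)
    (h : ∀ n : ℕ, 2 ≤ n → ∀ a b c d : Str, a.length ≤ n → b.length ≤ n → c.length ≤ n →
      d.length ≤ n → VK K a b c d ≤ s * ZK K a b c + r * (XK K a b c + XK K a b d) + C * Real.log n)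
    {Ω : Type} [Fintype Ω] [Nonempty Ω] (Φ : Ω → LS) (l : ℕ) (hl : 1 ≤ l)
    (hΦ : ∀ x, (Φ x).length = 4 ∧ ∀ s ∈ Φ x, s.length = l) (N F : ℕ) (hF : 0 < F)
    (hN : ∀ i ∈ [3, 4, 5, 7, 8], (univ.image fun x => pr i (Φ x)).card ≤ N)
    (hF0 : ∀ i ∈ [0, 1], ∀ y, (univ.filter fun x => pr i (Φ x) = y).card ≤ F)
    (hF1 : ∀ i ∈ [6, 9], ∀ y, (univ.filter fun x => pr i (Φ x) = y).card ≤ 1)
    (hF2 : ∀ y, (univ.filter fun x => pr 10 (Φ x) = y).card ≤ 2) :
    5 * Real.log (Fintype.card Ω) - 2 * Real.log F - Real.log 2 - 5 * Real.log N ≤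
      s * (2 * Real.log N) + r * (8 * Real.log N - 8 * Real.log (Fintype.card Ω)
        + 4 * Real.log F) := by
  obtain ⟨C', hC'⟩ := M.sample Φ l hΦ
  have l2 : 0 < Real.log 2 := Real.log_pos (by norm_num)
  rw [← sub_nonpos]
  refine nonpos_of_le_log (C := 10 * C' + s * (2 * C') + r * (16 * C') + C * Real.log 2)
    (D := C * Real.log 2 * Real.log l) fun m hm => ?_
  obtain ⟨a, b, c, d, ha, hb, hc, hd, hi⟩ := hC' m hm
  have hv := h (m * l) (by nlinarith) a b c d ha.le hb.le hc.le hd.le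
  have b0 := (hi 0 (by norm_num)).1 F hF (hF0 0 (by simp))
  have b1 := (hi 1 (by norm_num)).1 F hF (hF0 1 (by simp))
  have b6 := (hi 6 (by norm_num)).1 1 one_pos (hF1 6 (by simp))
  have b9 := (hi 9 (by norm_num)).1 1 one_pos (hF1 9 (by simp))
  have b10 := (hi 10 (by norm_num)).1 2 two_pos hF2
  have b3 := (hi 3 (by norm_num)).2 N (hN 3 (by simp))
  have b4 := (hi 4 (by norm_num)).2 N (hN 4 (by simp))
  have b5 := (hi 5 (by norm_num)).2 N (hN 5 (by simp))
  have b7 := (hi 7 (by norm_num)).2 N (hN 7 (by simp))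
  have b8 := (hi 8 (by norm_num)).2 N (hN 8 (by simp))
  change _ ≤ (K [a] : ℝ) * _ at b0
  change _ ≤ (K [b] : ℝ) * _ at b1
  change _ ≤ (K [a, b, c] : ℝ) * _ at b6
  change _ ≤ (K [a, b, d] : ℝ) * _ at b9
  change _ ≤ (K [c, d] : ℝ) * _ at b10
  change (K [a, b] : ℝ) * _ ≤ _ at b3
  change (K [a, c] : ℝ) * _ ≤ _ at b4
  change (K [b, c] : ℝ) * _ ≤ _ at b5
  change (K [a, d] : ℝ) * _ ≤ _ at b7
  change (K [b, d] : ℝ) * _ ≤ _ at b8
  rw [Nat.cast_one, Real.log_one] at b6 b9
  rw [Nat.cast_ofNat] at b10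
  have n1 : (0 : ℝ) ≤ K [a, b, c] * Real.log 2 := by positivity
  have n2 : (0 : ℝ) ≤ K [c] * Real.log 2 := by positivity
  have eV : m * (5 * Real.log (Fintype.card Ω) - 2 * Real.log F - Real.log 2 - 5 * Real.log N)
      - 10 * C' * Real.log m ≤ VK K a b c d * Real.log 2 := by unfold VK; linarith
  have eZ : ZK K a b c * Real.log 2 ≤ m * (2 * Real.log N) + 2 * C' * Real.log m := by
    unfold ZK; linarith
  have eX : (XK K a b c + XK K a b d) * Real.log 2 ≤ m * (8 * Real.log N -
      8 * Real.log (Fintype.card Ω) + 4 * Real.log F) + 16 * C' * Real.log m := by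
    unfold XK; linarith
  have m1 := mul_le_mul_of_nonneg_left eZ hs
  have m2 := mul_le_mul_of_nonneg_left eX hr
  have m3 := mul_le_mul_of_nonneg_right hv l2.le
  rw [Nat.cast_mul, Real.log_mul (by positivity) (by positivity)] at m3
  linarith

/-- A bit vector followed by a number in unary positional form. -/
def str (N : ℕ) (t : Fin N → Bool) (u : ℕ) : Str :=
  List.ofFn t ++ List.ofFn fun i : Fin (3 * N) => decide (i.val = u)

theorem str_len (N : ℕ) (t : Fin N → Bool) (u : ℕ) : (str N t u).length = 4 * N := by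
  simp [str]; ring

theorem str_inj {N : ℕ} {t t' : Fin N → Bool} {u u' : ℕ} (h : str N t u = str N t' u')
    (hu : u < 3 * N) : t = t' ∧ u = u' := by
  obtain ⟨h1, h2⟩ := List.append_inj h (by simp)
  refine ⟨List.ofFn_injective h1, ?_⟩
  simpa using congrFun (List.ofFn_injective h2) ⟨u, hu⟩

def flp {N : ℕ} (t : Fin N → Bool) (j : Fin N) : Fin N → Bool :=
  fun i => if i = j then !t i else t i

def msk {N : ℕ} (B : Finset ℕ) (c : ℕ) (t : Fin N → Bool) (u : ℕ) : Fin N → Bool :=
  fun i => if ∃ β ∈ B, i.val + c * β = u then false else t i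

theorem msk_flp {N : ℕ} {B : Finset ℕ} (c : ℕ) (t : Fin N → Bool) (j : Fin N) {β : ℕ}
    (hβ : β ∈ B) : msk B c (flp t j) (j + c * β) = msk B c t (j + c * β) := by
  funext i
  unfold msk flp
  by_cases h : i = j
  · rw [if_pos ⟨β, hβ, by rw [h]⟩, if_pos ⟨β, hβ, by rw [h]⟩]
  · rw [if_neg h]

theorem flp_inj {N : ℕ} {t : Fin N → Bool} {j j' : Fin N} (h : flp t j = flp t j') : j = j' := by
  by_contra hj
  have := congrFun h j
  simp [flp, hj] at this

theorem flp_inj' {N : ℕ} {t t' : Fin N → Bool} {j : Fin N} (h : flp t j = flp t' j) : t = t' := by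
  funext i
  have := congrFun h i
  unfold flp at this
  split_ifs at this
  · simpa using this
  · exact this

/-- The Ruzsa, Szemeredi type quadruple. -/
def rs (N : ℕ) (B : Finset ℕ) (x : (Fin N → Bool) × Fin N × B) : LS :=
  [str N x.1 0, str N (flp x.1 x.2.1) 0,
    str N (msk B 1 x.1 (x.2.1 + 1 * x.2.2)) (x.2.1 + 1 * x.2.2),
    str N (msk B 2 x.1 (x.2.1 + 2 * x.2.2)) (x.2.1 + 2 * x.2.2)]

theorem fib_le {Ω β γ : Type} [Fintype Ω] [Fintype γ] [DecidableEq β] (f : Ω → β) (ψ : Ω → γ)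
    (h : ∀ x y, f x = f y → ψ x = ψ y → x = y) (w : β) :
    (univ.filter fun x => f x = w).card ≤ Fintype.card γ := by
  rw [← card_univ]
  refine card_le_card_of_injOn ψ (fun _ _ => mem_coe.2 (mem_univ _)) fun x hx y hy e => ?_
  exact h x y ((mem_filter.1 (mem_coe.1 hx)).2.trans (mem_filter.1 (mem_coe.1 hy)).2.symm) e

theorem img_le {Ω β γ : Type} [Fintype Ω] [DecidableEq β] (f : Ω → β) (T : Finset γ) (G : γ → β)
    (h : ∀ x, ∃ t ∈ T, f x = G t) : (univ.image f).card ≤ T.card := by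
  refine le_trans (card_le_card fun y hy => ?_) (card_image_le (s := T) (f := G))
  obtain ⟨x, _, rfl⟩ := mem_image.1 hy
  obtain ⟨t, ht, e⟩ := h x
  exact mem_image.2 ⟨t, ht, e.symm⟩

theorem Mach.lower_rs (M : Mach K run) {s r C : ℝ} (hs : 0 ≤ s) (hr : 0 ≤ r)
    (h : ∀ n : ℕ, 2 ≤ n → ∀ a b c d : Str, a.length ≤ n → b.length ≤ n → c.length ≤ n →
      d.length ≤ n → VK K a b c d ≤ s * ZK K a b c + r * (XK K a b c + XK K a b d) + C * Real.log n)
    (N : ℕ) (hN : 1 ≤ N) (B : Finset ℕ) (hB : B ⊆ range N) (hB0 : B.Nonempty)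
    (hAP : ThreeAPFree (B : Set ℕ)) :
    3 * Real.log B.card - 2 * Real.log N - Real.log 2 - 5 * Real.log 3 ≤
      s * (2 * Real.log (2 ^ N * (3 * N))) +
        r * (8 * Real.log 3 + 4 * Real.log N - 4 * Real.log B.card) := by
  have : Nonempty B := hB0.to_subtype
  have : Nonempty (Fin N) := ⟨⟨0, hN⟩⟩
  have hc : 0 < B.card := hB0.card_pos
  have hlt : ∀ (j : Fin N) (β : B) (c : ℕ), c ≤ 2 → j.val + c * β.val < 3 * N := by
    intro j β c hc
    have h1 := mem_range.1 (hB β.2)
    have h2 := j.2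
    have h3 := Nat.mul_le_mul_right β.val hc
    omega
  have h0 : 0 < 3 * N := by omega
  have key := M.lower_abs hs hr h (rs N B) (4 * N) (by omega) (by simp [rs, str_len])
    (2 ^ N * (3 * N)) (N * B.card) (by positivity) ?_ ?_ ?_ ?_
  · simp only [Fintype.card_prod, Fintype.card_fun, Fintype.card_bool, Fintype.card_fin,
      Fintype.card_coe] at key
    push_cast at key
    have a1 : (0 : ℝ) < N := by exact_mod_cast hN
    have a2 : (0 : ℝ) < B.card := by exact_mod_cast hc
    rw [Real.log_mul (x := 2 ^ N) (by positivity) (by positivity),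
      Real.log_mul (x := 2 ^ N) (by positivity) (by positivity),
      Real.log_mul a1.ne' a2.ne', Real.log_mul (by norm_num) a1.ne'] at key
    rw [Real.log_mul (x := 2 ^ N) (by positivity) (by positivity), Real.log_mul (by norm_num) a1.ne']
    linarith
  · have hT : ((univ : Finset (Fin N → Bool)) ×ˢ range (3 * N)).card = 2 ^ N * (3 * N) := by simp
    rw [← hT]
    simp only [List.mem_cons, List.not_mem_nil, or_false, forall_eq_or_imp, forall_eq]
    refine ⟨?_, ?_, ?_, ?_, ?_⟩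
    · refine img_le _ _ (fun q => [str N q.1 0,
        str N (fun i => if i.val = q.2 then !q.1 i else q.1 i) 0]) ?_
      rintro ⟨t, j, β⟩
      refine ⟨(t, j), by simpa using hlt j β 0 (by norm_num), ?_⟩
      have : flp t j = fun i => if i.val = j.val then !t i else t i := by
        funext i; simp [flp, Fin.ext_iff]
      simp [pr, us, rs, this]
    · refine img_le _ _ (fun q => [str N q.1 0, str N (msk B 1 q.1 q.2) q.2]) ?_
      rintro ⟨t, j, β⟩
      exact ⟨(t, j + 1 * β), by simpa using hlt j β 1 (by norm_num), rfl⟩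
    · refine img_le _ _ (fun q => [str N q.1 0, str N (msk B 1 q.1 q.2) q.2]) ?_
      rintro ⟨t, j, β⟩
      refine ⟨(flp t j, j + 1 * β), by simpa using hlt j β 1 (by norm_num), ?_⟩
      simp only [msk_flp 1 t j β.2]
      rfl
    · refine img_le _ _ (fun q => [str N q.1 0, str N (msk B 2 q.1 q.2) q.2]) ?_
      rintro ⟨t, j, β⟩
      exact ⟨(t, j + 2 * β), by simpa using hlt j β 2 (by norm_num), rfl⟩
    · refine img_le _ _ (fun q => [str N q.1 0, str N (msk B 2 q.1 q.2) q.2]) ?_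
      rintro ⟨t, j, β⟩
      refine ⟨(flp t j, j + 2 * β), by simpa using hlt j β 2 (by norm_num), ?_⟩
      simp only [msk_flp 2 t j β.2]
      rfl
  · have hT : Fintype.card (Fin N × B) = N * B.card := by simp
    rw [← hT]
    simp only [List.mem_cons, List.not_mem_nil, or_false, forall_eq_or_imp, forall_eq]
    refine ⟨fib_le _ Prod.snd ?_, fib_le _ Prod.snd ?_⟩
    · rintro ⟨t, q⟩ ⟨t', q'⟩ e (rfl : q = q')
      have e' : [str N t 0] = [str N t' 0] := e
      rw [(str_inj (List.head_eq_of_cons_eq e') h0).1]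
    · rintro ⟨t, q⟩ ⟨t', q'⟩ e (rfl : q = q')
      have e' : [str N (flp t q.1) 0] = [str N (flp t' q.1) 0] := e
      rw [flp_inj' (str_inj (List.head_eq_of_cons_eq e') h0).1]
  · have aux : ∀ (c : ℕ), 1 ≤ c → c ≤ 2 → ∀ (t t' : Fin N → Bool) (j j' : Fin N) (β β' : B),
        [str N t 0, str N (flp t j) 0, str N (msk B c t (j + c * β)) (j + c * β)] =
        [str N t' 0, str N (flp t' j') 0, str N (msk B c t' (j' + c * β')) (j' + c * β')] →
        (t, j, β) = (t', j', β') := by
      intro c c1 c2 t t' j j' β β' e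
      simp only [List.cons.injEq, and_true] at e
      obtain rfl := (str_inj e.1 h0).1
      obtain rfl := flp_inj (str_inj e.2.1 h0).1
      have := (str_inj e.2.2 (hlt j β c c2)).2
      have h2 : β.val = β'.val := Nat.eq_of_mul_eq_mul_left c1 (by omega)
      rw [Subtype.ext h2]
    simp only [List.mem_cons, List.not_mem_nil, or_false, forall_eq_or_imp, forall_eq]
    refine ⟨fib_le _ (fun _ => ()) ?_, fib_le _ (fun _ => ()) ?_⟩
    · rintro ⟨t, j, β⟩ ⟨t', j', β'⟩ e _
      exact aux 1 le_rfl (by norm_num) _ _ _ _ _ _ e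
    · rintro ⟨t, j, β⟩ ⟨t', j', β'⟩ e _
      exact aux 2 (by norm_num) le_rfl _ _ _ _ _ _ e
  · rw [← Fintype.card_bool]
    refine fib_le _ (fun x : (Fin N → Bool) × Fin N × B => x.1 x.2.1) ?_
    rintro ⟨t, j, β⟩ ⟨t', j', β'⟩ e e2
    have e' : [str N (msk B 1 t (j + 1 * β)) (j + 1 * β), str N (msk B 2 t (j + 2 * β)) (j + 2 * β)]
        = [str N (msk B 1 t' (j' + 1 * β')) (j' + 1 * β'),
          str N (msk B 2 t' (j' + 2 * β')) (j' + 2 * β')] := e
    simp only [List.cons.injEq, and_true] at e'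
    obtain ⟨a1, a2⟩ := str_inj e'.1 (hlt j β 1 (by norm_num))
    obtain ⟨a3, a4⟩ := str_inj e'.2 (hlt j β 2 (by norm_num))
    obtain rfl : β = β' := Subtype.ext (by omega)
    obtain rfl : j = j' := Fin.ext (by omega)
    have : t = t' := by
      funext i
      by_cases hij : i = j
      · rw [hij]; exact e2
      by_cases c1 : ∃ γ ∈ B, i.val + 1 * γ = j + 1 * β
      · have c2 : ¬ ∃ γ ∈ B, i.val + 2 * γ = j + 2 * β := by
          rintro ⟨γ', hγ', e2⟩
          obtain ⟨γ, hγ, e1⟩ := c1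
          have := hAP (mem_coe.2 β.2) (mem_coe.2 hγ') (mem_coe.2 hγ) (by omega)
          exact hij (Fin.ext (by omega))
        have := congrFun a3 i
        simpa only [msk, if_neg c2] using this
      · have := congrFun a1 i
        simpa only [msk, if_neg c1] using this
    rw [this]

/-- Essential conditionality. -/
theorem Mach.essential (M : Mach K run) (R : ℝ) (hR : 0 ≤ R) : ∃ s0 : ℝ, 0 < s0 ∧
    ∀ s, 0 ≤ s → s < s0 → ∀ C : ℝ, ¬ ∀ n : ℕ, 2 ≤ n → ∀ a b c d : Str, a.length ≤ n →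
      b.length ≤ n → c.length ≤ n → d.length ≤ n →
      VK K a b c d ≤ s * ZK K a b c + R * (XK K a b c + XK K a b d) + C * Real.log n := by
  set A : ℝ := 12 + 16 * R + (1 + Real.log 2 + 5 * Real.log 3 + 8 * R * Real.log 3) + 1 with hA
  have l2 : 0 < Real.log 2 := Real.log_pos (by norm_num)
  have l3 : 0 < Real.log 3 := Real.log_pos (by norm_num)
  have hev : ∀ᶠ N : ℕ in Filter.atTop, A ≤ √(Real.log N) :=
    (Real.tendsto_sqrt_atTop.comp (Real.tendsto_log_atTop.comp
      tendsto_natCast_atTop_atTop)).eventually_ge_atTop A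
  obtain ⟨N, hN, hN1⟩ := (hev.and (Filter.eventually_ge_atTop 1)).exists
  obtain ⟨B, hB, hcard, hAP⟩ := rothNumberNat_spec N
  have hbeh := Behrend.roth_lower_bound (N := N)
  rw [← hcard] at hbeh
  have a1 : (0 : ℝ) < N := by exact_mod_cast hN1
  have hpos : (0 : ℝ) < N * Real.exp (-4 * √(Real.log N)) := by positivity
  have hB0 : B.Nonempty := card_pos.1 (by exact_mod_cast hpos.trans_le hbeh)
  have hlog := Real.log_le_log hpos hbeh
  rw [Real.log_mul a1.ne' (Real.exp_pos _).ne', Real.log_exp] at hlog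
  have hW : 0 < Real.log (2 ^ N * (3 * N)) := by
    refine Real.log_pos ?_
    have b1 : (1 : ℝ) ≤ 2 ^ N := one_le_pow₀ (by norm_num)
    have b2 : (1 : ℝ) ≤ N := by exact_mod_cast hN1
    nlinarith
  refine ⟨1 / (2 * Real.log (2 ^ N * (3 * N))), by positivity, fun s hs hs0 C h => ?_⟩
  have key := M.lower_rs hs hR h N hN1 B hB hB0 hAP
  rw [lt_div_iff₀ (by positivity)] at hs0
  set u := √(Real.log N) with hu
  have hsq : u * u = Real.log N := Real.mul_self_sqrt (Real.log_natCast_nonneg N)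
  have c0 : 0 ≤ 1 + Real.log 2 + 5 * Real.log 3 + 8 * R * Real.log 3 := by positivity
  have u1 : 1 ≤ u := by linarith
  have m1 := mul_le_mul_of_nonneg_left hlog hR
  have m2 := mul_le_mul_of_nonneg_right hN (show 0 ≤ u by linarith)
  have m3 := mul_le_mul_of_nonneg_left u1 c0
  rw [hA] at m2
  nlinarith

end Pool.Agent.Lib.MP_b69f85_lc
end

-- part Pool.Agent.Lib.MP_b69f85_lc.Main
section

namespace Pool.Agent.Lib.MP_b69f85_lc

open Polynomial Filter Encodable

theorem exists_optimal : ∃ U, Optimal U := by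
  let ee : Str → ℕ := fun p => p.findIdx (fun b => !b)
  have hee : Primrec ee := Primrec.list_findIdx Primrec.id (Primrec.not.comp Primrec.snd).to₂
  let U : Str →. Str := fun p => (Nat.Partrec.Code.eval (Denumerable.ofNat _ (ee p))
    (encode (p.drop (ee p + 1)))).bind fun n => (decode (α := Str) n : Part Str)
  refine ⟨U, ?_, fun V hV => ?_⟩
  · refine Partrec.bind (Nat.Partrec.Code.eval_part.comp ?_ ?_) ?_
    · exact (Computable.ofNat _).comp hee.to_comp
    · exact (Primrec.encode.comp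
        (Primrec.list_drop.comp (Primrec.succ.comp hee) Primrec.id)).to_comp
    · exact (Computable.ofOption (Computable.decode.comp Computable.snd)).to₂
  · obtain ⟨c, hc⟩ := Nat.Partrec.Code.exists_code.1 hV
    refine ⟨encode c + 1, fun p x hx => ⟨List.replicate (encode c) true ++ false :: p, ?_, ?_⟩⟩
    · have h1 : ∀ e, ee (List.replicate e true ++ false :: p) = e := by
        intro e
        simp only [ee]
        induction e with
        | zero => simp [List.findIdx_cons]
        | succ e ih => simp only [List.replicate_succ, List.cons_append, List.findIdx_cons]; simpa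
      simp only [U, h1, Denumerable.ofNat_encode, hc]
      rw [List.drop_append]
      simp only [Part.mem_bind_iff]
      exact ⟨encode x, ⟨p, by simp, Part.mem_map _ hx⟩, by simp⟩
    · simp; omega

def us4 : Fin 11 → List (Fin 4) :=
  ![[0], [1], [2], [0, 1], [0, 2], [1, 2], [0, 1, 2], [0, 3], [1, 3], [0, 1, 3], [2, 3]]

def uu {k : ℕ} (hk : 4 ≤ k) (i : Fin 11) : {u : Finset (Fin k) // u.Nonempty} :=
  ⟨((us4 i).map (Fin.castLE hk)).toFinset, by
    rw [List.toFinset_nonempty_iff, ne_eq, List.map_eq_nil_iff]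
    revert i; decide⟩

theorem tup_uu {k : ℕ} (hk : 4 ≤ k) (i : Fin 11) (A : Fin k → Str) :
    tup A (uu hk i).1 = (us4 i).map fun j => A (Fin.castLE hk j) := by
  have h1 : (us4 i).Pairwise (· < ·) := by revert i; decide
  have h2 : ((us4 i).map (Fin.castLE hk)).Pairwise (· < ·) :=
    List.pairwise_map.2 (h1.imp fun h => h)
  unfold tup uu
  rw [(List.toFinset_sort (· ≤ ·) (h2.imp ne_of_lt)).2 (h2.imp le_of_lt), List.map_map]
  rfl

def cv : Fin 11 → ℝ := ![-1, -1, 0, 1, 1, 1, -1, 1, 1, -1, -1]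
def cz : Fin 11 → ℝ := ![0, 0, -1, 0, 1, 1, -1, 0, 0, 0, 0]
def cb : Fin 11 → ℝ := ![-2, -2, 0, 4, 1, 1, -2, 1, 1, -2, 0]

noncomputable def sec {k : ℕ} (hk : 4 ≤ k) (u : {u : Finset (Fin k) // u.Nonempty}) : ℝ[X][X] :=
  ∑ i : Fin 11, if u = uu hk i then C (C (cv i) + C (cb i) * X) + C (C (cz i)) * X else 0

theorem sec_sum {k : ℕ} (hk : 4 ≤ k) (K : LS → ℕ) (A : Fin k → Str) (ρ s : ℝ) :
    ∑ u, (sec hk u).evalEval ρ s * (K (tup A u.1) : ℝ) =
      s * ZK K (A (Fin.castLE hk 0)) (A (Fin.castLE hk 1)) (A (Fin.castLE hk 2)) +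
      ρ * (XK K (A (Fin.castLE hk 0)) (A (Fin.castLE hk 1)) (A (Fin.castLE hk 2)) +
        XK K (A (Fin.castLE hk 0)) (A (Fin.castLE hk 1)) (A (Fin.castLE hk 3))) -
      VK K (A (Fin.castLE hk 0)) (A (Fin.castLE hk 1)) (A (Fin.castLE hk 2))
        (A (Fin.castLE hk 3)) := by
  have h1 : ∀ u, (sec hk u).evalEval ρ s * (K (tup A u.1) : ℝ) =
      ∑ i : Fin 11, if u = uu hk i then (cv i + cb i * ρ + cz i * s) * (K (tup A u.1) : ℝ)
        else 0 := by
    intro u
    rw [sec, evalEval_finsetSum, Finset.sum_mul]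
    refine Finset.sum_congr rfl fun i _ => ?_
    split_ifs
    · rw [evalEval_add, evalEval_mul, evalEval_X, evalEval_C, evalEval_C]
      simp
    · simp
  simp only [h1]
  rw [Finset.sum_comm]
  simp only [Finset.sum_ite_eq', Finset.mem_univ, if_true, tup_uu]
  simp only [Fin.sum_univ_succ, Fin.sum_univ_zero, cv, cz, cb, us4, Matrix.cons_val_zero,
    Matrix.cons_val_succ, List.map_cons, List.map_nil, ZK, XK, VK]
  ring

theorem not_semiAlg_cone {U : Str →. Str} (hU : Optimal U) {enc : List Str → Str}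
    (he : Computable enc) (hi : Function.Injective enc) {k : ℕ} (hk : 4 ≤ k) :
    ¬ SemiAlg (cone U enc k) := by
  obtain ⟨run, M⟩ := exists_mach hU he hi
  refine not_semiAlg (sec hk) (fun j hj => ?_) (fun R hR => ?_)
  · have h2 : (2 : ℝ) ≤ 2 ^ j := by
      calc (2 : ℝ) = 2 ^ 1 := by norm_num
        _ ≤ 2 ^ j := pow_le_pow_right₀ (by norm_num) hj
    have h3 : (0 : ℝ) < 2 ^ j - 1 := by linarith
    have h4 : (0 : ℝ) ≤ j := Nat.cast_nonneg j
    refine ⟨(j + 1) * 2 ^ j / (2 ^ j - 1), ?_, ?_, ?_⟩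
    · rw [le_div_iff₀ h3]; nlinarith
    · rw [div_le_iff₀ h3]; nlinarith
    obtain ⟨C, hC⟩ := M.upper j
    refine ⟨C / (2 ^ j - 1), fun n hn A hA => ?_⟩
    have := hC n hn _ _ _ _ (hA (Fin.castLE hk 0)) (hA (Fin.castLE hk 1)) (hA (Fin.castLE hk 2))
      (hA (Fin.castLE hk 3))
    rw [sec_sum hk (fun y => KC U (enc y)) A]
    refine le_of_mul_le_mul_left ?_ h3
    field_simp
    linarith
  · obtain ⟨s0, hs0, h⟩ := M.essential R hR
    have hlim : Tendsto (fun j : ℕ => (2 : ℝ) ^ j) atTop atTop :=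
      tendsto_pow_atTop_atTop_of_one_lt (by norm_num)
    filter_upwards [hlim.eventually_gt_atTop (1 / s0 + 1)] with j hj
    have h0 : 0 < 1 / s0 := by positivity
    have h3 : (0 : ℝ) < 2 ^ j - 1 := by linarith
    rintro ⟨C, hC⟩
    refine h (1 / (2 ^ j - 1)) (by positivity) ?_ C fun n hn a b c d ha hb hc hd => ?_
    · rw [one_div_lt h3 hs0]; linarith
    have := hC n hn (fun i => [a, b, c, d].getD i []) (by
      intro i
      rcases i with ⟨_ | _ | _ | _ | i, _⟩ <;> simp [*])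
    rw [sec_sum hk (fun y => KC U (enc y))] at this
    change _ ≤ _ * ZK _ a b c + _ * (XK _ a b c + XK _ a b d) - VK _ a b c d at this
    linarith

end Pool.Agent.Lib.MP_b69f85_lc
end
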