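import Pool.Agent.Lib.MP_b69f85_lc.Semi

-- part Pool.Agent.Lib.MP_b69f85_lc.AK
section

namespace Pool.Agent.Lib.MP_b69f85_lc

open Finset
open scoped Classical

section Hash
variable {Ω : Type} [Fintype Ω]

theorem count_eq {Q : Type} [Fintype Q] [DecidableEq Q] (R : ℕ) {q1 q2 : Q} (h : q1 ≠ q2) :
    (univ.filter fun g : Q → Fin R => g q1 = g q2).card * R ≤ Fintype.card (Q → Fin R) := by
  have := card_le_card_of_injOn (s := (univ.filter fun g : Q → Fin R => g q1 = g q2) ×ˢ univ)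
    (t := univ) (fun z : (Q → Fin R) × Fin R => Function.update z.1 q1 z.2)
    (fun _ _ => mem_coe.2 (mem_univ _)) (by
      rintro ⟨g, a⟩ hg ⟨g', a'⟩ hg' e
      simp only [coe_product, Set.mem_prod, mem_coe, mem_filter, mem_univ, true_and,
        and_true] at hg hg'
      have e1 : a = a' := by simpa using congrFun e q1
      have e2 : ∀ q, q ≠ q1 → g q = g' q := fun q hq => by
        simpa [Function.update_of_ne hq] using congrFun e q
      refine Prod.ext (funext fun q => ?_) e1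
      by_cases hq : q = q1
      · rw [hq]; exact hg.trans ((e2 q2 h.symm).trans hg'.symm)
      · exact e2 q hq)
  simpa using this

theorem exists_hash {p : Ω → ℝ} (hp : ∀ x, 0 ≤ p x) (Y W : Eqv Ω) (R : ℕ) (hR : 0 < R) :
    ∃ f : Ω → Fin R, (∀ x y, W x y → f x = f y) ∧ H p (Y ⊓ W) - H p (Y ⊓ Eqv.ker f) ≤
      ∑ ω, p ω * Real.log (1 + mass p Y ω / (R * mass p (Y ⊓ W) ω)) := by
  let s : Setoid Ω := ⟨W.r, W.iseqv⟩
  let Q := Quotient s
  let mk : Ω → Q := Quotient.mk s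
  have hmk : ∀ x y, mk x = mk y ↔ W x y := fun x y => Quotient.eq
  have : Nonempty (Fin R) := ⟨⟨0, hR⟩⟩
  set N : ℝ := ((Fintype.card (Q → Fin R) : ℕ) : ℝ) with hN
  have hN0 : 0 < N := by rw [hN]; exact_mod_cast Fintype.card_pos
  have hR0 : (0 : ℝ) < R := by exact_mod_cast hR
  have avg : ∀ ω, ∑ g : Q → Fin R, mass p (Y ⊓ Eqv.ker (g ∘ mk)) ω ≤
      N * (mass p (Y ⊓ W) ω + mass p Y ω / R) := by
    intro ω
    unfold mass
    rw [sum_comm, sum_div, ← sum_add_distrib, mul_sum]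
    refine sum_le_sum fun x _ => ?_
    by_cases hY : Y ω x
    · by_cases hW : W ω x
      · rw [if_pos (show (Y ⊓ W) ω x from ⟨hY, hW⟩), if_pos hY]
        refine le_trans (sum_le_card_nsmul _ _ (p x) fun g _ => ?_) ?_
        · split_ifs; exacts [le_rfl, hp x]
        · rw [nsmul_eq_mul, card_univ, ← hN]
          have := div_nonneg (hp x) hR0.le
          nlinarith
      · rw [if_neg (show ¬ (Y ⊓ W) ω x from fun h => hW h.2), if_pos hY, zero_add]
        have h1 := count_eq R (fun h => hW ((hmk ω x).1 h))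
        have h2 : ((univ.filter fun g : Q → Fin R => g (mk ω) = g (mk x)).card : ℝ) * R ≤ N := by
          rw [hN]; exact_mod_cast h1
        have h3 : ∑ g : Q → Fin R, (if (Y ⊓ Eqv.ker (g ∘ mk)) ω x then p x else 0) =
            (univ.filter fun g : Q → Fin R => g (mk ω) = g (mk x)).card * p x := by
          rw [← nsmul_eq_mul, ← sum_const, sum_filter]
          refine sum_congr rfl fun g _ => ?_
          have : (Y ⊓ Eqv.ker (g ∘ mk)) ω x ↔ g (mk ω) = g (mk x) := ⟨fun h => h.2, fun h => ⟨hY, h⟩⟩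
          simp only [this]
        rw [h3, ← mul_div_assoc, le_div_iff₀ hR0]
        have := mul_le_mul_of_nonneg_right h2 (hp x)
        linarith
    · have e1 : ∀ g : Q → Fin R, ¬ (Y ⊓ Eqv.ker (g ∘ mk)) ω x := fun g h => hY h.1
      have e2 : ¬ (Y ⊓ W) ω x := fun h => hY h.1
      simp [e1, e2, hY]
  have pt : ∀ ω, ∑ g : Q → Fin R, (p ω * -Real.log (mass p (Y ⊓ W) ω) -
      p ω * -Real.log (mass p (Y ⊓ Eqv.ker (g ∘ mk)) ω)) ≤
      ∑ _g : Q → Fin R, p ω * Real.log (1 + mass p Y ω / (R * mass p (Y ⊓ W) ω)) := by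
    intro ω
    rcases (hp ω).eq_or_lt with h | h
    · simp [← h]
    have a1 := h.trans_le (le_mass hp (Y ⊓ W) ω)
    have a2 := mass_nonneg hp Y ω
    set m0 := mass p (Y ⊓ W) ω
    set t := m0 + mass p Y ω / R with ht
    have t0 : 0 < t := by positivity
    have e : Real.log (1 + mass p Y ω / (R * m0)) = Real.log t - Real.log m0 := by
      rw [← Real.log_div t0.ne' a1.ne', ht]; congr 1; field_simp
    have b : ∀ g : Q → Fin R, p ω * -Real.log m0 -
        p ω * -Real.log (mass p (Y ⊓ Eqv.ker (g ∘ mk)) ω) ≤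
        p ω * (Real.log t - Real.log m0) + p ω / t * mass p (Y ⊓ Eqv.ker (g ∘ mk)) ω - p ω := by
      intro g
      have a3 := h.trans_le (le_mass hp (Y ⊓ Eqv.ker (g ∘ mk)) ω)
      have := Real.log_le_sub_one_of_pos (div_pos a3 t0)
      rw [Real.log_div a3.ne' t0.ne'] at this
      have := mul_le_mul_of_nonneg_left this h.le
      have e2 : p ω / t * mass p (Y ⊓ Eqv.ker (g ∘ mk)) ω =
        p ω * (mass p (Y ⊓ Eqv.ker (g ∘ mk)) ω / t) := by ring
      linarith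
    refine (sum_le_sum fun g _ => b g).trans ?_
    rw [sum_sub_distrib, sum_add_distrib, ← mul_sum univ _ (p ω / t), e]
    simp only [sum_const, card_univ, nsmul_eq_mul, ← hN]
    have : _ ≤ p ω / t * (N * t) := mul_le_mul_of_nonneg_left (avg ω) (div_pos h t0).le
    have e3 : p ω / t * (N * t) = N * p ω := by field_simp
    linarith
  have tot := sum_le_sum fun ω (_ : ω ∈ univ) => pt ω
  rw [sum_comm, sum_comm (s := univ) (t := univ)
    (f := fun ω _ => p ω * Real.log (1 + mass p Y ω / (R * mass p (Y ⊓ W) ω)))] at tot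
  obtain ⟨g, _, hg⟩ := exists_le_of_sum_le univ_nonempty tot
  refine ⟨g ∘ mk, fun x y h => congrArg g ((hmk x y).2 h), ?_⟩
  rw [sum_sub_distrib] at hg
  exact hg

/-- Variance of the information density. -/
noncomputable def Var (p : Ω → ℝ) (Y Z : Eqv Ω) : ℝ :=
  ∑ ω, p ω * (Real.log (mass p Y ω) - Real.log (mass p Z ω) - (H p Z - H p Y)) ^ 2

theorem hash_bound {p : Ω → ℝ} (hp : ∀ x, 0 ≤ p x) (h1 : ∑ x, p x = 1) (Y Z : Eqv Ω) {R σ : ℝ}
    (hR : Real.exp (H p Z - H p Y) ≤ R) (hσ : 0 < σ) :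
    ∑ ω, p ω * Real.log (1 + mass p Y ω / (R * mass p Z ω)) ≤ Real.log 2 + Var p Y Z / σ + σ := by
  have pt : ∀ ω, p ω * Real.log (1 + mass p Y ω / (R * mass p Z ω)) ≤ p ω * (Real.log 2 + σ) +
      p ω * (Real.log (mass p Y ω) - Real.log (mass p Z ω) - (H p Z - H p Y)) ^ 2 / σ := by
    intro ω
    rcases (hp ω).eq_or_lt with h | h
    · simp [← h]
    have a1 := h.trans_le (le_mass hp Y ω)
    have a2 := h.trans_le (le_mass hp Z ω)
    set v := Real.log (mass p Y ω) - Real.log (mass p Z ω) - (H p Z - H p Y) with hv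
    have hR0 : 0 < R := (Real.exp_pos _).trans_le hR
    have e1 : mass p Y ω / (R * mass p Z ω) ≤ Real.exp v := by
      rw [hv, Real.exp_sub, Real.exp_sub, Real.exp_log a1, Real.exp_log a2, div_div,
        mul_comm (mass p Z ω)]
      exact div_le_div_of_nonneg_left a1.le (by positivity)
        (mul_le_mul_of_nonneg_right hR a2.le)
    have e2 : 1 + mass p Y ω / (R * mass p Z ω) ≤ 2 * Real.exp |v| := by
      have := Real.one_le_exp (abs_nonneg v)
      have := Real.exp_le_exp.2 (le_abs_self v)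
      linarith
    have e3 := Real.log_le_log (by positivity) e2
    rw [Real.log_mul (by norm_num) (Real.exp_pos _).ne', Real.log_exp] at e3
    have e4 : |v| ≤ σ + v ^ 2 / σ := by
      rw [← sq_abs v, add_div' _ _ _ hσ.ne', le_div_iff₀ hσ]
      nlinarith [sq_nonneg (|v| - σ), abs_nonneg v]
    have := mul_le_mul_of_nonneg_left (e3.trans (add_le_add le_rfl e4)) h.le
    rw [mul_div_assoc]
    linarith
  refine (sum_le_sum fun ω _ => pt ω).trans (le_of_eq ?_)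
  rw [sum_add_distrib, ← sum_mul, ← sum_div, h1, Var]
  ring

def Eqv.prod {α β : Type} (r : Eqv α) (s : Eqv β) : Eqv (α × β) :=
  r.comap Prod.fst ⊓ s.comap Prod.snd

theorem mass_prod (p : Ω → ℝ) (r : Eqv Ω) (w : Ω × Ω) :
    mass (fun w : Ω × Ω => p w.1 * p w.2) (r.prod r) w = mass p r w.1 * mass p r w.2 := by
  unfold mass
  rw [sum_mul_sum, Fintype.sum_prod_type]
  refine sum_congr rfl fun x _ => sum_congr rfl fun y _ => ?_
  have : (r.prod r) w (x, y) ↔ r w.1 x ∧ r w.2 y := Iff.rfl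
  by_cases a : r w.1 x <;> by_cases b : r w.2 y <;> simp [this, a, b]

theorem log_mass_prod {p : Ω → ℝ} (hp : ∀ x, 0 ≤ p x) (r : Eqv Ω) {x y : Ω} (h : p x * p y ≠ 0) :
    Real.log (mass (fun w : Ω × Ω => p w.1 * p w.2) (r.prod r) (x, y)) =
      Real.log (mass p r x) + Real.log (mass p r y) := by
  rw [mul_ne_zero_iff] at h
  rw [mass_prod, Real.log_mul ((lt_of_le_of_ne (hp x) h.1.symm).trans_le (le_mass hp r x)).ne'
    ((lt_of_le_of_ne (hp y) h.2.symm).trans_le (le_mass hp r y)).ne']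

theorem H_prod {p : Ω → ℝ} (hp : ∀ x, 0 ≤ p x) (h1 : ∑ x, p x = 1) (r : Eqv Ω) :
    H (fun w : Ω × Ω => p w.1 * p w.2) (r.prod r) = 2 * H p r := by
  unfold H
  rw [Fintype.sum_prod_type]
  have : ∀ x y, p x * p y * -Real.log (mass (fun w : Ω × Ω => p w.1 * p w.2) (r.prod r) (x, y)) =
      p x * -Real.log (mass p r x) * p y + p x * (p y * -Real.log (mass p r y)) := by
    intro x y
    by_cases h : p x * p y = 0
    · rcases mul_eq_zero.1 h with h | h <;> simp [h]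
    · rw [log_mass_prod hp r h]; ring
  simp only [this, sum_add_distrib, ← mul_sum, ← sum_mul, h1]
  ring

theorem Var_prod {p : Ω → ℝ} (hp : ∀ x, 0 ≤ p x) (h1 : ∑ x, p x = 1) (Y Z : Eqv Ω) :
    Var (fun w : Ω × Ω => p w.1 * p w.2) (Y.prod Y) (Z.prod Z) = 2 * Var p Y Z := by
  unfold Var
  rw [H_prod hp h1, H_prod hp h1, Fintype.sum_prod_type]
  set v : Ω → ℝ := fun ω => Real.log (mass p Y ω) - Real.log (mass p Z ω) - (H p Z - H p Y)
  have h0 : ∑ ω, p ω * v ω = 0 := by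
    have : ∀ ω, p ω * v ω = p ω * -Real.log (mass p Z ω) - p ω * -Real.log (mass p Y ω) -
      p ω * (H p Z - H p Y) := fun ω => by simp only [v]; ring
    simp only [this, sum_sub_distrib, ← sum_mul, h1]
    unfold H; ring
  have : ∀ x y, p x * p y *
      (Real.log (mass (fun w : Ω × Ω => p w.1 * p w.2) (Y.prod Y) (x, y)) -
        Real.log (mass (fun w : Ω × Ω => p w.1 * p w.2) (Z.prod Z) (x, y)) -
        (2 * H p Z - 2 * H p Y)) ^ 2 =
      p x * v x ^ 2 * p y + p x * (p y * v y ^ 2) + 2 * (p x * v x) * (p y * v y) := by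
    intro x y
    by_cases h : p x * p y = 0
    · rcases mul_eq_zero.1 h with h | h <;> simp [h]
    · rw [log_mass_prod hp Y h, log_mass_prod hp Z h]; simp only [v]; ring
  simp only [this, sum_add_distrib, ← mul_sum, ← sum_mul, h1, h0]
  ring

theorem Var_congr (p : Ω → ℝ) {Y Y' Z Z' : Eqv Ω} (h : ∀ x y, Y x y ↔ Y' x y)
    (h' : ∀ x y, Z x y ↔ Z' x y) : Var p Y Z = Var p Y' Z' := by
  have e1 : Y = Y' := by
    cases Y; cases Y'; congr; funext x y; exact propext (h x y)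
  have e2 : Z = Z' := by
    cases Z; cases Z'; congr; funext x y; exact propext (h' x y)
  rw [e1, e2]

end Hash

/-- A finite system of random variables, conditioned on `u`. -/
structure Sys where
  Ω : Type
  [fin : Fintype Ω]
  p : Ω → ℝ
  hp : ∀ x, 0 ≤ p x
  h1 : ∑ x, p x = 1
  x : ℕ → Eqv Ω
  u : Eqv Ω

attribute [instance] Sys.fin

namespace Sys

def J (σ : Sys) (S : Finset ℕ) : Eqv σ.Ω :=
  ⟨fun a b => σ.u a b ∧ ∀ i ∈ S, σ.x i a b, fun a => ⟨σ.u.refl' a, fun i _ => (σ.x i).refl' a⟩,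
    fun h => ⟨σ.u.symm' h.1, fun i hi => (σ.x i).symm' (h.2 i hi)⟩,
    fun h h' => ⟨σ.u.trans' h.1 h'.1, fun i hi => (σ.x i).trans' (h.2 i hi) (h'.2 i hi)⟩⟩

noncomputable def rk (σ : Sys) (S : Finset ℕ) : ℝ := H σ.p (σ.J S) - H σ.p (σ.J ∅)

theorem J_mono (σ : Sys) {S T : Finset ℕ} (h : S ⊆ T) (a b : σ.Ω) (hab : σ.J T a b) : σ.J S a b :=
  ⟨hab.1, fun i hi => hab.2 i (h hi)⟩

theorem J_union (σ : Sys) (S T : Finset ℕ) (a b : σ.Ω) :
    σ.J (S ∪ T) a b ↔ σ.J S a b ∧ σ.J T a b :=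
  ⟨fun h => ⟨σ.J_mono subset_union_left _ _ h, σ.J_mono subset_union_right _ _ h⟩,
    fun h => ⟨h.1.1, fun i hi => (mem_union.1 hi).elim (h.1.2 i) (h.2.2 i)⟩⟩

theorem rk_sub (σ : Sys) {S T V : Finset ℕ} (h1 : V ⊆ S) (h2 : V ⊆ T) :
    σ.rk (S ∪ T) + σ.rk V ≤ σ.rk S + σ.rk T := by
  have := submod σ.hp σ.h1 (σ.J S) (σ.J T) (σ.J (S ∪ T)) (σ.J V)
    (fun a b h h' => (σ.J_union S T a b).2 ⟨h, h'⟩) (σ.J_mono h1) (σ.J_mono h2)
  unfold rk; linarith

theorem rk_empty (σ : Sys) : σ.rk ∅ = 0 := sub_self _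

noncomputable def sq (σ : Sys) : Sys where
  Ω := σ.Ω × σ.Ω
  p := fun w => σ.p w.1 * σ.p w.2
  hp := fun w => mul_nonneg (σ.hp _) (σ.hp _)
  h1 := by rw [Fintype.sum_prod_type, ← sum_mul_sum, σ.h1, one_mul]
  x := fun i => (σ.x i).prod (σ.x i)
  u := σ.u.prod σ.u

theorem sq_J (σ : Sys) (S : Finset ℕ) (a b : σ.Ω × σ.Ω) :
    σ.sq.J S a b ↔ ((σ.J S).prod (σ.J S)) a b :=
  ⟨fun h => ⟨⟨h.1.1, fun i hi => (h.2 i hi).1⟩, ⟨h.1.2, fun i hi => (h.2 i hi).2⟩⟩,
    fun h => ⟨⟨h.1.1, h.2.1⟩, fun i hi => ⟨h.1.2 i hi, h.2.2 i hi⟩⟩⟩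

theorem exists_pow (σ : Sys) (j : ℕ) : ∃ τ : Sys, (∀ S, τ.rk S = 2 ^ j * σ.rk S) ∧
    ∀ S T, Var τ.p (τ.J S) (τ.J T) = 2 ^ j * Var σ.p (σ.J S) (σ.J T) := by
  induction j with
  | zero => exact ⟨σ, by simp, by simp⟩
  | succ j ih =>
    obtain ⟨τ, h1, h2⟩ := ih
    refine ⟨τ.sq, fun S => ?_, fun S T => ?_⟩
    · have e : ∀ S, H τ.sq.p (τ.sq.J S) = 2 * H τ.p (τ.J S) := fun S =>
        (H_congr _ _ _ (τ.sq_J S)).trans (H_prod τ.hp τ.h1 _)
      have := h1 S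
      unfold rk at *
      rw [e, e, pow_succ]; linarith
    · rw [pow_succ, mul_comm _ (2 : ℝ), mul_assoc, ← h2]
      exact (Var_congr _ (τ.sq_J S) (τ.sq_J T)).trans (Var_prod τ.hp τ.h1 _ _)

theorem exists_copy (σ : Sys) (n : ℕ) (y c : Finset ℕ) (hy : y ⊆ range n) : ∃ τ : Sys,
    (∀ S ⊆ range n, τ.rk S = σ.rk S) ∧ (∀ T ⊆ y, τ.rk (T ∪ {n}) = σ.rk (T ∪ c)) ∧
    τ.rk (range n ∪ {n}) = σ.rk (range n) + σ.rk (y ∪ c) - σ.rk y := by
  let τ : Sys := ⟨σ.Ω × σ.Ω, cpl σ.p id σ.p (σ.J y), cpl_nonneg σ.hp σ.hp _, by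
      simpa [σ.h1] using (cpl_snd (push_id σ.p) σ.hp (σ.J y)).sum (fun _ => 1),
    fun i => if i = n then (σ.J c).comap Prod.snd else (σ.x i).comap Prod.fst,
    σ.u.comap Prod.fst⟩
  have hJ : ∀ S ⊆ range n, ∀ a b : σ.Ω × σ.Ω, τ.J S a b ↔ σ.J S a.1 b.1 := by
    intro S hS a b
    refine and_congr Iff.rfl (forall₂_congr fun i hi => ?_)
    have : i ≠ n := (mem_range.1 (hS hi)).ne
    simp only [τ, if_neg this]
    rfl
  have hn : ∀ a b : σ.Ω × σ.Ω, τ.J {n} a b ↔ σ.u a.1 b.1 ∧ σ.J c a.2 b.2 := by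
    intro a b
    refine and_congr Iff.rfl ?_
    simp only [τ, mem_singleton, forall_eq, if_true]
    rfl
  have hf := cpl_fst (push_id σ.p) σ.hp σ.hp (σ.J y)
  have hs := cpl_snd (push_id σ.p) σ.hp (σ.J y)
  have e1 : ∀ S ⊆ range n, H τ.p (τ.J S) = H σ.p (σ.J S) := fun S hS =>
    H_push hf _ _ fun a b _ _ => hJ S hS a b
  have sw : ∀ T ⊆ y, ∀ a b : σ.Ω × σ.Ω, τ.p a ≠ 0 → τ.p b ≠ 0 →
      (σ.J T a.1 b.1 ↔ σ.J T a.2 b.2) := by
    intro T hT a b ha hb
    have s1 := σ.J_mono hT _ _ (cpl_supp ha)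
    have s2 := σ.J_mono hT _ _ (cpl_supp hb)
    exact ⟨fun h => (σ.J T).trans' ((σ.J T).symm' s1) ((σ.J T).trans' h s2),
      fun h => (σ.J T).trans' s1 ((σ.J T).trans' h ((σ.J T).symm' s2))⟩
  refine ⟨τ, fun S hS => ?_, fun T hT => ?_, ?_⟩
  · unfold rk; rw [e1 S hS, e1 ∅ (empty_subset _)]
  · unfold rk
    rw [e1 ∅ (empty_subset _), H_push hs (τ.J (T ∪ {n})) (σ.J (T ∪ c))]
    intro a b ha hb
    rw [τ.J_union, σ.J_union, hJ T (hT.trans hy), hn, ← sw T hT a b ha hb]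
    exact ⟨fun h => ⟨h.1, h.2.2⟩, fun h => ⟨h.1, h.1.1, h.2⟩⟩
  · unfold rk
    rw [e1 ∅ (empty_subset _), H_cpl (push_id σ.p) σ.hp σ.hp (σ.J y) (σ.J (range n))
      (σ.J (y ∪ c)) (σ.J_mono hy) (σ.J_mono subset_union_left) (τ.J (range n ∪ {n}))]
    · ring
    intro a b ha hb
    rw [τ.J_union, σ.J_union, hJ _ Subset.rfl, hn, ← sw y Subset.rfl a b ha hb]
    exact ⟨fun h => ⟨h.1, σ.J_mono hy _ _ h.1, h.2.2⟩, fun h => ⟨h.1, h.1.1, h.2.2⟩⟩

theorem exists_cond (σ : Sys) (n : ℕ) (y : Finset ℕ) (hy : y ⊆ range n) {s : ℝ} (hs : 0 < s)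
    (ci : σ.rk (range n ∪ {n}) = σ.rk (range n) + σ.rk (y ∪ {n}) - σ.rk y) : ∃ (τ : Sys) (g : ℝ),
    0 ≤ g ∧ (∀ S, τ.rk (S ∪ {n}) = σ.rk (S ∪ {n}) - g) ∧ (∀ S ⊆ range n, τ.rk S ≤ σ.rk S) ∧
    (∀ S ⊆ range n, σ.rk S + (σ.rk (y ∪ {n}) - σ.rk y) ≤ τ.rk S + g +
      (Real.log 2 + Var σ.p (σ.J y) (σ.J (y ∪ {n})) / s + s)) ∧
    g ≤ σ.rk (y ∪ {n}) - σ.rk y + Real.log 2 := by
  set d := H σ.p (σ.J (y ∪ {n})) - H σ.p (σ.J y) with hd
  have hd0 : 0 ≤ d := by
    have := σ.rk_sub (S := y ∪ {n}) (T := y ∪ {n}) (V := y) subset_union_left subset_union_left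
    rw [union_idempotent] at this
    unfold rk at this; linarith
  have hR : 0 < ⌈Real.exp d⌉₊ := Nat.ceil_pos.2 (Real.exp_pos _)
  obtain ⟨f, hf, hb⟩ := exists_hash σ.hp (σ.J y) (σ.J {n}) _ hR
  have hb2 := hash_bound σ.hp σ.h1 (σ.J y) (σ.J (y ∪ {n})) (Nat.le_ceil (Real.exp d)) hs
  have e0 : σ.J y ⊓ σ.J {n} = σ.J (y ∪ {n}) := by
    have := σ.J_union y {n}
    unfold J at *
    simp only [Min.min]
    congr; funext a b; exact propext (this a b).symm
  rw [e0] at hb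
  let τ : Sys := ⟨σ.Ω, σ.p, σ.hp, σ.h1, σ.x, σ.u ⊓ Eqv.ker f⟩
  have hJ : ∀ S, H τ.p (τ.J S) = H σ.p (σ.J S ⊓ Eqv.ker f) := fun S => H_congr _ _ _ fun a b =>
    ⟨fun h => ⟨⟨h.1.1, h.2⟩, h.1.2⟩, fun h => ⟨⟨h.1.1, h.2⟩, h.1.2⟩⟩
  have S4 := submod σ.hp σ.h1
  have hn : ∀ S, H σ.p (σ.J (S ∪ {n}) ⊓ Eqv.ker f) = H σ.p (σ.J (S ∪ {n})) := fun S =>
    H_congr _ _ _ fun a b => ⟨fun h => h.1,
      fun h => ⟨h, hf a b (σ.J_mono subset_union_right _ _ h)⟩⟩
  refine ⟨τ, H σ.p (σ.J ∅ ⊓ Eqv.ker f) - H σ.p (σ.J ∅), ?_, fun S => ?_, fun S hS => ?_,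
    fun S hS => ?_, ?_⟩
  · have := S4 (σ.J ∅ ⊓ Eqv.ker f) (σ.J ∅ ⊓ Eqv.ker f) (σ.J ∅ ⊓ Eqv.ker f) (σ.J ∅)
      (fun _ _ h _ => h) (fun _ _ h => h.1) (fun _ _ h => h.1)
    linarith
  · unfold rk; rw [hJ, hJ, hn]; ring
  · have := S4 (σ.J S) (σ.J ∅ ⊓ Eqv.ker f) (σ.J S ⊓ Eqv.ker f) (σ.J ∅)
      (fun _ _ h h' => ⟨h, h'.2⟩) (σ.J_mono (empty_subset _)) (fun _ _ h => h.1)
    unfold rk; rw [hJ, hJ]; linarith
  · have t1 := S4 (σ.J (range n)) (σ.J S ⊓ Eqv.ker f) (σ.J (range n) ⊓ Eqv.ker f) (σ.J S)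
      (fun _ _ h h' => ⟨h, h'.2⟩) (σ.J_mono hS) (fun _ _ h => h.1)
    have t2 := S4 (σ.J (range n) ⊓ Eqv.ker f) (σ.J (y ∪ {n})) (σ.J (range n ∪ {n}))
      (σ.J y ⊓ Eqv.ker f)
      (fun a b h h' => (σ.J_union _ _ a b).2 ⟨h.1, σ.J_mono subset_union_right _ _ h'⟩)
      (fun a b h => ⟨σ.J_mono hy _ _ h.1, h.2⟩)
      (fun a b h => ⟨σ.J_mono subset_union_left _ _ h, hf a b (σ.J_mono subset_union_right _ _ h)⟩)
    unfold rk at *; rw [hJ, hJ]; linarith
  · have t0 : H σ.p (Eqv.ker fun _ : σ.Ω => ()) = 0 := by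
      unfold H mass
      simp [Eqv.ker_def, σ.h1]
    have t1 := S4 (σ.J ∅) (Eqv.ker f) (σ.J ∅ ⊓ Eqv.ker f) (Eqv.ker fun _ : σ.Ω => ())
      (fun _ _ h h' => ⟨h, h'⟩) (fun _ _ _ => rfl) (fun _ _ _ => rfl)
    have t2 := H_le_log σ.hp σ.h1 f univ (fun _ => mem_univ _) (N := 2 * Real.exp d) (by
      have := (Nat.ceil_lt_add_one (Real.exp_pos d).le).le
      have := Real.one_le_exp hd0
      simp only [card_univ, Fintype.card_fin]; linarith) (by positivity)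
    rw [Real.log_mul (by norm_num) (Real.exp_pos _).ne', Real.log_exp] at t2
    unfold rk; linarith

/-- The Ahlswede, Koerner lemma, approximate form. -/
theorem ak_approx (σ : Sys) (n : ℕ) (y c : Finset ℕ) (hy : y ⊆ range n) {η : ℝ} (hη : 0 < η) :
    ∃ (τ : Sys) (s g : ℝ), 0 < s ∧ 0 ≤ g ∧ (∀ S ⊆ range n, |s * τ.rk S - σ.rk S| ≤ η) ∧
      (∀ T ⊆ y, s * τ.rk (T ∪ {n}) = σ.rk (T ∪ c) - g) ∧ |g - (σ.rk (y ∪ c) - σ.rk y)| ≤ η := by
  obtain ⟨σ1, a1, a2, a3⟩ := σ.exists_copy n y c hy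
  set V := Var σ1.p (σ1.J y) (σ1.J (y ∪ {n})) with hV
  obtain ⟨j, hj⟩ := pow_unbounded_of_one_lt ((2 * Real.log 2 + V / (η / 2)) / (η / 2))
    (show (1 : ℝ) < 2 by norm_num)
  obtain ⟨σ2, b1, b2⟩ := σ1.exists_pow j
  have hN : (0 : ℝ) < 2 ^ j := by positivity
  obtain ⟨τ, g, g0, c1, c2, c3, c4⟩ := σ2.exists_cond n y hy (s := η / 2 * 2 ^ j) (by positivity) (by
    rw [b1, b1, b1, b1, a3, a1 _ Subset.rfl, a2 y Subset.rfl, a1 y hy]; ring)
  rw [b2, ← hV, b1, b1, a2 y Subset.rfl, a1 y hy] at c3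
  rw [b1, b1, a2 y Subset.rfl, a1 y hy] at c4
  have l2 : 0 < Real.log 2 := Real.log_pos (by norm_num)
  have hV0 : 0 ≤ V / (η / 2) := div_nonneg (sum_nonneg fun ω _ =>
    mul_nonneg (σ1.hp ω) (sq_nonneg _)) (by positivity)
  have e : 2 ^ j * V / (η / 2 * 2 ^ j) = V / (η / 2) := by field_simp
  rw [e] at c3
  rw [div_lt_iff₀ (by positivity)] at hj
  refine ⟨τ, 1 / 2 ^ j, g / 2 ^ j, by positivity, by positivity, fun S hS => ?_, fun T hT => ?_, ?_⟩
  · have d1 := c2 S hS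
    have d2 := c3 S hS
    rw [b1, a1 S hS] at d1 d2
    rw [one_div, inv_mul_eq_div, div_sub' hN.ne', abs_div, abs_of_pos hN, div_le_iff₀ hN, abs_le]
    constructor <;> nlinarith
  · rw [c1, b1, a2 T hT]; field_simp
  · have d2 := c3 ∅ (empty_subset _)
    rw [rk_empty, rk_empty] at d2
    rw [div_sub' hN.ne', abs_div, abs_of_pos hN, div_le_iff₀ hN, abs_le]
    constructor <;> nlinarith

end Sys

end Pool.Agent.Lib.MP_b69f85_lc
end

-- part Pool.Agent.Lib.MP_b69f85_lc.Sat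
section

namespace Pool.Agent.Lib.MP_b69f85_lc

open Finset Filter Topology

/-- Almost entropic on the subsets of `range n`. -/
def AE (n : ℕ) (h : Finset ℕ → ℝ) : Prop :=
  ∀ η : ℝ, 0 < η → ∃ (σ : Sys) (s : ℝ), 0 < s ∧ ∀ S ⊆ range n, |s * σ.rk S - h S| ≤ η

theorem Sys.rk_mono (σ : Sys) {S T : Finset ℕ} (h : S ⊆ T) : σ.rk S ≤ σ.rk T := by
  have := σ.rk_sub (S := T) (T := T) h h
  rw [union_idempotent] at this
  linarith

theorem AE.zero {n : ℕ} {h : Finset ℕ → ℝ} (H : AE n h) : h ∅ = 0 := by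
  refine abs_nonpos_iff.1 (le_of_forall_pos_le_add fun η hη => ?_)
  obtain ⟨σ, s, _, hs⟩ := H η hη
  simpa [σ.rk_empty] using hs ∅ (empty_subset _)

theorem AE.sub {n : ℕ} {h : Finset ℕ → ℝ} (H : AE n h) {S T V : Finset ℕ} (hS : S ⊆ range n)
    (hT : T ⊆ range n) (h1 : V ⊆ S) (h2 : V ⊆ T) : h (S ∪ T) + h V ≤ h S + h T := by
  refine le_of_forall_pos_le_add fun η hη => ?_
  obtain ⟨σ, s, s0, hs⟩ := H (η / 4) (by positivity)
  have a1 := abs_le.1 (hs S hS)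
  have a2 := abs_le.1 (hs T hT)
  have a3 := abs_le.1 (hs V (h1.trans hS))
  have a4 := abs_le.1 (hs _ (union_subset hS hT))
  have := mul_le_mul_of_nonneg_left (σ.rk_sub h1 h2) s0.le
  linarith [a1.1, a1.2, a2.1, a2.2, a3.1, a3.2, a4.1, a4.2]

theorem eq_of_near {v : ℕ → ℝ} {a b : ℝ} (hv : Tendsto v (hyperfilter ℕ) (𝓝 a))
    (h : ∀ m : ℕ, |v m - b| ≤ 5 * (1 / ((m : ℝ) + 1))) : a = b := by
  refine tendsto_nhds_unique hv (Tendsto.mono_left ?_ Nat.hyperfilter_le_atTop)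
  have h0 : Tendsto (fun m : ℕ => 5 * (1 / ((m : ℝ) + 1))) atTop (𝓝 0) := by
    simpa using (tendsto_one_div_add_atTop_nhds_zero_nat (𝕜 := ℝ)).const_mul 5
  rw [tendsto_iff_norm_sub_tendsto_zero]
  exact squeeze_zero (fun _ => norm_nonneg _) h h0

theorem AE.ext {n : ℕ} {h : Finset ℕ → ℝ} (H : AE n h) {y c : Finset ℕ} (hy : y ⊆ range n)
    (hc : c ⊆ range n) : ∃ h', AE (n + 1) h' ∧ (∀ S ⊆ range n, h' S = h S) ∧
      ∀ T ⊆ y, h' (T ∪ {n}) = h (T ∪ c) - h (y ∪ c) + h y := by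
  have key : ∀ m : ℕ, ∃ (τ : Sys) (s : ℝ), 0 < s ∧
      (∀ S ⊆ range n, |s * τ.rk S - h S| ≤ 5 * (1 / ((m : ℝ) + 1))) ∧
      ∀ T ⊆ y, |s * τ.rk (T ∪ {n}) - (h (T ∪ c) - h (y ∪ c) + h y)| ≤ 5 * (1 / ((m : ℝ) + 1)) := by
    intro m
    set η : ℝ := 1 / ((m : ℝ) + 1) with hη
    have η0 : 0 < η := by positivity
    obtain ⟨σ, s, s0, hs⟩ := H η η0
    obtain ⟨τ, s', g, s1, _, a1, a2, a3⟩ := σ.ak_approx n y c hy (η := η / s) (by positivity)
    have sc : ∀ x : ℝ, |x| ≤ η / s → |s * x| ≤ η := fun x hx => by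
      rw [abs_mul, abs_of_pos s0, mul_comm]; exact (le_div_iff₀ s0).1 hx
    refine ⟨τ, s * s', by positivity, fun S hS => ?_, fun T hT => ?_⟩
    · have b1 := abs_le.1 (sc _ (a1 S hS))
      have b2 := abs_le.1 (hs S hS)
      rw [abs_le]; constructor <;> linarith [b1.1, b1.2, b2.1, b2.2]
    · have b1 := abs_le.1 (sc _ a3)
      have b2 := abs_le.1 (hs _ (union_subset (hT.trans hy) hc))
      have b3 := abs_le.1 (hs _ (union_subset hy hc))
      have b4 := abs_le.1 (hs _ hy)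
      rw [mul_assoc, a2 T hT, abs_le]
      constructor <;> linarith [b1.1, b1.2, b2.1, b2.2, b3.1, b3.2, b4.1, b4.2]
  choose τ s s0 k1 k2 using key
  set M := h (range n) + 5 + (h c - h (y ∪ c) + h y + 5) with hM
  have bd : ∀ S ⊆ range (n + 1), ∀ m, s m * (τ m).rk S ∈ Set.Icc 0 M := by
    intro S hS m
    have e : (1 : ℝ) / ((m : ℝ) + 1) ≤ 1 := by
      rw [div_le_one (by positivity)]; linarith [Nat.cast_nonneg (α := ℝ) m]
    have b0 := (τ m).rk_mono (empty_subset S)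
    have b1 := (τ m).rk_mono (show S ⊆ range n ∪ {n} by
      rw [range_add_one, insert_eq, union_comm] at hS; exact hS)
    have b2 := (τ m).rk_sub (S := range n) (T := {n}) (empty_subset _) (empty_subset _)
    rw [Sys.rk_empty] at b0 b2
    have b3 := (abs_le.1 (k1 m _ Subset.rfl)).2
    have b4 := (abs_le.1 (k2 m ∅ (empty_subset _))).2
    rw [empty_union, empty_union] at b4
    refine ⟨mul_nonneg (s0 m).le b0, ?_⟩
    have := mul_le_mul_of_nonneg_left (b1.trans (show _ ≤ (τ m).rk (range n) + (τ m).rk {n} by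
      linarith)) (s0 m).le
    linarith
  have lim : ∀ S, ∃ a : ℝ, S ⊆ range (n + 1) →
      Tendsto (fun m => s m * (τ m).rk S) (hyperfilter ℕ) (𝓝 a) := by
    intro S
    by_cases hS : S ⊆ range (n + 1)
    · obtain ⟨a, _, ha⟩ := (isCompact_Icc (a := (0 : ℝ)) (b := M)).ultrafilter_le_nhds
        ((hyperfilter ℕ).map fun m => s m * (τ m).rk S)
        (le_principal_iff.2 (mem_map.2 (univ_mem' (bd S hS))))
      exact ⟨a, fun _ => ha⟩
    · exact ⟨0, fun h => absurd h hS⟩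
  choose h' hh using lim
  have sub : range n ⊆ range (n + 1) := range_mono (Nat.le_succ n)
  refine ⟨h', fun η hη => ?_, fun S hS => eq_of_near (hh S (hS.trans sub)) fun m => k1 m S hS,
    fun T hT => eq_of_near (hh _ ?_) fun m => k2 m T hT⟩
  · have : ∀ᶠ m in (hyperfilter ℕ : Filter ℕ), ∀ S ∈ (range (n + 1)).powerset,
        |s m * (τ m).rk S - h' S| ≤ η := (eventually_all_finset _).2 fun S hS => by
      have := (Metric.tendsto_nhds.1 (hh S (mem_powerset.1 hS))) η hη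
      exact this.mono fun m hm => (by rwa [Real.dist_eq] at hm : _ < η).le
    obtain ⟨m, hm⟩ := this.exists
    exact ⟨τ m, s m, s0 m, fun S hS => hm S (mem_powerset.2 hS)⟩
  · exact union_subset ((hT.trans hy).trans sub) (by simp)

/-- A polymatroid in which all Ahlswede, Koerner extensions are present. -/
structure Sat (h : Finset ℕ → ℝ) : Prop where
  zero : h ∅ = 0
  sub : ∀ S T V, V ⊆ S → V ⊆ T → h (S ∪ T) + h V ≤ h S + h T
  ak : ∀ y c, ∃ w, ∀ T ⊆ y, h (T ∪ w) = h (T ∪ c) - h (y ∪ c) + h y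

theorem AE.sat {k : ℕ} {h : Finset ℕ → ℝ} (H : AE k h) :
    ∃ h', Sat h' ∧ ∀ S ⊆ range k, h' S = h S := by
  classical
  let tri : ℕ → Finset ℕ × Finset ℕ := fun j =>
    (Encodable.decode (α := Finset ℕ × Finset ℕ) j.unpair.1).getD (∅, ∅)
  have step : ∀ j (g : {g // AE (k + j) g}), ∃ g' : {g // AE (k + (j + 1)) g},
      (∀ S ⊆ range (k + j), g'.1 S = g.1 S) ∧ ((tri j).1 ⊆ range (k + j) →
        (tri j).2 ⊆ range (k + j) → ∀ T ⊆ (tri j).1, g'.1 (T ∪ {k + j}) =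
          g.1 (T ∪ (tri j).2) - g.1 ((tri j).1 ∪ (tri j).2) + g.1 (tri j).1) := by
    intro j g
    by_cases hh : (tri j).1 ⊆ range (k + j) ∧ (tri j).2 ⊆ range (k + j)
    · obtain ⟨g', a, b, c⟩ := g.2.ext hh.1 hh.2
      exact ⟨⟨g', a⟩, b, fun _ _ => c⟩
    · obtain ⟨g', a, b, _⟩ := g.2.ext (empty_subset _) (empty_subset _)
      exact ⟨⟨g', a⟩, b, fun h1 h2 => absurd ⟨h1, h2⟩ hh⟩
  choose nx hn1 hn2 using step
  let sq : ∀ j, {g // AE (k + j) g} := fun j => Nat.rec ⟨h, H⟩ nx j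
  have stab : ∀ j j', j ≤ j' → ∀ S ⊆ range (k + j), (sq j').1 S = (sq j).1 S := by
    intro j j' hj S hS
    induction hj with
    | refl => rfl
    | @step m hm ih => exact (hn1 m (sq m) S (hS.trans (range_mono (by
        have : j ≤ m := hm
        omega)))).trans ih
  have bd : ∀ S : Finset ℕ, ∀ j, S.sup id + 1 ≤ j → S ⊆ range (k + j) := fun S j hj i hi => by
    have : i ≤ S.sup id := le_sup (f := id) hi
    exact mem_range.2 (by omega)
  have val : ∀ S j, S ⊆ range (k + j) → (sq (S.sup id + 1)).1 S = (sq j).1 S := by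
    intro S j hS
    rcases le_total j (S.sup id + 1) with h | h
    · exact stab _ _ h S hS
    · exact (stab _ _ h S (bd S _ le_rfl)).symm
  refine ⟨fun S => (sq (S.sup id + 1)).1 S, ⟨(sq ((∅ : Finset ℕ).sup id + 1)).2.zero,
    fun S T V h1 h2 => ?_, fun y c => ?_⟩,
    fun S hS => val S 0 hS⟩
  · have a := bd (S ∪ T) _ le_rfl
    set j := (S ∪ T).sup id + 1
    have a1 := subset_union_left.trans a
    have a2 := subset_union_right.trans a
    rw [val S j a1, val T j a2, val V j (h1.trans a1)]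
    exact (sq j).2.sub a1 a2 h1 h2
  · set j := Nat.pair (Encodable.encode (y, c)) ((y ∪ c).sup id + 1) with hj
    have e : tri j = (y, c) := by simp only [tri, hj, Nat.unpair_pair, Encodable.encodek]; rfl
    have a := bd (y ∪ c) j (Nat.right_le_pair _ _)
    have a1 := subset_union_left.trans a
    have a2 := subset_union_right.trans a
    refine ⟨{k + j}, fun T hT => ?_⟩
    have := hn2 j (sq j) (by rw [e]; exact a1) (by rw [e]; exact a2) T (by rw [e]; exact hT)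
    rw [e] at this
    rw [val (T ∪ c) j (union_subset (hT.trans a1) a2), val _ j a, val y j a1,
      val (T ∪ {k + j}) (j + 1) (union_subset ((hT.trans a1).trans (range_mono (by omega)))
        (by simp))]
    exact this

theorem Sys.sat (σ : Sys) (k : ℕ) : ∃ h', Sat h' ∧ ∀ S ⊆ range k, h' S = σ.rk S :=
  AE.sat fun η hη => ⟨σ, 1, one_pos, fun S _ => by simp [hη.le]⟩

end Pool.Agent.Lib.MP_b69f85_lc
end

-- part Pool.Agent.Lib.MP_b69f85_lc.Geo
section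

namespace Pool.Agent.Lib.MP_b69f85_lc

open Finset

/-- Conditional mutual information of a set function. -/
def CI (h : Finset ℕ → ℝ) (x y z : Finset ℕ) : ℝ := h (x ∪ z) + h (y ∪ z) - h (x ∪ y ∪ z) - h z

/-- Conditional entropy of a set function. -/
def DD (h : Finset ℕ → ℝ) (x z : Finset ℕ) : ℝ := h (x ∪ z) - h z

theorem CI_self (h : Finset ℕ → ℝ) (x z : Finset ℕ) : CI h x x z = DD h x z := by
  unfold CI DD; rw [union_idempotent]; ring

namespace Sat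

variable {h : Finset ℕ → ℝ} (H : Sat h)
include H

theorem mono {S T : Finset ℕ} (hs : S ⊆ T) : h S ≤ h T := by
  have := H.sub T T S hs hs
  rw [union_idempotent] at this
  linarith

theorem nonneg (S : Finset ℕ) : 0 ≤ h S := H.zero ▸ H.mono (empty_subset S)

theorem sub' {S T U V : Finset ℕ} (h0 : U ⊆ S ∪ T) (h1 : V ⊆ S) (h2 : V ⊆ T) :
    h U + h V ≤ h S + h T := by
  linarith [H.sub S T V h1 h2, H.mono h0]

theorem CI_nonneg (x y z : Finset ℕ) : 0 ≤ CI h x y z := by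
  have := H.sub' (S := x ∪ z) (T := y ∪ z) (U := x ∪ y ∪ z) (V := z) (by grind) (by grind) (by grind)
  unfold CI; linarith

theorem wk {x z x' z' : Finset ℕ} {a : ℝ} (h0 : DD h x' z' ≤ a) (h1 : x ⊆ x' ∪ z) (h2 : z' ⊆ z) :
    DD h x z ≤ a := by
  have := H.sub' (S := x' ∪ z') (T := z) (U := x ∪ z) (V := z') (by grind) (by grind) h2
  unfold DD at *; linarith

theorem triv {x z : Finset ℕ} (h1 : x ⊆ z) : DD h x z ≤ 0 := by
  have := H.mono (S := x ∪ z) (T := z) (by grind)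
  unfold DD; linarith

theorem cut {x y z y' z' : Finset ℕ} {a b : ℝ} (h1 : DD h x y' ≤ a) (h2 : DD h y z' ≤ b)
    (s1 : y' ⊆ y ∪ z) (s2 : z' ⊆ z) : DD h x z ≤ a + b := by
  have a1 := H.wk (x := x) (z := y ∪ z) h1 (by grind) s1
  have a2 := H.wk (x := y) (z := z) h2 (by grind) s2
  have a3 := H.mono (S := x ∪ z) (T := x ∪ (y ∪ z)) (by grind)
  unfold DD at *; linarith

theorem un {x y z z1 z2 : Finset ℕ} {a b : ℝ} (h1 : DD h x z1 ≤ a) (h2 : DD h y z2 ≤ b)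
    (s1 : z1 ⊆ z) (s2 : z2 ⊆ z) : DD h (x ∪ y) z ≤ a + b :=
  H.cut (y := y) (y' := y ∪ z) (H.wk h1 (by grind) (by grind)) h2 Subset.rfl s2

theorem iabs {x y z p β : Finset ℕ} {a b c : ℝ} (h1 : CI h p β ∅ ≤ a) (h2 : DD h x (p ∪ z) ≤ b)
    (h3 : DD h (y ∪ z) β ≤ c) : CI h x y z ≤ a + b + c := by
  have a1 := H.mono (S := x ∪ z) (T := x ∪ (p ∪ z)) (by grind)
  have a2 := H.sub' (S := x ∪ y ∪ z) (T := x ∪ (p ∪ z)) (U := x ∪ p ∪ y ∪ z) (V := x ∪ z)
    (by grind) (by grind) (by grind)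
  have a3 := H.mono (S := p ∪ (y ∪ z)) (T := x ∪ p ∪ y ∪ z) (by grind)
  have a4 := H.sub' (S := p ∪ (y ∪ z)) (T := y ∪ z ∪ β) (U := p ∪ β) (V := y ∪ z)
    (by grind) (by grind) (by grind)
  have a5 := H.sub' (S := p) (T := z) (U := p ∪ z) (V := ∅) (by grind) (by grind) (by grind)
  have a6 := H.zero
  unfold CI DD at *
  simp only [union_empty] at h1
  linarith

theorem rem {w s t β : Finset ℕ} {a b c : ℝ} (h1 : DD h w (s ∪ t) ≤ a) (h2 : CI h t β ∅ ≤ b)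
    (h3 : DD h (w ∪ s) β ≤ c) : DD h w s ≤ a + b + c := by
  have a1 := H.iabs (x := t) (y := w) (z := s) h2 (H.triv (by grind)) h3
  unfold CI DD at *
  rw [show t ∪ w ∪ s = w ∪ (s ∪ t) by grind, union_comm t s] at a1
  linarith

theorem maxi {y a b w t : Finset ℕ} {p q : ℝ} (ht : t ⊆ a) (hy : y ⊆ a) (h1 : CI h a b w ≤ p)
    (h2 : DD h y (b ∪ t) ≤ q) : DD h y (w ∪ t) ≤ p + q := by
  have a1 := H.sub' (S := a ∪ w) (T := y ∪ (b ∪ w ∪ t)) (U := a ∪ b ∪ w) (V := y ∪ (w ∪ t))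
    (by grind) (by grind) (by grind)
  have a2 := H.wk (x := y) (z := b ∪ w ∪ t) h2 (by grind) (by grind)
  have a3 := H.sub' (S := b ∪ w) (T := w ∪ t) (U := b ∪ w ∪ t) (V := w)
    (by grind) (by grind) (by grind)
  unfold CI DD at *
  linarith

theorem dim_le {w u t β : Finset ℕ} {a b c : ℝ} (h1 : DD h w (u ∪ t) ≤ a) (h2 : CI h t β ∅ ≤ b)
    (h3 : DD h w β ≤ c) : h w ≤ h u + (a + b + c) := by
  have a1 := H.iabs (x := t) (y := w) (z := ∅) (c := c) h2 (H.triv (by grind))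
    (by rwa [union_empty])
  have a2 := H.mono (S := t ∪ w) (T := w ∪ (u ∪ t)) (by grind)
  have a3 := H.sub' (S := u) (T := t) (U := u ∪ t) (V := ∅) (by grind) (by grind) (by grind)
  unfold CI DD at *
  simp only [union_empty] at a1
  linarith

theorem le_add {w u : Finset ℕ} {a : ℝ} (h1 : DD h w u ≤ a) : h w ≤ h u + a := by
  have := H.mono (S := w) (T := w ∪ u) (by grind)
  unfold DD at h1; linarith

theorem un_le (u v : Finset ℕ) : h (u ∪ v) ≤ h u + h v := by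
  linarith [H.sub u v ∅ (by grind) (by grind), H.zero]

theorem meet (a b c : Finset ℕ) : ∃ w, DD h w a = CI h c b a ∧ DD h w b = CI h a c b ∧
    CI h a b w = CI h a b c := by
  obtain ⟨w, hw⟩ := H.ak (a ∪ b) c
  have a1 := hw a (by grind)
  have a2 := hw b (by grind)
  have a3 := hw _ Subset.rfl
  have a4 := hw ∅ (by grind)
  refine ⟨w, ?_, ?_, ?_⟩
  · unfold DD CI
    rw [union_comm w, a1, union_comm c a, union_comm b a, show c ∪ b ∪ a = a ∪ b ∪ c by grind]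
    ring
  · unfold DD CI
    rw [union_comm w, a2, union_comm c b, show a ∪ c ∪ b = a ∪ b ∪ c by grind]
    ring
  · unfold CI
    simp only [empty_union] at a4
    rw [a1, a2, a3, a4]
    ring

end Sat

theorem third {i j : Fin 3} (h : i ≠ j) : ∃ k, i ≠ k ∧ j ≠ k := by
  revert i j; decide

abbrev Ob : Type := Fin 3 → Finset ℕ
abbrev Op : Type := Fin 3 → Fin 3 → Finset ℕ

/-- A frame in a saturated polymatroid. -/
structure Fr where
  h : Finset ℕ → ℝ
  sat : Sat h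
  B : ℝ
  b : Ob
  e : Op
  esym : ∀ i j, e i j = e j i
  ind : ∀ i j k, i ≠ j → i ≠ k → j ≠ k → CI h (b i) (b j ∪ b k) ∅ ≤ B

namespace Fr

variable (F : Fr)

def E (n : ℕ) : ℝ := 64 ^ n * F.B

theorem B0 : 0 ≤ F.B := (F.sat.CI_nonneg _ _ _).trans (F.ind 0 1 2 (by decide) (by decide) (by decide))

theorem E0 (n : ℕ) : 0 ≤ F.E n := mul_nonneg (by positivity) F.B0

theorem E_succ (n : ℕ) : F.E (n + 1) = 64 * F.E n := by unfold E; ring

theorem E_mono {m n : ℕ} (h : m ≤ n) : F.E m ≤ F.E n :=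
  mul_le_mul_of_nonneg_right (pow_le_pow_right₀ (by norm_num) h) F.B0

theorem BE (n : ℕ) : F.B ≤ F.E n := by simpa [E] using F.E_mono (Nat.zero_le n)

structure IsOp (t : Op) : Prop where
  t1 : ∀ i j, i ≠ j → DD F.h (t i j) (F.b i ∪ F.b j) ≤ F.B
  t2 : ∀ i j, i ≠ j → DD F.h (F.b i) (F.b j ∪ t i j) ≤ F.B
  t3 : ∀ i j k, i ≠ j → i ≠ k → j ≠ k → CI F.h (t i j) (F.b j ∪ F.b k) ∅ ≤ F.B
  t4 : ∀ i j k, i ≠ j → i ≠ k → j ≠ k → DD F.h (t i j) (t k j ∪ F.e i k) ≤ F.B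
  t5 : ∀ i j k, i ≠ j → i ≠ k → j ≠ k → DD F.h (t i k) (t i j ∪ F.e j k) ≤ F.B

structure Rel (z x y : Op) : Prop where
  oz : F.IsOp z
  ox : F.IsOp x
  oy : F.IsOp y
  r1 : ∀ i j k, i ≠ j → i ≠ k → j ≠ k → DD F.h (x i j) (z i k ∪ y j k) ≤ F.B
  r2 : ∀ i j k, i ≠ j → i ≠ k → j ≠ k → DD F.h (z i k) (x i j ∪ y j k) ≤ F.B

def Le (n : ℕ) (u w : Ob) : Prop := ∀ j, DD F.h (u j) (w j) ≤ F.E n
def Sub (n : ℕ) (u : Ob) (t : Op) (w : Ob) : Prop :=
  ∀ i j, i ≠ j → DD F.h (u i) (w j ∪ t i j) ≤ F.E n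
def Sup (n : ℕ) (u : Ob) (t : Op) (w : Ob) : Prop :=
  ∀ i j, i ≠ j → DD F.h (w j) (u i ∪ t i j) ≤ F.E n
def Qual (n : ℕ) (u : Ob) : Prop := F.Le n u F.b ∧ F.Sub n u F.e u

variable {F} {n m : ℕ} {u u1 u2 w w1 w2 : Ob} {t x y z : Op}

theorem Le.up (H : F.Le n u w) (h : n ≤ m) : F.Le m u w := fun j => (H j).trans (F.E_mono h)
theorem Sub.up (H : F.Sub n u t w) (h : n ≤ m) : F.Sub m u t w :=
  fun i j hh => (H i j hh).trans (F.E_mono h)
theorem Sup.up (H : F.Sup n u t w) (h : n ≤ m) : F.Sup m u t w :=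
  fun i j hh => (H i j hh).trans (F.E_mono h)
theorem Qual.up (H : F.Qual n u) (h : n ≤ m) : F.Qual m u := ⟨H.1.up h, H.2.up h⟩
theorem Qual.sup (H : F.Qual n u) : F.Sup n u F.e u := fun i j h => by
  rw [F.esym]; exact H.2 j i h.symm

theorem rem3 {i j k : Fin 3} (hy : F.IsOp y) (ht : F.IsOp t) (h1 : i ≠ j) (h2 : i ≠ k) (h3 : j ≠ k)
    {p q s : Finset ℕ} {a : ℝ} (hs : s = t j k ∨ s = t k j)
    (hp : DD F.h p (F.b j ∪ F.b k) ≤ F.E n) (hq : DD F.h q (F.b j ∪ F.b k) ≤ F.E n)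
    (hd : DD F.h p (q ∪ s ∪ y i j) ≤ a) : DD F.h p (q ∪ s) ≤ a + 4 * F.E n := by
  have S := F.sat
  have a1 : DD F.h s (F.b j ∪ F.b k) ≤ F.B := by
    rcases hs with rfl | rfl
    · exact ht.t1 j k h3
    · rw [union_comm]; exact ht.t1 k j h3.symm
  have := S.rem hd (hy.t3 i j k h1 h2 h3)
    (S.un hp (S.un hq a1 Subset.rfl Subset.rfl) Subset.rfl Subset.rfl)
  linarith [F.BE n]

theorem Le.l (H : F.Le n u F.b) (j k : Fin 3) : DD F.h (u j) (F.b j ∪ F.b k) ≤ F.E n :=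
  F.sat.wk (H j) (by grind) (by grind)
theorem Le.r (H : F.Le n u F.b) (j k : Fin 3) : DD F.h (u k) (F.b j ∪ F.b k) ≤ F.E n :=
  F.sat.wk (H k) (by grind) (by grind)

theorem supsup (R : F.Rel z x y) (h1 : F.Sup n u x u1) (h2 : F.Sup n u1 y w) (hu : F.Le n u F.b)
    (hw : F.Le n w F.b) : F.Sup (n + 1) u z w := fun i k hik => by
  obtain ⟨j, hij, hkj⟩ := third hik
  have S := F.sat
  have a1 := S.cut (z := u i ∪ z i k ∪ y j k) (S.cut (z := u i ∪ x i j ∪ y j k)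
    (h2 j k hkj.symm) (h1 i j hij) (by grind) (by grind)) (R.r1 i j k hij hik hkj.symm)
    (by grind) (by grind)
  have := rem3 R.oy R.oz hkj.symm hij.symm hik.symm (Or.inr rfl) (hw.l k i) (hu.r k i) a1
  linarith [F.BE n, F.E0 n, F.E_succ n]

theorem subsub (R : F.Rel z x y) (h1 : F.Sub n u x u1) (h2 : F.Sub n u1 y w) (hu : F.Le n u F.b)
    (hw : F.Le n w F.b) : F.Sub (n + 1) u z w := fun i k hik => by
  obtain ⟨j, hij, hkj⟩ := third hik
  have S := F.sat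
  have a1 := S.cut (z := w k ∪ z i k ∪ y j k) (S.cut (z := w k ∪ x i j ∪ y j k)
    (h1 i j hij) (h2 j k hkj.symm) (by grind) (by grind)) (R.r1 i j k hij hik hkj.symm)
    (by grind) (by grind)
  have := rem3 R.oy R.oz hkj.symm hij.symm hik.symm (Or.inr rfl) (hu.r k i) (hw.l k i) a1
  linarith [F.BE n, F.E0 n, F.E_succ n]

theorem subsup (R : F.Rel z x y) (h1 : F.Sub n u x u1) (h2 : F.Sup n u z w) (hu : F.Le n u1 F.b)
    (hw : F.Le n w F.b) : F.Sup (n + 1) u1 y w := fun j k hjk => by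
  obtain ⟨i, hji, hki⟩ := third hjk
  have S := F.sat
  have a1 := S.cut (z := u1 j ∪ y j k ∪ x i j) (S.cut (z := u1 j ∪ z i k ∪ x i j)
    (h2 i k hki.symm) (h1 i j hji.symm) (by grind) (by grind)) (R.r2 i j k hji.symm hki.symm hjk)
    (by grind) (by grind)
  have := rem3 R.ox R.oy hji.symm hki.symm hjk (Or.inl rfl) (hw.r j k) (hu.l j k) a1
  linarith [F.BE n, F.E0 n, F.E_succ n]

theorem supsub (R : F.Rel z x y) (h1 : F.Sup n u x u1) (h2 : F.Sub n u z w) (hu : F.Le n u1 F.b)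
    (hw : F.Le n w F.b) : F.Sub (n + 1) u1 y w := fun j k hjk => by
  obtain ⟨i, hji, hki⟩ := third hjk
  have S := F.sat
  have a1 := S.cut (z := w k ∪ y j k ∪ x i j) (S.cut (z := w k ∪ z i k ∪ x i j)
    (h1 i j hji.symm) (h2 i k hki.symm) (by grind) (by grind)) (R.r2 i j k hji.symm hki.symm hjk)
    (by grind) (by grind)
  have := rem3 R.ox R.oy hji.symm hki.symm hjk (Or.inl rfl) (hu.l j k) (hw.r j k) a1
  linarith [F.BE n, F.E0 n, F.E_succ n]

theorem le2 (ht : F.IsOp t) (h0 : F.Sup n u t w) (h : F.Le n u (u1 ⊔ u2)) (h1 : F.Sub n u1 t w1)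
    (h2 : F.Sub n u2 t w2) (hw : F.Le n w F.b) (hw1 : F.Le n w1 F.b) (hw2 : F.Le n w2 F.b) :
    F.Le (n + 1) w (w1 ⊔ w2) := fun j => by
  obtain ⟨i, hi⟩ := exists_ne j
  obtain ⟨k, hik, hjk⟩ := third hi
  have S := F.sat
  have a0 : DD F.h (u i) (u1 i ∪ u2 i) ≤ F.E n := h i
  have a1 := S.cut (z := w1 j ∪ w2 j ∪ t i j) (S.cut (z := u1 i ∪ u2 i ∪ t i j)
    (h0 i j hi) a0 (by grind) (by grind))
    (S.un (z := w1 j ∪ w2 j ∪ t i j) (h1 i j hi) (h2 i j hi) (by grind) (by grind))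
    (by grind) (by grind)
  have := S.rem a1 (ht.t3 i j k hi hik hjk)
    (S.un (hw.l j k) (S.un (hw1.l j k) (hw2.l j k) Subset.rfl Subset.rfl) Subset.rfl Subset.rfl)
  change DD F.h (w j) (w1 j ∪ w2 j) ≤ _
  linarith [F.BE n, F.E0 n, F.E_succ n]

theorem le1 (ht : F.IsOp t) (h0 : F.Sup n u t w) (h : F.Le n u u1) (h1 : F.Sub n u1 t w1)
    (hw : F.Le n w F.b) (hw1 : F.Le n w1 F.b) : F.Le (n + 1) w w1 := by
  have := le2 (u2 := u1) ht h0 (by rwa [sup_idem]) h1 h1 hw hw1 hw1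
  rwa [sup_idem] at this

theorem Le.rfl (n : ℕ) (u : Ob) : F.Le n u u := fun _ => (F.sat.triv Subset.rfl).trans (F.E0 n)

theorem dim (he : F.IsOp F.e) (ht : F.IsOp t) (h0 : F.Sup n u t w) (hw : F.Le n w F.b)
    (hu : F.Qual n u) : F.h (w 0) ≤ F.h (u 0) + F.E (n + 1) := by
  have S := F.sat
  have a1 := S.dim_le (h0 1 0 (by decide)) (ht.t3 1 0 2 (by decide) (by decide) (by decide))
    (hw.l 0 2)
  have a2 := S.dim_le (hu.sup 0 1 (by decide)) (he.t3 0 1 2 (by decide) (by decide) (by decide))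
    (hu.1.l 1 2)
  linarith [F.BE n, F.E0 n, F.E_succ n]

variable (F) in
/-- The image of an object under an operator. -/
noncomputable def tr (u : Ob) (t : Op) : Ob := fun j =>
  (F.sat.meet (u (j + 1) ∪ t (j + 1) j) (F.b j) (u (j + 2) ∪ t (j + 2) j)).choose

theorem tr_aux (he : F.IsOp F.e) (ht : F.IsOp t) (hu : F.Qual n u) {i j k : Fin 3} (hij : i ≠ j)
    (hik : i ≠ k) (hjk : j ≠ k) {w : Finset ℕ}
    (h1 : DD F.h w (u i ∪ t i j) = CI F.h (u k ∪ t k j) (F.b j) (u i ∪ t i j))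
    (h2 : DD F.h w (F.b j) = CI F.h (u i ∪ t i j) (u k ∪ t k j) (F.b j))
    (h3 : CI F.h (u i ∪ t i j) (F.b j) w = CI F.h (u i ∪ t i j) (F.b j) (u k ∪ t k j)) :
    DD F.h w (F.b j) ≤ 5 * F.E n ∧
    (DD F.h w (u i ∪ t i j) ≤ 17 * F.E n ∧ DD F.h (u i) (w ∪ t i j) ≤ 17 * F.E n) ∧
    DD F.h w (u k ∪ t k j) ≤ 17 * F.E n ∧ DD F.h (u k) (w ∪ t k j) ≤ 17 * F.E n := by
  have S := F.sat
  have hB := F.BE n
  have h0 := F.E0 n
  have da := S.un (hu.1.l i j) (ht.t1 i j hij) Subset.rfl Subset.rfl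
  have dc := S.un (hu.1.l k j) (ht.t1 k j hjk.symm) Subset.rfl Subset.rfl
  have ca := S.un (z := F.e k i ∪ (u i ∪ t i j)) (hu.2 k i hik.symm)
    (ht.t4 k j i hjk.symm hik.symm hij.symm) (by grind) (by grind)
  have ac := S.un (z := F.e i k ∪ (u k ∪ t k j)) (hu.2 i k hik)
    (ht.t4 i j k hij hik hjk) (by grind) (by grind)
  have e1 := he.t3 i k j hik hij hjk.symm
  have b1 := S.iabs (y := F.b j) (he.t3 k i j hik.symm hjk.symm hij) ca (S.wk da (by grind) (by grind))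
  have b2 := S.iabs (y := u k ∪ t k j) (F.ind i j k hij hik hjk) da (S.wk dc (by grind) (by grind))
  have b3 := S.iabs (y := F.b j) e1 ac (S.wk dc (by grind) (by grind))
  rw [← h1] at b1
  rw [← h2] at b2
  rw [← h3] at b3
  have b4 := S.maxi (y := u i) (t := t i j) (by grind) (by grind) b3
    (S.cut (hu.1 i) (ht.t2 i j hij) (by grind) Subset.rfl)
  have b5 := S.rem (S.cut (z := u k ∪ t k j ∪ F.e i k) b1 ac (by grind) (by grind)) e1
    (S.un b2 dc (by grind) Subset.rfl)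
  have b6 := S.rem (S.cut (z := w ∪ t k j ∪ F.e i k) (S.cut (z := w ∪ t i j ∪ F.e i k)
    (hu.sup i k hik) b4 (by grind) (by grind)) (ht.t4 i j k hij hik hjk) (by grind) (by grind)) e1
    (S.wk (S.un (z := F.b k ∪ F.b j) b2 dc (by grind) Subset.rfl) (by grind) Subset.rfl)
  refine ⟨by linarith, ⟨by linarith, by linarith⟩, by linarith, by linarith⟩

theorem tr_spec (he : F.IsOp F.e) (ht : F.IsOp t) (hu : F.Qual n u) :
    F.Qual (n + 1) (F.tr u t) ∧ F.Sub (n + 1) u t (F.tr u t) ∧ F.Sup (n + 1) u t (F.tr u t) := by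
  have key := fun j : Fin 3 => tr_aux he ht hu (i := j + 1) (j := j) (k := j + 2)
    (by revert j; decide) (by revert j; decide) (by revert j; decide) (w := F.tr u t j)
    (F.sat.meet _ _ _).choose_spec.1 (F.sat.meet _ _ _).choose_spec.2.1
    (F.sat.meet _ _ _).choose_spec.2.2
  have k2 : ∀ i j, i ≠ j → DD F.h (F.tr u t j) (u i ∪ t i j) ≤ 17 * F.E n ∧
      DD F.h (u i) (F.tr u t j ∪ t i j) ≤ 17 * F.E n := by
    intro i j hij
    have : i = j + 1 ∨ i = j + 2 := by revert i j; decide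
    rcases this with rfl | rfl
    · exact (key j).2.1
    · exact (key j).2.2
  have h0 := F.E0 n
  have h1 := F.E_succ n
  refine ⟨⟨fun j => by linarith [(key j).1], fun i j hij => ?_⟩,
    fun i j h => by linarith [(k2 i j h).2], fun i j h => by linarith [(k2 i j h).1]⟩
  obtain ⟨k, hik, hjk⟩ := third hij
  have S := F.sat
  have a1 := S.cut (z := F.tr u t j ∪ F.e i j ∪ t k j) (S.cut (z := F.tr u t j ∪ t k i ∪ t k j)
    (k2 k i hik.symm).1 (k2 k j hjk.symm).2 (by grind) (by grind))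
    (ht.t5 k j i hjk.symm hik.symm hij.symm) (by grind) (by rw [F.esym j i]; grind)
  have := S.rem a1 (ht.t3 k j i hjk.symm hik.symm hij.symm)
    (S.un (key i).1 (S.un (z := F.b j ∪ F.b i) (key j).1 (he.t1 i j hij) (by grind) (by grind))
      (by grind) Subset.rfl)
  linarith [F.BE n]

end Fr

end Pool.Agent.Lib.MP_b69f85_lc
end

-- part Pool.Agent.Lib.MP_b69f85_lc.Step
section

namespace Pool.Agent.Lib.MP_b69f85_lc

open Finset

theorem Sat.sum_indep {h : Finset ℕ → ℝ} (H : Sat h) (W P : ℕ → Finset ℕ) (O : Finset ℕ) {δ : ℝ}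
    (h0 : 0 ≤ δ) (K : ℕ) (hW : ∀ i < K, DD h (W i) (P i) ≤ δ) (hO : ∀ i < K, DD h (W i) O ≤ δ)
    (hP : ∀ i < K, CI h (P i) ((range i).biUnion P) ∅ ≤ δ) :
    ∑ i ∈ range K, h (W i) ≤ h O + K * (K + 2) * δ := by
  have key : ∀ n ≤ K, ∑ i ∈ range n, h (W i) ≤ h ((range n).biUnion W) + n * (K + 1) * δ ∧
      DD h ((range n).biUnion W) ((range n).biUnion P) ≤ n * δ ∧
      DD h ((range n).biUnion W) O ≤ n * δ := by
    intro n hn
    induction n with
    | zero =>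
      simp only [range_zero, sum_empty, biUnion_empty, H.zero]
      exact ⟨by simp, by simpa using H.triv (empty_subset _), by simpa using H.triv (empty_subset _)⟩
    | succ n ih =>
      obtain ⟨a1, a2, a3⟩ := ih (by omega)
      have hn' : n < K := hn
      have a4 := H.iabs (x := W n) (y := (range n).biUnion W) (z := ∅) (b := δ) (c := n * δ)
        (hP n hn') (by rw [union_empty]; exact hW n hn') (by rwa [union_empty])
      have a5 : (n : ℝ) * δ ≤ (K - 1) * δ := mul_le_mul_of_nonneg_right (by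
        have : ((n + 1 : ℕ) : ℝ) ≤ K := by exact_mod_cast hn
        push_cast at this; linarith) h0
      rw [sum_range_succ, range_add_one, biUnion_insert, biUnion_insert]
      have a6 := H.un (z := P n ∪ (range n).biUnion P) (hW n hn') a2 (by grind) (by grind)
      have a7 := H.un (hO n hn') a3 Subset.rfl Subset.rfl
      unfold CI at a4
      simp only [union_empty, H.zero] at a4
      push_cast
      refine ⟨by linarith, by linarith, by linarith⟩
  obtain ⟨a1, _, a3⟩ := key K le_rfl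
  linarith [H.le_add a3]

theorem chain_real (a : ℕ → ℝ) {M δ : ℝ} (h0 : 0 ≤ δ)
    (h1 : ∀ t, 8192 * a t ≤ a (t + 1) + 8192 * (4096 ^ t * δ))
    (h2 : ∀ t, a t ≤ M + 4096 ^ t * δ) : a 0 ≤ 2 * δ := by
  by_contra hn
  have e0 : 0 < a 0 - 2 * δ := by linarith [not_le.1 hn]
  have key : ∀ t, 2 ^ t * (a 0 - 2 * δ) + 2 * (4096 ^ t * δ) ≤ a t := by
    intro t
    induction t with
    | zero => simp
    | succ t ih =>
      have := h1 t
      have p : 0 < 2 ^ t * (a 0 - 2 * δ) := by positivity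
      rw [pow_succ, pow_succ]
      linarith
  obtain ⟨t, ht⟩ := pow_unbounded_of_one_lt (M / (a 0 - 2 * δ)) (show (1 : ℝ) < 2 by norm_num)
  rw [div_lt_iff₀ e0] at ht
  have : 0 ≤ 4096 ^ t * δ := by positivity
  linarith [key t, h2 t]

namespace Fr

variable (F : Fr) {C : Type} (al : C → Op)

noncomputable def act (Z : Ob) : List C → Ob
  | [] => Z
  | c :: l => F.tr (act Z l) (al c)

def opt : Option C → Op
  | none => F.e
  | some c => al c

def Com (t a : Op) : Prop := ∃ z, F.Rel z t a ∧ F.Rel z a t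

variable {F al} (he : F.IsOp F.e) (hal : ∀ c, F.IsOp (al c)) {n : ℕ} {Z Z' Z1 Z2 : Ob} {t π : Op}

theorem act_append (Z : Ob) (l1 : List C) : ∀ l2 : List C,
    F.act al Z (l2 ++ l1) = F.act al (F.act al Z l1) l2
  | [] => rfl
  | c :: l => congrArg (fun u => F.tr u (al c)) (act_append Z l1 l)

include he hal

theorem act_qual (hZ : F.Qual n Z) : ∀ l : List C, F.Qual (n + l.length) (F.act al Z l)
  | [] => hZ
  | c :: l => (tr_spec he (hal c) (act_qual hZ l)).1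

theorem push_sup (hZ : F.Qual n Z) (hZ' : F.Qual n Z') (h : F.Sup n Z' t Z) : ∀ l : List C,
    (∀ c ∈ l, F.Com t (al c)) → F.Sup (n + 2 * l.length + 1) (F.act al Z' l) t (F.act al Z l)
  | [], _ => h.up (by simp)
  | c :: l, hc => by
    obtain ⟨z, r1, r2⟩ := hc c (by simp)
    have ih := push_sup hZ hZ' h l fun d hd => hc d (by simp [hd])
    have q := act_qual he hal hZ l
    have q' := act_qual he hal hZ' l
    obtain ⟨a1, -, a3⟩ := tr_spec he (hal c) q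
    obtain ⟨b1, b2, -⟩ := tr_spec he (hal c) q'
    exact (subsup r2 (b2.up (by omega))
      (supsup r1 ih (a3.up (by omega)) (q'.1.up (by omega)) (a1.1.up (by omega)))
      (b1.1.up (by omega)) (a1.1.up (by omega))).up (by simp; omega)

theorem push_sub (hZ : F.Qual n Z) (hZ' : F.Qual n Z') (h : F.Sub n Z t Z') : ∀ l : List C,
    (∀ c ∈ l, F.Com t (al c)) → F.Sub (n + 2 * l.length + 1) (F.act al Z l) t (F.act al Z' l)
  | [], _ => h.up (by simp)
  | c :: l, hc => by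
    obtain ⟨z, r1, r2⟩ := hc c (by simp)
    have ih := push_sub hZ hZ' h l fun d hd => hc d (by simp [hd])
    have q := act_qual he hal hZ l
    have q' := act_qual he hal hZ' l
    obtain ⟨a1, -, a3⟩ := tr_spec he (hal c) q
    obtain ⟨b1, b2, -⟩ := tr_spec he (hal c) q'
    exact (supsub r2 (a3.up (by omega))
      (subsub r1 ih (b2.up (by omega)) (q.1.up (by omega)) (b1.1.up (by omega)))
      (a1.1.up (by omega)) (b1.1.up (by omega))).up (by simp; omega)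

theorem act_pop (hZ : F.Qual 0 Z) (o : Option C) (l1 l2 : List C)
    (hc : ∀ x ∈ o, ∀ c ∈ l2, F.Com (al x) (al c)) :
    F.Sup (2 * (l2 ++ l1).length + 2) (F.act al Z (l2 ++ l1)) (F.opt al o)
      (F.act al Z (l2 ++ (o.toList ++ l1))) := by
  cases o with
  | none => exact (act_qual he hal hZ _).sup.up (by omega)
  | some x =>
    have q := act_qual he hal hZ l1
    obtain ⟨a1, -, a3⟩ := tr_spec he (hal x) q
    rw [act_append, act_append]
    exact (push_sup he hal a1 (q.up (by omega)) a3 l2 (hc x rfl)).up (by simp; omega)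

theorem act_push (hZ : F.Qual 0 Z) (o : Option C) (l : List C) :
    F.Sub (l.length + 1) (F.act al Z l) (F.opt al o) (F.act al Z (o.toList ++ l)) := by
  cases o with
  | none => exact (act_qual he hal hZ _).2.up (by omega)
  | some x => exact (tr_spec he (hal x) (act_qual he hal hZ l)).2.1.up (by omega)

theorem act_dim (hZ : F.Qual 0 Z) : ∀ l : List C,
    F.h (F.act al Z l 0) ≤ F.h (Z 0) + F.E (l.length + 2)
  | [] => le_add_of_nonneg_right (F.E0 _)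
  | c :: l => by
    have q := act_qual he hal hZ l
    obtain ⟨a1, -, a3⟩ := tr_spec he (hal c) q
    have := dim he (hal c) a3 a1.1 (q.up (by omega))
    rw [zero_add] at this
    have ih := act_dim hZ l
    have := F.E_succ (l.length + 2)
    have := F.E0 (l.length + 2)
    change F.h (F.tr (F.act al Z l) (al c) 0) ≤ _ + F.E (l.length + 2 + 1)
    linarith

theorem act_cov (hZ : F.Qual 0 Z) (h1 : F.Qual 0 Z1) (h2 : F.Qual 0 Z2) (h : F.Le 0 Z (Z1 ⊔ Z2)) :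
    ∀ l : List C, F.Le (l.length + 1) (F.act al Z l) (F.act al Z1 l ⊔ F.act al Z2 l)
  | [] => h.up (by simp)
  | c :: l => by
    obtain ⟨a1, -, a3⟩ := tr_spec he (hal c) (act_qual he hal hZ l)
    obtain ⟨b1, b2, -⟩ := tr_spec he (hal c) (act_qual he hal h1 l)
    obtain ⟨c1, c2, -⟩ := tr_spec he (hal c) (act_qual he hal h2 l)
    rw [zero_add] at a1 a3 b1 b2 c1 c2
    exact le2 (hal c) a3 (act_cov hZ h1 h2 h l) b2 c2 a1.1 b1.1 c1.1

omit he hal in
variable (F al π) in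
/-- The dimension of the set of tokens at a position. -/
noncomputable def dm (Z : Ob) (l : List C) : ℝ := F.h (F.tr (F.act al Z l) π 0)

theorem dm_cov (hπ : F.IsOp π) (hZ : F.Qual 0 Z) (h1 : F.Qual 0 Z1) (h2 : F.Qual 0 Z2)
    (h : F.Le 0 Z (Z1 ⊔ Z2)) (l : List C) :
    F.dm al π Z l ≤ F.dm al π Z1 l + F.dm al π Z2 l + F.E (l.length + 2) := by
  obtain ⟨a1, -, a3⟩ := tr_spec he hπ (act_qual he hal hZ l)
  obtain ⟨b1, b2, -⟩ := tr_spec he hπ (act_qual he hal h1 l)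
  obtain ⟨c1, c2, -⟩ := tr_spec he hπ (act_qual he hal h2 l)
  rw [zero_add] at a1 a3 b1 b2 c1 c2
  have a := F.sat.le_add (le2 hπ a3 (act_cov he hal hZ h1 h2 h l) b2 c2 a1.1 b1.1 c1.1 0)
  have b := F.sat.un_le (F.tr (F.act al Z1 l) π 0) (F.tr (F.act al Z2 l) π 0)
  change _ ≤ F.h (_ ∪ _) + F.E (l.length + 2) at a
  unfold dm
  linarith

theorem dm_le (hπ : F.IsOp π) (hZ : F.Qual 0 Z) (l : List C) :
    F.dm al π Z l ≤ F.h (Z 0) + F.E (l.length + 3) := by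
  have q := act_qual he hal hZ l
  obtain ⟨a1, -, a3⟩ := tr_spec he hπ q
  have := dim he hπ a3 a1.1 (q.up (by omega))
  rw [zero_add] at this
  have ih := act_dim he hal hZ l
  have := F.E_succ (l.length + 2)
  have := F.E0 (l.length + 2)
  change F.h (F.tr (F.act al Z l) π 0) ≤ _ + F.E (l.length + 2 + 1)
  linarith

theorem dm_b (hπ : F.IsOp π) (hZ : F.Qual 0 Z) (l : List C) :
    F.dm al π Z l ≤ F.h (F.b 0) + F.E (l.length + 1) := by
  have := F.sat.le_add ((tr_spec he hπ (act_qual he hal hZ l)).1.1 0)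
  rwa [zero_add] at this

omit hal in
theorem le_dm {Y : Ob} (hπ : F.IsOp π) (hZ : F.Qual 0 Z) (hY : F.Le 0 Y F.b)
    (h : F.Sup 0 Z π Y) : F.h (Y 0) ≤ F.dm al π Z [] + F.E 2 := by
  obtain ⟨a1, a2, -⟩ := tr_spec he hπ hZ
  exact F.sat.le_add (le1 hπ (h.up (by omega)) (Le.rfl _ _) a2 (hY.up (by omega)) a1.1 0)

theorem step {Λ A L : Op} {ρ Fi G r : ℕ → Op} {P : ℕ → Ob} {pop push : Option C} {l1 l2 : List C}
    (hZ : F.Qual 0 Z) (hZ' : F.Qual 0 Z') (hΛ : F.Sup 0 Z Λ Z)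
    (cΛ : ∀ c ∈ l2 ++ l1, F.Com Λ (al c)) (cp : ∀ x ∈ pop, ∀ c ∈ l2, F.Com (al x) (al c))
    (rA : F.Rel A Λ (F.opt al pop)) (rL : F.Rel L A π)
    (hρ : ∀ i < 8192, F.Sub 0 Z (ρ i) Z') (cρ : ∀ i < 8192, ∀ c, F.Com (ρ i) (al c))
    (rF : ∀ i < 8192, F.Rel (Fi i) (ρ i) (F.opt al push)) (rG : ∀ i < 8192, F.Rel (G i) (Fi i) π)
    (rr : ∀ i < 8192, F.Rel L (G i) (r i)) (hP : ∀ i < 8192, F.Sub 0 F.b (G i) (P i))
    (qP : ∀ i < 8192, F.Le 0 (P i) F.b)
    (iP : ∀ i < 8192, CI F.h (P i 0) ((range i).biUnion fun j => P j 0) ∅ ≤ F.B) :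
    8192 * F.dm al π Z (l2 ++ (pop.toList ++ l1)) ≤ F.dm al π Z' (push.toList ++ (l2 ++ l1)) +
      8192 * F.E (2 * (l2 ++ l1).length + 8) := by
  have hπ := rL.oy
  have s1 := act_pop he hal hZ pop l1 l2 cp
  have s2 := push_sup he hal hZ hZ hΛ _ cΛ
  have s3 := act_push he hal hZ' push (l2 ++ l1)
  have s4 := fun i hi => push_sub he hal hZ hZ' (hρ i hi) (l2 ++ l1) fun c _ => cρ i hi c
  have qV := act_qual he hal hZ (l2 ++ l1)
  have qV' := act_qual he hal hZ' (l2 ++ l1)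
  have qU := act_qual he hal hZ (l2 ++ (pop.toList ++ l1))
  have qU' := act_qual he hal hZ' (push.toList ++ (l2 ++ l1))
  have e1 : (l2 ++ (pop.toList ++ l1)).length ≤ (l2 ++ l1).length + 1 := by
    cases pop <;> simp; omega
  have e2 : (push.toList ++ (l2 ++ l1)).length ≤ (l2 ++ l1).length + 1 := by
    cases push <;> simp
  obtain ⟨qO, -, o1⟩ := tr_spec he hπ qU
  obtain ⟨qO', o2, -⟩ := tr_spec he hπ qU'
  unfold dm
  generalize (l2 ++ l1).length = m at *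
  generalize F.act al Z (l2 ++ l1) = V at *
  generalize F.act al Z' (l2 ++ l1) = V' at *
  generalize F.act al Z (l2 ++ (pop.toList ++ l1)) = U at *
  generalize F.act al Z' (push.toList ++ (l2 ++ l1)) = U' at *
  generalize F.tr U π = O at *
  generalize F.tr U' π = O' at *
  have s5 := supsup rL (supsup rA (s2.up (by omega)) s1 (qV.1.up (by omega)) (qU.1.up (by omega)))
    (o1.up (by omega)) (qV.1.up (by omega)) (qO.1.up (by omega))
  have key : ∀ i < 8192, F.h (O 0) ≤ F.h (F.tr V (G i) 0) + F.E (2 * m + 6) ∧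
      DD F.h (F.tr V (G i) 0) (P i 0) ≤ F.E (2 * m + 5) ∧
      DD F.h (F.tr V (G i) 0) (O' 0) ≤ F.E (2 * m + 5) := by
    intro i hi
    have oG := (rG i hi).oz
    obtain ⟨qW, w1, w2⟩ := tr_spec he oG qV
    refine ⟨dim he (rr i hi).oy (subsup (rr i hi) (w1.up (by omega)) s5 (qW.1.up (by omega))
      (qO.1.up (by omega))) (qO.1.up (by omega)) (qW.up (by omega)),
      le1 oG (w2.up (by omega)) (qV.1.up (by omega)) ((hP i hi).up (by omega)) (qW.1.up (by omega))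
        ((qP i hi).up (by omega)) 0,
      le1 oG (w2.up (by omega)) (Le.rfl _ _) (subsub (rG i hi) (subsub (n := 2 * m + 2) (rF i hi)
        ((s4 i hi).up (by omega)) (s3.up (by omega)) (qV.1.up (by omega)) (qU'.1.up (by omega)))
        (o2.up (by omega)) (qV.1.up (by omega)) (qO'.1.up (by omega))) (qW.1.up (by omega))
        (qO'.1.up (by omega)) 0⟩
  have a1 := F.sat.sum_indep (fun i => F.tr V (G i) 0) (fun i => P i 0) (O' 0) (F.E0 (2 * m + 5))
    8192 (fun i hi => (key i hi).2.1) (fun i hi => (key i hi).2.2)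
    (fun i hi => (iP i hi).trans (F.BE _))
  have a2 := sum_le_sum fun i (hi : i ∈ range 8192) => (key i (mem_range.1 hi)).1
  rw [sum_add_distrib, sum_const, sum_const, card_range, nsmul_eq_mul, nsmul_eq_mul] at a2
  have := F.E_succ (2 * m + 5)
  have := F.E_succ (2 * m + 6)
  have := F.E_succ (2 * m + 7)
  have := F.E0 (2 * m + 5)
  push_cast at a1 a2
  linarith

end Fr

end Pool.Agent.Lib.MP_b69f85_lc
end
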