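import Pool.Agent.Lib.MP_b69f85_lc.Step
import Pool.Agent.Lib.MP_b69f85_lc.Enum
import Pool.Agent.Lib.MP_038c09_al.Row

-- part Pool.Agent.Lib.MP_b69f85_lc.Sem
section

namespace Pool.Agent.Lib.MP_b69f85_lc

open Finset

/-- The rank function of a family of subgroups. -/
noncomputable def grk {Ω : Type} [AddCommGroup Ω] (K : ℕ → AddSubgroup Ω) (S : Finset ℕ) : ℝ :=
  Real.log ((⨅ n ∈ S, K n).index)

/-- Partial maps and subsets of a finite set. -/
structure PM (ON BN : Type) where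
  X : Type
  [fin : Fintype X]
  op : ON → X → Option X
  ob : BN → X → Prop

attribute [instance] PM.fin

abbrev VN (ON BN : Type) : Type := (ON × Fin 3 × Fin 3) ⊕ (BN × Fin 3)

def ext0 {X : Type} (f : X → ZMod 2) : Option X → ZMod 2
  | none => 0
  | some p => f p

theorem ext0_zero {X : Type} {f : X → ZMod 2} (h : ∀ p, f p = 0) (o : Option X) : ext0 f o = 0 := by
  cases o <;> simp [ext0, h]

variable {ON BN : Type}

def PM.kv (m : PM ON BN) : VN ON BN → AddSubgroup (Fin 3 → m.X → ZMod 2)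
  | .inl (t, i, j) => ⟨⟨⟨{ω | ∀ p, ω i p = ext0 (ω j) (m.op t p)}, fun {a b} ha hb p => by
      have h1 := ha p
      have h2 := hb p
      simp only [Pi.add_apply, h1, h2]
      cases m.op t p <;> simp [ext0]⟩, fun p => (ext0_zero (fun _ => rfl) _).symm⟩,
      fun {a} ha p => by
        have h1 := ha p
        simp only [Pi.neg_apply, h1]
        cases m.op t p <;> simp [ext0]⟩
  | .inr (s, j) => ⟨⟨⟨{ω | ∀ p, m.ob s p → ω j p = 0}, fun {a b} ha hb p hp => by
      simp [ha p hp, hb p hp]⟩, fun _ _ => rfl⟩, fun {a} ha p hp => by simp [ha p hp]⟩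

variable [Fintype ON] [Fintype BN]

variable (ON BN) in
noncomputable def k0 : ℕ := Fintype.card (VN ON BN)

noncomputable def idx (v : VN ON BN) : ℕ := Fintype.equivFin _ v

theorem idx_inj : Function.Injective (idx (ON := ON) (BN := BN)) :=
  fun _ _ h => (Fintype.equivFin _).injective (Fin.ext h)

theorem idx_lt (v : VN ON BN) : idx v < k0 ON BN := (Fintype.equivFin _ v).2

noncomputable def PM.K (m : PM ON BN) (n : ℕ) : AddSubgroup (Fin 3 → m.X → ZMod 2) :=
  ⨅ v, ⨅ _ : idx v = n, m.kv v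

noncomputable def PM.Ker (m : PM ON BN) (S : Finset ℕ) : AddSubgroup (Fin 3 → m.X → ZMod 2) :=
  ⨅ n ∈ S, m.K n

theorem PM.mem_single (m : PM ON BN) (v : VN ON BN) (ω) : ω ∈ m.Ker {idx v} ↔ ω ∈ m.kv v := by
  simp [PM.Ker, PM.K, idx_inj.eq_iff]

theorem PM.mem_union (m : PM ON BN) (x y : Finset ℕ) (ω) :
    ω ∈ m.Ker (x ∪ y) ↔ ω ∈ m.Ker x ∧ ω ∈ m.Ker y := by
  simp only [PM.Ker, AddSubgroup.mem_iInf, Finset.mem_union, or_imp, forall_and]

theorem PM.mem_biUnion (m : PM ON BN) (s : Finset ℕ) (f : ℕ → Finset ℕ) (ω) :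
    ω ∈ m.Ker (s.biUnion f) ↔ ∀ i ∈ s, ω ∈ m.Ker (f i) := by
  simp only [PM.Ker, AddSubgroup.mem_iInf, Finset.mem_biUnion]
  exact ⟨fun h i hi n hn => h n ⟨i, hi, hn⟩, fun h n ⟨i, hi, hn⟩ => h i hi n hn⟩

theorem PM.Ker_union (m : PM ON BN) (x y : Finset ℕ) : m.Ker (x ∪ y) = m.Ker x ⊓ m.Ker y :=
  AddSubgroup.ext fun ω => m.mem_union x y ω

noncomputable def obv (ON : Type) [Fintype ON] (s : BN) : Ob := fun j => {idx (ON := ON) (.inr (s, j))}

open Classical in
noncomputable def opv (BN : Type) [Fintype BN] (one t : ON) : Op := fun i j =>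
  {idx (BN := BN) (.inl (t, i, j))} ∪ if t = one then {idx (BN := BN) (.inl (t, j, i))} else ∅

theorem obv_sub (s : BN) (j : Fin 3) : obv ON s j ⊆ range (k0 ON BN) := by
  simp [obv, idx_lt]

theorem opv_sub (one t : ON) (i j : Fin 3) : opv BN one t i j ⊆ range (k0 ON BN) := by
  unfold opv
  split_ifs <;> simp [idx_lt, insert_subset_iff]

theorem PM.mem_obv (m : PM ON BN) (s : BN) (j : Fin 3) (ω) :
    ω ∈ m.Ker (obv ON s j) ↔ ∀ p, m.ob s p → ω j p = 0 := m.mem_single _ ω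

theorem PM.mem_opv (m : PM ON BN) {one : ON} (h1 : ∀ p, m.op one p = some p) (t : ON) (i j : Fin 3)
    (ω) : ω ∈ m.Ker (opv BN one t i j) ↔ ∀ p, ω i p = ext0 (ω j) (m.op t p) := by
  unfold opv
  split_ifs with h
  · rw [m.mem_union, m.mem_single, m.mem_single]
    refine and_iff_left_of_imp fun h2 p => ?_
    have := h2 p
    rw [h, h1] at this ⊢
    exact this.symm
  · rw [union_empty, m.mem_single]; rfl

theorem PM.dim_obv (m : PM ON BN) (s : BN) :
    grk m.K (obv ON s 0) = Nat.card {p // m.ob s p} * Real.log 2 := by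
  classical
  let f : (Fin 3 → m.X → ZMod 2) →+ ({p // m.ob s p} → ZMod 2) :=
    ⟨⟨fun ω p => ω 0 p, rfl⟩, fun _ _ => rfl⟩
  have h1 : m.Ker (obv ON s 0) = f.ker := AddSubgroup.ext fun ω => by
    rw [m.mem_obv, AddMonoidHom.mem_ker, funext_iff]
    exact ⟨fun h p => h p p.2, fun h p hp => h ⟨p, hp⟩⟩
  have h2 : f.range = ⊤ := AddMonoidHom.range_eq_top.2 fun g =>
    ⟨fun _ p => if h : m.ob s p then g ⟨p, h⟩ else 0, funext fun p => dif_pos p.2⟩
  change Real.log ((m.Ker _).index) = _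
  rw [h1, AddSubgroup.index_ker, h2, AddSubgroup.card_top, Nat.card_fun, Nat.card_zmod,
    Nat.cast_pow, Real.log_pow]
  rfl

variable (𝓜 : PM ON BN → Prop)

open Classical in
/-- The sum of all conditional informations that vanish in all models. -/
noncomputable def Berr (h : Finset ℕ → ℝ) : ℝ :=
  ∑ q ∈ ((range (k0 ON BN)).powerset ×ˢ (range (k0 ON BN)).powerset ×ˢ
    (range (k0 ON BN)).powerset).filter fun q => ∀ m, 𝓜 m → CI (grk m.K) q.1 q.2.1 q.2.2 = 0,
    CI h q.1 q.2.1 q.2.2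

theorem Berr_model {m : PM ON BN} (hm : 𝓜 m) : Berr 𝓜 (grk m.K) = 0 := by
  classical
  exact sum_eq_zero fun _ hq => (mem_filter.1 hq).2 m hm

variable {𝓜} {h : Finset ℕ → ℝ} (H : Sat h)
include H

theorem le_Berr {x y z : Finset ℕ} (hx : x ⊆ range (k0 ON BN)) (hy : y ⊆ range (k0 ON BN))
    (hz : z ⊆ range (k0 ON BN)) (hc : ∀ m, 𝓜 m → CI (grk m.K) x y z = 0) :
    CI h x y z ≤ Berr 𝓜 h := by
  classical
  refine single_le_sum (f := fun q : Finset ℕ × Finset ℕ × Finset ℕ => CI h q.1 q.2.1 q.2.2)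
    (fun q _ => H.CI_nonneg _ _ _) (a := (x, y, z)) ?_
  simp only [mem_filter, mem_product, mem_powerset]
  exact ⟨⟨hx, hy, hz⟩, hc⟩

theorem cD {x z : Finset ℕ} (hx : x ⊆ range (k0 ON BN)) (hz : z ⊆ range (k0 ON BN))
    (hc : ∀ m, 𝓜 m → ∀ ω ∈ m.Ker z, ω ∈ m.Ker x) : DD h x z ≤ Berr 𝓜 h := by
  rw [← CI_self]
  refine le_Berr H hx hx hz fun m hm => ?_
  rw [CI_self]
  change Real.log ((m.Ker _).index) - Real.log ((m.Ker _).index) = 0
  rw [m.Ker_union, inf_eq_right.2 (hc m hm), sub_self]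

theorem cI {x y : Finset ℕ} (hx : x ⊆ range (k0 ON BN)) (hy : y ⊆ range (k0 ON BN))
    (hc : ∀ m, 𝓜 m → ∀ ω, ∃ ω1 ∈ m.Ker x, ω - ω1 ∈ m.Ker y) : CI h x y ∅ ≤ Berr 𝓜 h := by
  refine le_Berr H hx hy (empty_subset _) fun m hm => ?_
  have h1 : m.Ker x ⊔ m.Ker y = ⊤ := eq_top_iff.2 fun ω _ => by
    obtain ⟨a, ha, hb⟩ := hc m hm ω
    exact AddSubgroup.mem_sup.2 ⟨a, ha, _, hb, by abel⟩
  have h2 : (m.Ker (x ∪ y)).index = (m.Ker y).index * (m.Ker x).index := by
    rw [m.Ker_union, ← AddSubgroup.relIndex_mul_index inf_le_left, AddSubgroup.inf_relIndex_left,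
      ← AddSubgroup.relIndex_sup_right, h1, AddSubgroup.relIndex_top_right]
  have h3 : grk m.K ∅ = 0 := by simp [grk]
  unfold CI
  simp only [union_empty, h3]
  change Real.log ((m.Ker _).index) + Real.log ((m.Ker _).index) - Real.log ((m.Ker _).index) - 0 = 0
  rw [h2, Nat.cast_mul, Real.log_mul (by exact_mod_cast AddSubgroup.index_ne_zero_of_finite)
    (by exact_mod_cast AddSubgroup.index_ne_zero_of_finite)]
  ring

variable (𝓜) in
/-- The frame given by the named variables. -/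
noncomputable def frame (one : ON) (top : BN) : Fr where
  h := h
  sat := H
  B := Berr 𝓜 h
  b := obv ON top
  e := opv BN one one
  esym := fun i j => by simp only [opv, if_true]; exact union_comm _ _
  ind := fun i j k hij hik _ => by
    classical
    refine cI H (obv_sub _ _) (union_subset (obv_sub _ _) (obv_sub _ _)) fun m _ ω =>
      ⟨Function.update ω i 0, ?_, ?_⟩
    · simp [m.mem_obv]
    · simp [m.mem_union, m.mem_obv, hij.symm, hik.symm]

theorem frame_E0 (one : ON) (top : BN) : (frame 𝓜 H one top).E 0 = Berr 𝓜 h := by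
  simp [Fr.E, frame]

variable {one : ON} {top : BN} (h1 : ∀ m, 𝓜 m → ∀ p, m.op one p = some p)
  (h2 : ∀ m, 𝓜 m → ∀ p, m.ob top p)
include h1 h2

theorem frame_op (t : ON) : (frame 𝓜 H one top).IsOp (opv BN one t) := by
  classical
  refine ⟨fun i j _ => cD H (opv_sub _ _ _ _) (union_subset (obv_sub _ _) (obv_sub _ _)) ?_,
    fun i j _ => cD H (obv_sub _ _) (union_subset (obv_sub _ _) (opv_sub _ _ _ _)) ?_,
    fun i j k hij hik _ => cI H (opv_sub _ _ _ _) (union_subset (obv_sub _ _) (obv_sub _ _))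
      fun m hm ω => ⟨Function.update ω i fun p => ext0 (ω j) (m.op t p), ?_, ?_⟩,
    fun i j k _ _ _ => cD H (opv_sub _ _ _ _) (union_subset (opv_sub _ _ _ _) (opv_sub _ _ _ _)) ?_,
    fun i j k _ _ _ => cD H (opv_sub _ _ _ _) (union_subset (opv_sub _ _ _ _) (opv_sub _ _ _ _)) ?_⟩
  · intro m hm ω
    simp only [frame, m.mem_union, m.mem_obv, m.mem_opv (h1 m hm), h2 m hm, true_imp_iff]
    exact fun a p => by rw [a.1, ext0_zero a.2]
  · intro m hm ω
    simp only [frame, m.mem_union, m.mem_obv, m.mem_opv (h1 m hm), h2 m hm, true_imp_iff]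
    exact fun a p => by rw [a.2, ext0_zero a.1]
  · simp [m.mem_opv (h1 m hm), hij.symm]
  · simp [frame, m.mem_union, m.mem_obv, hij.symm, hik.symm]
  · intro m hm ω
    simp only [frame, m.mem_union, m.mem_opv (h1 m hm), h1 m hm]
    exact fun a p => (a.2 p).trans (a.1 p)
  · intro m hm ω
    simp only [frame, m.mem_union, m.mem_opv (h1 m hm), h1 m hm]
    exact fun a p => by rw [a.1 p, show ω j = ω k from funext a.2]

theorem frame_rel {z x y : ON} (hc : ∀ m, 𝓜 m → ∀ p, m.op z p = (m.op x p).bind (m.op y)) :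
    (frame 𝓜 H one top).Rel (opv BN one z) (opv BN one x) (opv BN one y) := by
  refine ⟨frame_op H h1 h2 z, frame_op H h1 h2 x, frame_op H h1 h2 y,
    fun i j k _ _ _ => cD H (opv_sub _ _ _ _) (union_subset (opv_sub _ _ _ _) (opv_sub _ _ _ _)) ?_,
    fun i j k _ _ _ => cD H (opv_sub _ _ _ _) (union_subset (opv_sub _ _ _ _) (opv_sub _ _ _ _)) ?_⟩
  · intro m hm ω
    simp only [m.mem_union, m.mem_opv (h1 m hm), hc m hm]
    refine fun a p => (a.1 p).trans ?_
    cases m.op x p with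
    | none => rfl
    | some q => exact (a.2 q).symm
  · intro m hm ω
    simp only [m.mem_union, m.mem_opv (h1 m hm), hc m hm]
    refine fun a p => (a.1 p).trans ?_
    cases m.op x p with
    | none => rfl
    | some q => exact a.2 q

omit h2 in
theorem frame_sub {s s' : BN} {t : ON}
    (hc : ∀ m, 𝓜 m → ∀ p q, m.ob s p → m.op t p = some q → m.ob s' q) :
    (frame 𝓜 H one top).Sub 0 (obv ON s) (opv BN one t) (obv ON s') := fun i j _ => by
  rw [frame_E0]
  refine cD H (obv_sub _ _) (union_subset (obv_sub _ _) (opv_sub _ _ _ _)) fun m hm ω => ?_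
  simp only [m.mem_union, m.mem_obv, m.mem_opv (h1 m hm)]
  refine fun a p hp => (a.2 p).trans ?_
  cases e : m.op t p with
  | none => rfl
  | some q => exact a.1 q (hc m hm p q hp e)

omit h2 in
theorem frame_sup {s s' : BN} {t : ON}
    (hc : ∀ m, 𝓜 m → ∀ q, m.ob s' q → ∃ p, m.ob s p ∧ m.op t p = some q) :
    (frame 𝓜 H one top).Sup 0 (obv ON s) (opv BN one t) (obv ON s') := fun i j _ => by
  rw [frame_E0]
  refine cD H (obv_sub _ _) (union_subset (obv_sub _ _) (opv_sub _ _ _ _)) fun m hm ω => ?_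
  simp only [m.mem_union, m.mem_obv, m.mem_opv (h1 m hm)]
  intro a q hq
  obtain ⟨p, hp, e⟩ := hc m hm q hq
  have := a.2 p
  rw [e, a.1 p hp] at this
  exact this.symm

omit h1 h2 in
theorem frame_cov {s s1 s2 : BN} (hc : ∀ m, 𝓜 m → ∀ p, m.ob s p → m.ob s1 p ∨ m.ob s2 p) :
    (frame 𝓜 H one top).Le 0 (obv ON s) (obv ON s1 ⊔ obv ON s2) := fun j => by
  rw [frame_E0]
  refine cD H (obv_sub _ _) (union_subset (obv_sub _ _) (obv_sub _ _)) fun m hm ω hω => ?_
  have a := (m.mem_union _ _ _).1 hω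
  simp only [m.mem_obv] at a ⊢
  exact fun p hp => (hc m hm p hp).elim (a.1 p) (a.2 p)

theorem frame_qual (s : BN) : (frame 𝓜 H one top).Qual 0 (obv ON s) := by
  refine ⟨?_, frame_sub H h1 fun m hm p q hp e => ?_⟩
  · have := frame_cov H (one := one) (top := top) (s := s) (s1 := top) (s2 := top) fun m hm p _ => Or.inl (h2 m hm p)
    rwa [sup_idem] at this
  · rw [h1 m hm] at e
    exact Option.some.inj e ▸ hp

omit h1 h2 in
theorem frame_ind {P : ℕ → BN} {i : ℕ} (hc : ∀ m, 𝓜 m → ∀ j < i, ∀ p, m.ob (P i) p → ¬ m.ob (P j) p) :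
    CI h (obv ON (P i) 0) ((range i).biUnion fun j => obv ON (P j) 0) ∅ ≤ Berr 𝓜 h := by
  classical
  refine cI H (obv_sub _ _) (biUnion_subset.2 fun _ _ => obv_sub _ _) fun m hm ω =>
    ⟨fun j p => if m.ob (P i) p then 0 else ω j p, ?_, ?_⟩
  · rw [m.mem_obv]
    exact fun p hp => if_pos hp
  · rw [m.mem_biUnion]
    intro j hj
    rw [m.mem_obv]
    intro p hp
    have : ¬ m.ob (P i) p := fun h => hc m hm j (mem_range.1 hj) p h hp
    simp [this]

end Pool.Agent.Lib.MP_b69f85_lc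
end

-- part Pool.Agent.Lib.MP_b69f85_lc.Prog
section

namespace Pool.Agent.Lib.MP_b69f85_lc

open Finset

/-- Programs on two stacks. -/
structure Prog where
  Γ : Type
  Q : Type
  R : Type
  [fΓ : Fintype Γ]
  [fQ : Fintype Q]
  [fR : Fintype R]
  src : R → Q
  tgt : R → Q
  pop : R → Option (Bool × Γ)
  push : R → Option (Bool × Γ)
  grd : R → Option Bool
  g : Q
  g1 : Q
  g2 : Q

attribute [instance] Prog.fΓ Prog.fQ Prog.fR

def psh {Γ : Type} : Option (Bool × Γ) → (Bool → List Γ) → Bool → List Γ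
  | none, p => p
  | some c, p => Function.update p c.1 (c.2 :: p c.1)

theorem psh_len {Γ : Type} (o : Option (Bool × Γ)) (p : Bool → List Γ) (s : Bool) :
    (p s).length ≤ (psh o p s).length ∧ (psh o p s).length ≤ (p s).length + 1 := by
  rcases o with _ | ⟨b, a⟩
  · simp [psh]
  · by_cases h : s = b
    · subst h; simp [psh]
    · simp [psh, h]

theorem psh_inj {Γ : Type} (o : Option (Bool × Γ)) : Function.Injective (psh o) := by
  rcases o with _ | ⟨b, a⟩
  · exact fun _ _ h => h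
  · intro p q h
    funext s
    have := congrFun h s
    by_cases e : s = b
    · subst e; simpa [psh] using this
    · simpa [psh, e] using this

theorem psh_comm {Γ : Type} {c d : Bool × Γ} (h : c.1 ≠ d.1) (p : Bool → List Γ) :
    psh (some c) (psh (some d) p) = psh (some d) (psh (some c) p) := by
  simp only [psh, Function.update_of_ne h, Function.update_of_ne h.symm]
  exact Function.update_comm h.symm _ _ _

namespace Prog

variable (P : Prog)

/-- Finite systems of tokens closed under the rules of the program. -/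
structure Tok where
  Y : Type
  [fin : Fintype Y]
  N : ℕ
  st : P.Q → Y → Prop
  act : Y → (Bool → List P.Γ) → Prop
  ch : P.R → Fin 8192 → Y → Option Y
  bnd : ∀ y p, act y p → ∀ s, (p s).length ≤ N
  clo : ∀ τ i y p, st (P.src τ) y → (∀ s ∈ P.grd τ, p s = []) → act y (psh (P.pop τ) p) →
    ∃ y', ch τ i y = some y' ∧ act y' (psh (P.push τ) p)
  inj : ∀ τ i j y y' z, ch τ i y = some z → ch τ j y' = some z → i = j ∧ y = y'
  stt : ∀ τ i y y', st (P.src τ) y → ch τ i y = some y' → st (P.tgt τ) y'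
  cov : ∀ y, st P.g y → st P.g1 y ∨ st P.g2 y

attribute [instance] Tok.fin

abbrev Bas : Type := Option (Bool × P.Γ) ⊕ Option P.R ⊕ (Bool × P.R × Fin 8192)
abbrev ON : Type := P.Bas × P.Bas × P.Bas
abbrev BN : Type := Bool ⊕ P.Q ⊕ (P.R × Fin 8192)

variable {P}

namespace Tok

variable (T : P.Tok)

abbrev X : Type := {p : Bool → List P.Γ // ∀ s, (p s).length ≤ T.N} × T.Y

noncomputable instance : Fintype T.X := by
  have : Finite {p : Bool → List P.Γ // ∀ s, (p s).length ≤ T.N} :=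
    (Set.Finite.pi' fun _ : Bool => List.finite_length_le P.Γ T.N).to_subtype
  exact Fintype.ofFinite _

open Classical in
noncomputable def mv (o : Option (Bool × P.Γ)) (x : T.X) : Option T.X :=
  if h : ∀ s, (psh o x.1.1 s).length ≤ T.N then some (⟨psh o x.1.1, h⟩, x.2) else none

open Classical in
noncomputable def fl (c : T.X → Prop) (x : T.X) : Option T.X := if c x then some x else none

noncomputable def pi : T.X → Option T.X := T.fl fun x => T.act x.2 x.1.1

noncomputable def lam (τ : P.R) : T.X → Option T.X :=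
  T.fl fun x => T.st (P.src τ) x.2 ∧ ∀ s ∈ P.grd τ, x.1.1 s = []

def rho (τ : P.R) (i : Fin 8192) (x : T.X) : Option T.X := (T.ch τ i x.2).map fun y => (x.1, y)

noncomputable def LL (τ : P.R) (x : T.X) : Option T.X :=
  (T.lam τ x).bind fun y => (T.mv (P.pop τ) y).bind T.pi

noncomputable def GG (τ : P.R) (i : Fin 8192) (x : T.X) : Option T.X :=
  (T.rho τ i x).bind fun y => (T.mv (P.push τ) y).bind T.pi

open Classical in
noncomputable def rr (τ : P.R) (i : Fin 8192) (z : T.X) : Option T.X :=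
  if h : ∃ x, T.GG τ i x = some z then T.LL τ h.choose else none

noncomputable def ev : P.Bas → T.X → Option T.X
  | .inl o => T.mv o
  | .inr (.inl none) => T.pi
  | .inr (.inl (some τ)) => T.lam τ
  | .inr (.inr (false, τ, i)) => T.rho τ i
  | .inr (.inr (true, τ, i)) => T.rr τ i

def ob : P.BN → T.X → Prop
  | .inl true => fun _ => True
  | .inl false => fun x => x.1.1 = (fun _ => []) ∧ T.st P.g x.2 ∧ T.act x.2 fun _ => []
  | .inr (.inl q) => fun x => x.1.1 = (fun _ => []) ∧ T.st q x.2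
  | .inr (.inr (τ, i)) => fun x => ∃ y, T.ch τ i y = some x.2

noncomputable def model : PM P.ON P.BN where
  X := T.X
  op := fun w x => (T.ev w.1 x).bind fun y => (T.ev w.2.1 y).bind (T.ev w.2.2)
  ob := T.ob

variable {T}

theorem mv_iff {o : Option (Bool × P.Γ)} {x y : T.X} :
    T.mv o x = some y ↔ y.1.1 = psh o x.1.1 ∧ y.2 = x.2 := by
  unfold mv
  split_ifs with h
  · rw [Option.some.injEq]
    exact ⟨by rintro rfl; exact ⟨rfl, rfl⟩, fun a => Prod.ext (Subtype.ext a.1.symm) a.2.symm⟩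
  · exact ⟨by simp, fun a => absurd (a.1 ▸ y.1.2) h⟩

theorem mv_none : T.mv none = some := funext fun _ => mv_iff.2 ⟨rfl, rfl⟩

theorem fl_iff {c : T.X → Prop} {x y : T.X} : T.fl c x = some y ↔ c x ∧ x = y := by
  unfold fl; split_ifs with h <;> simp [h]

theorem rho_iff {τ : P.R} {i : Fin 8192} {x y : T.X} :
    T.rho τ i x = some y ↔ T.ch τ i x.2 = some y.2 ∧ y.1 = x.1 := by
  simp only [rho, Option.map_eq_some_iff]
  exact ⟨by rintro ⟨a, h, rfl⟩; exact ⟨h, rfl⟩, fun a => ⟨_, a.1, Prod.ext a.2.symm rfl⟩⟩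

theorem mv_mv {a b : Option (Bool × P.Γ)} {x y : T.X} :
    (T.mv a x).bind (T.mv b) = some y ↔ y.1.1 = psh b (psh a x.1.1) ∧ y.2 = x.2 := by
  simp only [Option.bind_eq_some_iff, mv_iff]
  refine ⟨fun ⟨z, h1, h2⟩ => ⟨h1.1 ▸ h2.1, h2.2.trans h1.2⟩, fun h =>
    ⟨(⟨psh a x.1.1, fun s => (psh_len b _ s).1.trans (h.1 ▸ y.1.2 s)⟩, x.2), ⟨rfl, rfl⟩, h⟩⟩

theorem com_mv {c d : Bool × P.Γ} (h : c.1 ≠ d.1) (x : T.X) :
    (T.mv (some c) x).bind (T.mv (some d)) = (T.mv (some d) x).bind (T.mv (some c)) :=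
  Option.ext fun y => by rw [mv_mv, mv_mv, psh_comm h]

theorem com_lam {τ : P.R} {c : Bool × P.Γ} (h : P.grd τ ≠ some c.1) (x : T.X) :
    (T.lam τ x).bind (T.mv (some c)) = (T.mv (some c) x).bind (T.lam τ) := by
  refine Option.ext fun y => ?_
  have key : ∀ p : Bool → List P.Γ, (∀ s ∈ P.grd τ, psh (some c) p s = []) ↔
      ∀ s ∈ P.grd τ, p s = [] := fun p => forall₂_congr fun s hs => by
    have : s ≠ c.1 := fun e => h (e ▸ hs)
    simp [psh, this]
  simp only [lam, Option.bind_eq_some_iff, fl_iff]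
  constructor
  · rintro ⟨_, ⟨h1, rfl⟩, h2⟩
    have h3 := mv_iff.1 h2
    exact ⟨y, h2, ⟨h3.2 ▸ h1.1, by rw [h3.1, key]; exact h1.2⟩, rfl⟩
  · rintro ⟨_, h2, h1, rfl⟩
    have h3 := mv_iff.1 h2
    exact ⟨x, ⟨⟨h3.2 ▸ h1.1, by rw [← key, ← h3.1]; exact h1.2⟩, rfl⟩, h2⟩

theorem com_rho (τ : P.R) (i : Fin 8192) (o : Option (Bool × P.Γ)) (x : T.X) :
    (T.rho τ i x).bind (T.mv o) = (T.mv o x).bind (T.rho τ i) := by
  refine Option.ext fun y => ?_
  simp only [Option.bind_eq_some_iff, rho_iff, mv_iff]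
  constructor
  · rintro ⟨z, ⟨h1, h2⟩, h3, h4⟩
    exact ⟨(y.1, x.2), ⟨h2 ▸ h3, rfl⟩, h4 ▸ h1, rfl⟩
  · rintro ⟨z, ⟨h1, h2⟩, h3, h4⟩
    exact ⟨(x.1, y.2), ⟨h2 ▸ h3, rfl⟩, h4 ▸ h1, rfl⟩

theorem GG_iff {τ : P.R} {i : Fin 8192} {x z : T.X} : T.GG τ i x = some z ↔
    T.ch τ i x.2 = some z.2 ∧ z.1.1 = psh (P.push τ) x.1.1 ∧ T.act z.2 z.1.1 := by
  simp only [GG, pi, Option.bind_eq_some_iff, rho_iff, mv_iff, fl_iff]
  constructor
  · rintro ⟨a, ⟨h1, h2⟩, _, ⟨h3, h4⟩, h5, rfl⟩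
    exact ⟨h4 ▸ h1, h2 ▸ h3, h5⟩
  · rintro ⟨h1, h2, h3⟩
    exact ⟨(x.1, z.2), ⟨h1, rfl⟩, z, ⟨h2, rfl⟩, h3, rfl⟩

theorem LL_eq (τ : P.R) (i : Fin 8192) (x : T.X) : T.LL τ x = (T.GG τ i x).bind (T.rr τ i) := by
  cases e : T.GG τ i x with
  | none =>
    refine Option.eq_none_iff_forall_ne_some.2 fun w hw => ?_
    simp only [LL, pi, lam, Option.bind_eq_some_iff, mv_iff, fl_iff] at hw
    obtain ⟨_, ⟨h1, rfl⟩, a, ⟨h2, h3⟩, h4, rfl⟩ := hw
    obtain ⟨y, h5, h6⟩ := T.clo τ i x.2 x.1.1 h1.1 h1.2 (h2 ▸ h3 ▸ h4)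
    have := (GG_iff (z := (⟨_, T.bnd _ _ h6⟩, y))).2 ⟨h5, rfl, h6⟩
    rw [e] at this
    cases this
  | some z =>
    have h : ∃ x, T.GG τ i x = some z := ⟨x, e⟩
    have h1 := GG_iff.1 h.choose_spec
    have h2 := GG_iff.1 e
    have : h.choose = x := Prod.ext (Subtype.ext (psh_inj _ (h1.2.1.symm.trans h2.2.1)))
      (T.inj _ _ _ _ _ _ h1.1 h2.1).2
    rw [Option.bind_some, rr, dif_pos h, this]

end Tok

variable (P)

def MM : PM P.ON P.BN → Prop := fun m => ∃ T : P.Tok, m = T.model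

def w1 (a : P.Bas) : P.ON := (a, .inl none, .inl none)

def LStep (τ : P.R) (l l' : List (Bool × P.Γ)) : Prop :=
  ∃ l1 l2, l = l2 ++ ((P.pop τ).toList ++ l1) ∧ l' = (P.push τ).toList ++ (l2 ++ l1) ∧
    (∀ x ∈ P.pop τ, ∀ c ∈ l2, x.1 ≠ c.1) ∧ ∀ c ∈ l2 ++ l1, P.grd τ ≠ some c.1

def Inf (q : P.Q) (l : List (Bool × P.Γ)) : Prop :=
  ∃ (f : ℕ → P.R) (ls : ℕ → List (Bool × P.Γ)), P.src (f 0) = q ∧ ls 0 = l ∧
    ∀ t, P.LStep (f t) (ls t) (ls (t + 1)) ∧ P.tgt (f t) = P.src (f (t + 1))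

noncomputable def ov (w : P.ON) : Op := opv P.BN (P.w1 (.inl none)) w
noncomputable def bv (s : P.BN) : Ob := obv P.ON s

variable {P} {h : Finset ℕ → ℝ} (H : Sat h)

noncomputable def fr : Fr := frame P.MM H (P.w1 (.inl none)) (.inl true)

noncomputable def dd (q : P.Q) (l : List (Bool × P.Γ)) : ℝ :=
  (fr (P := P) H).dm (fun c => P.ov (P.w1 (.inl (some c)))) (P.ov (P.w1 (.inr (.inl none))))
    (P.bv (.inr (.inl q))) l

omit H in
theorem m1 : ∀ m, P.MM m → ∀ p, m.op (P.w1 (.inl none)) p = some p := by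
  rintro _ ⟨T, rfl⟩ p
  simp [Tok.model, w1, Tok.ev, Tok.mv_none]

omit H in
theorem m2 : ∀ m, P.MM m → ∀ p, m.ob (.inl true) p := by
  rintro _ ⟨T, rfl⟩ p
  trivial

theorem isop (w : P.ON) : (fr (P := P) H).IsOp (P.ov w) := frame_op H m1 m2 w

theorem qual (s : P.BN) : (fr (P := P) H).Qual 0 (P.bv s) := frame_qual H m1 m2 s

theorem rel12 (a b : P.Bas) :
    (fr (P := P) H).Rel (P.ov (a, b, .inl none)) (P.ov (P.w1 a)) (P.ov (P.w1 b)) := by
  refine frame_rel H m1 m2 ?_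
  rintro _ ⟨T, rfl⟩ p
  simp [Tok.model, w1, Tok.ev, Tok.mv_none]

theorem rel23 (a b c : P.Bas) :
    (fr (P := P) H).Rel (P.ov (a, b, c)) (P.ov (a, b, .inl none)) (P.ov (P.w1 c)) := by
  refine frame_rel H m1 m2 ?_
  rintro _ ⟨T, rfl⟩ p
  simp [Tok.model, w1, Tok.ev, Tok.mv_none, Option.bind_assoc]

theorem com {a b : P.Bas} (hc : ∀ (T : P.Tok) x, (T.ev a x).bind (T.ev b) = (T.ev b x).bind (T.ev a)) :
    (fr (P := P) H).Com (P.ov (P.w1 a)) (P.ov (P.w1 b)) := by
  refine ⟨_, rel12 H a b, frame_rel H m1 m2 ?_⟩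
  rintro _ ⟨T, rfl⟩ p
  have := hc T p
  simpa [Tok.model, w1, Tok.ev, Tok.mv_none] using this

theorem opt_eq (o : Option (Bool × P.Γ)) :
    (fr (P := P) H).opt (fun c => P.ov (P.w1 (.inl (some c)))) o = P.ov (P.w1 (.inl o)) := by
  cases o <;> rfl

theorem dd_step {τ : P.R} {l l' : List (Bool × P.Γ)} (hs : P.LStep τ l l') :
    8192 * dd H (P.src τ) l ≤ dd H (P.tgt τ) l' + 8192 * (fr (P := P) H).E (2 * l.length + 8) := by
  obtain ⟨l1, l2, rfl, rfl, c1, c2⟩ := hs
  have key := Fr.step (F := fr (P := P) H) (isop H _) (fun c => isop H (P.w1 (.inl (some c))))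
    (π := P.ov (P.w1 (.inr (.inl none))))
    (Λ := P.ov (P.w1 (.inr (.inl (some τ)))))
    (A := P.ov (.inr (.inl (some τ)), .inl (P.pop τ), .inl none))
    (L := P.ov (.inr (.inl (some τ)), .inl (P.pop τ), .inr (.inl none)))
    (ρ := fun i => P.ov (P.w1 (.inr (.inr (false, τ, Fin.ofNat 8192 i)))))
    (Fi := fun i => P.ov (.inr (.inr (false, τ, Fin.ofNat 8192 i)), .inl (P.push τ), .inl none))
    (G := fun i => P.ov (.inr (.inr (false, τ, Fin.ofNat 8192 i)), .inl (P.push τ), .inr (.inl none)))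
    (r := fun i => P.ov (P.w1 (.inr (.inr (true, τ, Fin.ofNat 8192 i)))))
    (P := fun i => P.bv (.inr (.inr (τ, Fin.ofNat 8192 i))))
    (pop := P.pop τ) (push := P.push τ) (l1 := l1) (l2 := l2)
    (qual H (.inr (.inl (P.src τ)))) (qual H (.inr (.inl (P.tgt τ)))) (frame_sup H m1 ?_)
    (fun c hc => com H fun T => Tok.com_lam (c2 c hc))
    (fun x hx c hc => com H fun T => Tok.com_mv (c1 x hx c hc))
    (by rw [opt_eq]; exact rel12 H _ _) (rel23 H _ _ _) (fun i _ => frame_sub H m1 ?_)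
    (fun i _ c => com H fun T => Tok.com_rho _ _ _) (fun i _ => by rw [opt_eq]; exact rel12 H _ _)
    (fun i _ => rel23 H _ _ _) (fun i _ => frame_rel H m1 m2 ?_) (fun i _ => frame_sub H m1 ?_)
    (fun i _ => (qual H _).1)
    (fun i hi => frame_ind H (P := fun i => (.inr (.inr (τ, Fin.ofNat 8192 i)) : P.BN)) ?_)
  · refine key.trans (add_le_add_right (mul_le_mul_of_nonneg_left (Fr.E_mono _ ?_) (by norm_num)) _)
    simp only [List.length_append]; omega
  · rintro _ ⟨T, rfl⟩ x hx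
    refine ⟨x, hx, ?_⟩
    have : T.lam τ x = some x := Tok.fl_iff.2 ⟨⟨hx.2, fun s _ => congrFun hx.1 s⟩, rfl⟩
    simp [Tok.model, w1, Tok.ev, Tok.mv_none, this]
  · rintro _ ⟨T, rfl⟩ x y hx e
    have : T.rho τ (Fin.ofNat 8192 i) x = some y := by
      simpa [Tok.model, w1, Tok.ev, Tok.mv_none] using e
    have := Tok.rho_iff.1 this
    exact ⟨this.2 ▸ hx.1, T.stt _ _ _ _ hx.2 this.1⟩
  · rintro _ ⟨T, rfl⟩ x
    have := Tok.LL_eq τ (Fin.ofNat 8192 i) x
    simpa [Tok.model, w1, Tok.ev, Tok.mv_none, Tok.LL, Tok.GG] using this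
  · rintro _ ⟨T, rfl⟩ x y _ e
    exact ⟨_, (Tok.GG_iff.1 e).1⟩
  · rintro _ ⟨T, rfl⟩ j hj x ⟨a, ha⟩ ⟨b, hb⟩
    have := congrArg Fin.val (T.inj _ _ _ _ _ _ ha hb).1
    simp only [Fin.val_ofNat] at this
    omega

theorem dd_inf {q : P.Q} {l : List (Bool × P.Γ)} (hi : P.Inf q l) :
    dd H q l ≤ 2 * (fr (P := P) H).E (2 * l.length + 8) := by
  obtain ⟨f, ls, rfl, rfl, hs⟩ := hi
  have len : ∀ t, (ls t).length ≤ (ls 0).length + t := by
    intro t
    induction t with
    | zero => simp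
    | succ t ih =>
      obtain ⟨l1, l2, e1, e2, -⟩ := (hs t).1
      rw [e1] at ih
      rw [e2]
      have : (P.push (f t)).toList.length ≤ 1 := by cases P.push (f t) <;> simp
      simp only [List.length_append] at ih ⊢
      omega
  have eE : ∀ t, (fr (P := P) H).E (2 * (ls t).length + 8) ≤
      4096 ^ t * (fr (P := P) H).E (2 * (ls 0).length + 8) := fun t => by
    refine (Fr.E_mono _ (n := 2 * t + (2 * (ls 0).length + 8)) (by have := len t; omega)).trans ?_
    unfold Fr.E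
    rw [pow_add, pow_mul, mul_assoc]
    norm_num
  refine chain_real (fun t => dd H (P.src (f t)) (ls t)) (M := h (P.bv (.inl true) 0)) (Fr.E0 _ _)
    (fun t => ?_) fun t => ?_
  · have := dd_step H (hs t).1
    rw [(hs t).2] at this
    linarith [eE t]
  · refine (Fr.dm_b (isop H _) (fun c => isop H _) (isop H _) (qual H _) _).trans ?_
    exact add_le_add_right ((Fr.E_mono _ (by omega)).trans (eE t)) _

open Classical in
/-- The halting set below `N` written in base `8192`. -/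
noncomputable def SS (Hl : ℕ → Prop) : ℕ → ℕ
  | 0 => 0
  | n + 1 => 8192 * (SS Hl n + if Hl n then 1 else 0)

omit H in
theorem upper (Hl : ℕ → Prop) (x0 : Bool × P.Γ) (τ : P.R) (e1 : P.src τ = P.g2) (e2 : P.tgt τ = P.g)
    (e3 : P.pop τ = none) (e4 : P.push τ = some x0) (e5 : P.grd τ = none)
    (hH : ∀ n, ¬ Hl n → P.Inf P.g1 (List.replicate n x0)) (N : ℕ) :
    ∃ M : ℕ, ∀ h, Sat h → 8192 ^ N * h (P.bv (.inl false) 0) ≤
      SS Hl N * h (P.bv (.inr (.inl P.g1)) 0) + h (P.bv (.inr (.inl P.g)) 0) + M * Berr P.MM h := by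
  have key : ∀ n : ℕ, ∃ M : ℕ, ∀ h (H : Sat h), 8192 ^ n * h (P.bv (.inl false) 0) ≤
      SS Hl n * h (P.bv (.inr (.inl P.g1)) 0) + dd H P.g (List.replicate n x0) +
        M * Berr P.MM h := by
    intro n
    induction n with
    | zero =>
      refine ⟨64 ^ 2, fun h H => ?_⟩
      have := Fr.le_dm (F := fr (P := P) H) (al := fun c => P.ov (P.w1 (.inl (some c)))) (isop H _)
        (isop H (P.w1 (.inr (.inl none)))) (qual H (.inr (.inl P.g))) (qual H (.inl false)).1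
        (frame_sup H m1 (by
          rintro _ ⟨T, rfl⟩ x hx
          refine ⟨x, ⟨hx.1, hx.2.1⟩, ?_⟩
          have : T.pi x = some x := Tok.fl_iff.2 ⟨hx.1 ▸ hx.2.2, rfl⟩
          simp [Tok.model, w1, Tok.ev, Tok.mv_none, this]))
      simp only [SS, pow_zero, one_mul, Nat.cast_zero, zero_mul, zero_add, Nat.cast_pow,
        Nat.cast_ofNat]
      exact this
    | succ n ih =>
      obtain ⟨M, hM⟩ := ih
      refine ⟨8192 * (M + 5 * 64 ^ (2 * n + 8)), fun h H => ?_⟩
      have a1 := hM h H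
      have a2 := Fr.dm_cov (isop H _) (fun c => isop H (P.w1 (.inl (some c))))
        (isop H (P.w1 (.inr (.inl none)))) (qual H (.inr (.inl P.g))) (qual H (.inr (.inl P.g1)))
        (qual H (.inr (.inl P.g2))) (frame_cov H (by
          rintro _ ⟨T, rfl⟩ x hx
          exact (T.cov _ hx.2).imp (fun a => ⟨hx.1, a⟩) fun a => ⟨hx.1, a⟩)) (List.replicate n x0)
      have a3 := dd_step H (τ := τ) (l := List.replicate n x0) (l' := List.replicate (n + 1) x0)
        ⟨List.replicate n x0, [], by simp [e3], by simp [e4, List.replicate_succ], by simp,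
          by simp [e5]⟩
      have a4 := Fr.dm_le (isop H _) (fun c => isop H (P.w1 (.inl (some c))))
        (isop H (P.w1 (.inr (.inl none)))) (qual H (.inr (.inl P.g1))) (List.replicate n x0)
      have a5 := fun hn => dd_inf H (hH n hn)
      rw [e1, e2] at a3
      rw [List.length_replicate] at a2 a3 a4 a5
      have b1 := (fr (P := P) H).E_mono (show n + 2 ≤ 2 * n + 8 by omega)
      have b2 := (fr (P := P) H).E_mono (show n + 3 ≤ 2 * n + 8 by omega)
      have b3 := (fr (P := P) H).E0 (2 * n + 8)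
      have b4 : (fr (P := P) H).E (2 * n + 8) = 64 ^ (2 * n + 8) * Berr P.MM h := rfl
      change dd H P.g _ ≤ dd H P.g1 _ + dd H P.g2 _ + _ at a2
      change dd H P.g1 _ ≤ h _ + _ at a4
      rw [SS, pow_succ]
      split_ifs with hn
      · push_cast
        linarith
      · have := a5 hn
        push_cast
        linarith
  obtain ⟨M, hM⟩ := key N
  refine ⟨M + 64 ^ (N + 3), fun h H => ?_⟩
  have a4 := Fr.dm_le (isop H _) (fun c => isop H (P.w1 (.inl (some c))))
    (isop H (P.w1 (.inr (.inl none)))) (qual H (.inr (.inl P.g))) (List.replicate N x0)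
  rw [List.length_replicate] at a4
  change dd H P.g _ ≤ h _ + 64 ^ (N + 3) * Berr P.MM h at a4
  push_cast
  linarith [hM h H]

end Prog

end Pool.Agent.Lib.MP_b69f85_lc
end

-- part Pool.Agent.Lib.MP_b69f85_lc.Tokn
section

namespace Pool.Agent.Lib.MP_b69f85_lc

open Finset

def pos {Γ : Type} (x0 : Bool × Γ) (n : ℕ) : Bool → List Γ :=
  Function.update (fun _ => []) x0.1 (List.replicate n x0.2)

theorem pos_zero {Γ : Type} (x0 : Bool × Γ) : pos x0 0 = fun _ => [] := by simp [pos]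

theorem pos_succ {Γ : Type} (x0 : Bool × Γ) (n : ℕ) : psh (some x0) (pos x0 n) = pos x0 (n + 1) := by
  simp [pos, psh, List.replicate_succ]

theorem pos_len {Γ : Type} (x0 : Bool × Γ) (n : ℕ) (s : Bool) : (pos x0 n s).length ≤ n := by
  by_cases h : s = x0.1
  · subst h; simp [pos]
  · simp [pos, h]

open Classical in
noncomputable def VV {α : Type} (s : Finset α) (Hl : ℕ → Prop) : ℕ → Finset (List α)
  | 0 => ∅
  | n + 1 => image₂ List.cons s (VV s Hl n ∪ if Hl n then {[]} else ∅)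

theorem mem_VV {α : Type} (s : Finset α) (Hl : ℕ → Prop) : ∀ n, ∀ w ∈ VV s Hl n,
    1 ≤ w.length ∧ w.length ≤ n ∧ Hl (n - w.length)
  | 0, w, h => by simp [VV] at h
  | n + 1, w, h => by
    classical
    simp only [VV, mem_image₂, mem_union] at h
    obtain ⟨a, -, v, hv | hv, rfl⟩ := h
    · obtain ⟨-, h2, h3⟩ := mem_VV s Hl n v hv
      exact ⟨by simp, by simpa using h2, by simpa using h3⟩
    · split_ifs at hv with hn
      · obtain rfl := mem_singleton.1 hv
        simpa using hn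
      · simp at hv

theorem card_VV {α : Type} (s : Finset α) (hs : s.card = 8192) (Hl : ℕ → Prop) :
    ∀ n, (VV s Hl n).card = Prog.SS Hl n
  | 0 => rfl
  | n + 1 => by
    classical
    rw [VV, card_image₂ fun _ _ _ _ => List.cons.inj, card_union_of_disjoint, card_VV s hs Hl n,
      Prog.SS, hs]
    · split_ifs <;> simp
    · split_ifs
      · exact disjoint_singleton_right.2 fun h => by simpa using (mem_VV s Hl n _ h).1
      · simp

theorem card_lists : ∀ r, (listsLe (univ : Finset (Fin 8192)) r).card + 1 ≤ 2 * 8192 ^ r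
  | 0 => by simp [listsLe]
  | r + 1 => by
    have h1 := card_listsLe_succ (univ : Finset (Fin 8192)) r
    have h2 := card_lists r
    rw [card_univ, Fintype.card_fin] at h1
    rw [pow_succ]
    omega

namespace Prog

variable (P : Prog)

inductive Run (q0 : P.Q) (p0 : Bool → List P.Γ) : ℕ → P.Q → (Bool → List P.Γ) → Prop
  | zero : Run q0 p0 0 q0 p0
  | succ {t τ p} : Run q0 p0 t (P.src τ) (psh (P.pop τ) p) → (∀ s ∈ P.grd τ, p s = []) →
      Run q0 p0 (t + 1) (P.tgt τ) (psh (P.push τ) p)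

theorem Run.len {P : Prog} {q0 p0 t q p} (h : P.Run q0 p0 t q p) (s : Bool) :
    (p s).length ≤ (p0 s).length + t := by
  induction h with
  | zero => simp
  | @succ t τ p _ _ ih => have := psh_len (P.pop τ) p s; have := psh_len (P.push τ) p s; omega

/-- The assumptions on the counting part of a program. -/
structure Good (Hl : ℕ → Prop) (x0 : Bool × P.Γ) (τg : P.R) : Prop where
  e1 : P.src τg = P.g2
  e2 : P.tgt τg = P.g
  e3 : P.pop τg = none
  e4 : P.push τg = some x0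
  e5 : P.grd τg = none
  d1 : P.g ≠ P.g1
  d2 : P.g ≠ P.g2
  d3 : P.g1 ≠ P.g2
  hs : ∀ τ, τ ≠ τg → P.src τ ≠ P.g ∧ P.src τ ≠ P.g2
  ht : ∀ τ, τ ≠ τg → P.tgt τ ≠ P.g ∧ P.tgt τ ≠ P.g1 ∧ P.tgt τ ≠ P.g2
  inf : ∀ n, ¬ Hl n → P.Inf P.g1 (List.replicate n x0)
  fin : ∀ n, Hl n → ∃ T, ∀ t q p, P.Run P.g1 (pos x0 n) t q p → t ≤ T

variable {P} (Hl : ℕ → Prop) (x0 : Bool × P.Γ) (τg : P.R) (L : ℕ)

def St (q : P.Q) (y : List (P.R × Fin 8192)) : Prop :=
  ((∀ a ∈ y, a.1 = τg) ∧
    (q = P.g ∧ y.length ≤ L ∨ q = P.g1 ∧ y.length = L ∨ q = P.g2 ∧ y.length < L)) ∨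
  ∃ a y', y = a :: y' ∧ a.1 ≠ τg ∧ P.tgt a.1 = q

inductive Act : List (P.R × Fin 8192) → (Bool → List P.Γ) → Prop
  | base {y n} : (∀ a ∈ y, a.1 = τg) → y.length ≤ L → n + (L - y.length) < L →
      Hl (n + (L - y.length)) → Act y (pos x0 n)
  | step {τ i y p} : τ ≠ τg → St τg L (P.src τ) y → (∀ s ∈ P.grd τ, p s = []) →
      Act y (psh (P.pop τ) p) → Act ((τ, i) :: y) (psh (P.push τ) p)

variable {Hl x0 τg L} (G : P.Good Hl x0 τg)
include G

theorem Act.inv {y p} (h : Act Hl x0 τg L y p) :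
    ((∀ a ∈ y, a.1 = τg) ∧ y.length ≤ L ∧ ∃ n, p = pos x0 n ∧ n + (L - y.length) < L ∧
      Hl (n + (L - y.length))) ∨
    ∃ a y' m t, y = a :: y' ∧ a.1 ≠ τg ∧ m < L ∧ Hl m ∧ P.Run P.g1 (pos x0 m) t (P.tgt a.1) p ∧
      y.length = L + t := by
  induction h with
  | base h1 h2 h3 h4 => exact Or.inl ⟨h1, h2, _, rfl, h3, h4⟩
  | @step τ i y p h1 h2 h3 _ ih =>
    right
    rcases ih with ⟨a1, a2, n, a3, a4, a5⟩ | ⟨a, y', m, t, rfl, a1, a2, a3, a4, a5⟩
    · rcases h2 with ⟨-, ⟨b, -⟩ | ⟨b, c⟩ | ⟨b, -⟩⟩ | ⟨a, y', rfl, b, -⟩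
      · exact absurd b (G.hs τ h1).1
      · rw [c, Nat.sub_self, add_zero] at a4 a5
        exact ⟨_, _, n, 1, rfl, h1, a4, a5, Run.succ (by rw [a3, b]; exact Run.zero) h3,
          by simp [c]⟩
      · exact absurd b (G.hs τ h1).2
      · exact absurd (a1 a (by simp)) b
    · rcases h2 with ⟨b, -⟩ | ⟨a', y'', e, -, b⟩
      · exact absurd (b a (by simp)) a1
      · obtain rfl := (List.cons.inj e).1
        exact ⟨_, _, m, t + 1, rfl, h1, a2, a3, Run.succ (b ▸ a4) h3, by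
          rw [List.length_cons, a5]; rfl⟩

theorem St.g {y} (h : St τg L P.g y) : (∀ a ∈ y, a.1 = τg) ∧ y.length ≤ L := by
  rcases h with ⟨a, ⟨-, b⟩ | ⟨b, -⟩ | ⟨b, -⟩⟩ | ⟨a, y', rfl, b, c⟩
  exacts [⟨a, b⟩, absurd b G.d1, absurd b G.d2, absurd c (G.ht _ b).1]

theorem St.g1 {y} (h : St τg L P.g1 y) : (∀ a ∈ y, a.1 = τg) ∧ y.length = L := by
  rcases h with ⟨a, ⟨b, -⟩ | ⟨-, b⟩ | ⟨b, -⟩⟩ | ⟨a, y', rfl, b, c⟩
  exacts [absurd b G.d1.symm, ⟨a, b⟩, absurd b G.d3, absurd c (G.ht _ b).2.1]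

theorem St.g2 {y} (h : St τg L P.g2 y) : (∀ a ∈ y, a.1 = τg) ∧ y.length < L := by
  rcases h with ⟨a, ⟨b, -⟩ | ⟨b, -⟩ | ⟨-, b⟩⟩ | ⟨a, y', rfl, b, c⟩
  exacts [absurd b G.d2.symm, absurd b G.d3.symm, ⟨a, b⟩, absurd c (G.ht _ b).2.2]

theorem exists_bnd (L : ℕ) : ∃ T, ∀ y p, Act Hl x0 τg L y p →
    y.length ≤ L + T ∧ ∀ s, (p s).length ≤ L + T := by
  have : ∀ n, ∃ T, Hl n → ∀ t q p, P.Run P.g1 (pos x0 n) t q p → t ≤ T := fun n => by
    by_cases h : Hl n
    · exact (G.fin n h).imp fun _ a _ => a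
    · exact ⟨0, fun a => absurd a h⟩
  choose f hf using this
  refine ⟨(range L).sup f, fun y p h => ?_⟩
  rcases h.inv G with ⟨-, a2, n, rfl, a4, -⟩ | ⟨a, y', m, t, -, -, a2, a3, a4, a5⟩
  · exact ⟨by omega, fun s => by have := pos_len x0 n s; omega⟩
  · have b1 : t ≤ (range L).sup f := (hf m a3 _ _ _ a4).trans (le_sup (mem_range.2 a2))
    exact ⟨by omega, fun s => by have := pos_len x0 m s; have := a4.len s; omega⟩

noncomputable def tok (L : ℕ) : P.Tok where
  Y := {y : List (P.R × Fin 8192) // y.length ≤ L + (exists_bnd G L).choose}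
  fin := (List.finite_length_le _ _).fintype
  N := L + (exists_bnd G L).choose
  st := fun q y => St τg L q y.1
  act := fun y p => Act Hl x0 τg L y.1 p
  ch := fun τ i y => if h : ((τ, i) :: y.1).length ≤ L + (exists_bnd G L).choose then
    some ⟨_, h⟩ else none
  bnd := fun y p h => ((exists_bnd G L).choose_spec y.1 p h).2
  clo := fun τ i y p h1 h2 h3 => by
    have key : Act Hl x0 τg L ((τ, i) :: y.1) (psh (P.push τ) p) := by
      by_cases e : τ = τg
      · subst e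
        rw [G.e1] at h1
        obtain ⟨b1, b2⟩ := h1.g2 G
        rw [G.e3] at h3
        rcases h3.inv G with ⟨-, -, n, a3, a4, a5⟩ | ⟨a, y', m, t, a0, a1, -⟩
        · obtain rfl : p = pos x0 n := a3
          have : n + 1 + (L - ((τ, i) :: y.1).length) = n + (L - y.1.length) := by
            rw [List.length_cons]; omega
          rw [G.e4, pos_succ]
          exact Act.base (by simpa using b1) b2 (this ▸ a4) (this ▸ a5)
        · exact absurd (b1 a (by simp [a0])) a1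
      · exact Act.step e h1 h2 h3
    exact ⟨⟨_, ((exists_bnd G L).choose_spec _ _ key).1⟩, dif_pos _, key⟩
  inj := fun τ i j y y' z h1 h2 => by
    split_ifs at h1 h2
    have := congrArg Subtype.val ((Option.some.inj h1).trans (Option.some.inj h2).symm)
    simp only [List.cons.injEq, Prod.mk.injEq, true_and] at this
    exact ⟨this.1, Subtype.ext this.2⟩
  stt := fun τ i y y' h1 h2 => by
    split_ifs at h2
    obtain rfl := Option.some.inj h2
    by_cases e : τ = τg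
    · subst e
      rw [G.e1] at h1
      obtain ⟨b1, b2⟩ := h1.g2 G
      exact Or.inl ⟨by simpa using b1, Or.inl ⟨G.e2, b2⟩⟩
    · exact Or.inr ⟨_, _, rfl, e, rfl⟩
  cov := fun y h => by
    obtain ⟨b1, b2⟩ := h.g G
    exact b2.eq_or_lt.imp (fun a => Or.inl ⟨b1, Or.inr (Or.inl ⟨rfl, a⟩)⟩)
      fun a => Or.inl ⟨b1, Or.inr (Or.inr ⟨rfl, a⟩)⟩

omit G in
theorem snd_inj {y y' : List (P.R × Fin 8192)} (h : ∀ a ∈ y, a.1 = τg) (h' : ∀ a ∈ y', a.1 = τg)
    (e : y.map Prod.snd = y'.map Prod.snd) : y = y' := by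
  have k : ∀ y : List (P.R × Fin 8192), (∀ a ∈ y, a.1 = τg) →
      y = (y.map Prod.snd).map fun i => (τg, i) := fun y h => by
    rw [List.map_map]
    exact (List.map_id y).symm.trans (List.map_congr_left fun a ha => Prod.ext (h a ha) rfl)
  rw [k y h, k y' h', e]

theorem lower (L : ℕ) : ∃ m, P.MM m ∧ SS Hl L * Real.log 2 ≤ grk m.K (P.bv (.inl false) 0) ∧
    grk m.K (P.bv (.inr (.inl P.g1)) 0) ≤ 8192 ^ L * Real.log 2 ∧
    grk m.K (P.bv (.inr (.inl P.g)) 0) ≤ 2 * 8192 ^ L * Real.log 2 := by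
  have l2 : 0 ≤ Real.log 2 := Real.log_nonneg (by norm_num)
  refine ⟨(tok G L).model, ⟨_, rfl⟩, ?_, ?_, ?_⟩ <;> rw [bv, PM.dim_obv] <;>
    refine mul_le_mul_of_nonneg_right ?_ l2
  · rw [← card_VV (univ : Finset (Fin 8192)) (by simp), ← Nat.card_eq_finsetCard]
    refine Nat.cast_le.2 (Nat.card_le_card_of_injective (fun w => ⟨(⟨fun _ => [], by simp⟩,
      ⟨w.1.map fun i => (τg, i), ?_⟩), rfl, ?_, ?_⟩) fun a b e => ?_)
    · have := (mem_VV _ Hl L _ w.2).2.1
      rw [List.length_map]; omega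
    · exact Or.inl ⟨by simp, Or.inl ⟨rfl, by simpa using (mem_VV _ Hl L _ w.2).2.1⟩⟩
    · obtain ⟨a1, a2, a3⟩ := mem_VV _ Hl L _ w.2
      change Act Hl x0 τg L (w.1.map fun i => (τg, i)) fun _ => []
      rw [← pos_zero x0]
      exact Act.base (by simp) (by simpa using a2) (by simp; omega) (by simpa using a3)
    · have : (a.1.map fun i => (τg, i)) = b.1.map fun i => (τg, i) := congrArg (fun x => x.1.2.1) e
      exact Subtype.ext (List.map_injective_iff.2 (fun _ _ h => (Prod.mk.inj h).2) this)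
  · have := Nat.card_le_card_of_injective (α := {p // (tok G L).model.ob (.inr (.inl P.g1)) p})
      (β := List.Vector (Fin 8192) L)
      (fun x => ⟨x.1.2.1.map Prod.snd, by rw [List.length_map]; exact (St.g1 G x.2.2).2⟩)
      fun a b e => Subtype.ext (Prod.ext (Subtype.ext (a.2.1.trans b.2.1.symm))
        (Subtype.ext (snd_inj (St.g1 G a.2.2).1 (St.g1 G b.2.2).1 (congrArg Subtype.val e))))
    rw [Nat.card_eq_fintype_card (α := List.Vector _ _), card_vector, Fintype.card_fin] at this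
    exact_mod_cast this
  · have := Nat.card_le_card_of_injective (α := {p // (tok G L).model.ob (.inr (.inl P.g)) p})
      (β := listsLe (univ : Finset (Fin 8192)) L)
      (fun x => ⟨x.1.2.1.map Prod.snd, mem_listsLe _ _ _
        (by rw [List.length_map]; exact (St.g G x.2.2).2) (by simp)⟩)
      fun a b e => Subtype.ext (Prod.ext (Subtype.ext (a.2.1.trans b.2.1.symm))
        (Subtype.ext (snd_inj (St.g G a.2.2).1 (St.g G b.2.2).1 (congrArg Subtype.val e))))
    rw [Nat.card_eq_finsetCard] at this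
    exact_mod_cast this.trans ((Nat.le_succ _).trans (card_lists L))

end Prog

end Pool.Agent.Lib.MP_b69f85_lc
end

-- part Pool.Agent.Lib.MP_b69f85_lc.Tm
section

namespace Pool.Agent.Lib.MP_b69f85_lc

open Turing

def proj {Γ : Type} : List (Bool × Γ) → Bool → List Γ
  | [] => fun _ => []
  | c :: l => psh (some c) (proj l)

theorem proj_rep {Γ : Type} (x : Bool × Γ) : ∀ n, proj (List.replicate n x) = pos x n
  | 0 => (pos_zero x).symm
  | n + 1 => by rw [List.replicate_succ, proj, proj_rep x n, pos_succ]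

theorem proj_nil {Γ : Type} {s : Bool} : ∀ l : List (Bool × Γ), proj l s = [] → ∀ c ∈ l, c.1 ≠ s
  | [], _ => by simp
  | c :: l, h => by
    have e : c.1 ≠ s := by rintro rfl; simp [proj, psh] at h
    have : proj l s = [] := by simpa [proj, psh, e.symm] using h
    simpa [e] using proj_nil l this

theorem proj_split {Γ : Type} (x : Bool × Γ) : ∀ (l : List (Bool × Γ)) (p : Bool → List Γ),
    proj l = psh (some x) p →
    ∃ l1 l2, l = l2 ++ x :: l1 ∧ (∀ c ∈ l2, x.1 ≠ c.1) ∧ proj (l2 ++ l1) = p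
  | [], p, h => by simpa [proj, psh] using congrFun h x.1
  | c :: l, p, h => by
    have h0 := congrFun h x.1
    by_cases e : x.1 = c.1
    · obtain rfl : x = c := Prod.ext e (by simp [proj, psh, e] at h0; exact h0.1.symm)
      exact ⟨l, [], rfl, by simp, psh_inj _ h⟩
    · have h1 : proj l = psh (some x) (Function.update (proj l) x.1 (p x.1)) := by
        simp only [proj, psh, Function.update_of_ne e, Function.update_self] at h0
        simp [psh, ← h0]
      obtain ⟨l1, l2, a1, a2, a3⟩ := proj_split x l _ h1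
      refine ⟨l1, c :: l2, by simp [a1], by simpa [e] using a2, psh_inj (some x) ?_⟩
      rw [List.cons_append, proj, a3, psh_comm e, ← h1, ← h, proj]

theorem Prog.lift (P : Prog) (τ : P.R) {l : List (Bool × P.Γ)} {p : Bool → List P.Γ}
    (h : proj l = psh (P.pop τ) p) (hg : ∀ s ∈ P.grd τ, p s = []) :
    ∃ l', P.LStep τ l l' ∧ proj l' = psh (P.push τ) p := by
  have : ∃ l1 l2, l = l2 ++ ((P.pop τ).toList ++ l1) ∧ (∀ x ∈ P.pop τ, ∀ c ∈ l2, x.1 ≠ c.1) ∧
      proj (l2 ++ l1) = p := by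
    cases e : P.pop τ with
    | none => exact ⟨l, [], rfl, by simp, by rw [e] at h; exact h⟩
    | some x =>
      obtain ⟨l1, l2, a1, a2, a3⟩ := proj_split x l p (e ▸ h)
      exact ⟨l1, l2, a1, by simpa using a2, a3⟩
  obtain ⟨l1, l2, a1, a2, rfl⟩ := this
  refine ⟨_, ⟨l1, l2, a1, rfl, a2, fun c hc e => proj_nil _ (hg _ e) c hc rfl⟩, ?_⟩
  cases P.push τ <;> rfl

theorem Prog.inf_of (P : Prog) (I : P.Q → List (Bool × P.Γ) → Prop)
    (h : ∀ q l, I q l → ∃ τ l', P.src τ = q ∧ P.LStep τ l l' ∧ I (P.tgt τ) l') {q l} (h0 : I q l) :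
    P.Inf q l := by
  choose f g h1 h2 h3 using h
  let s : ℕ → {c : P.Q × List (Bool × P.Γ) // I c.1 c.2} := fun t =>
    Nat.rec ⟨(q, l), h0⟩ (fun _ c => ⟨(_, g _ _ c.2), h3 _ _ c.2⟩) t
  exact ⟨fun t => f _ _ (s t).2, fun t => (s t).1.2, h1 _ _ _, rfl,
    fun t => ⟨h2 _ _ _, (h1 _ _ (s (t + 1)).2).symm⟩⟩

theorem Prog.Good.congr {P : Prog} {Hl Hl' : ℕ → Prop} {x τ} (h : P.Good Hl x τ)
    (e : ∀ n, Hl n ↔ Hl' n) : P.Good Hl' x τ :=
  (funext fun n => propext (e n) : Hl = Hl') ▸ h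

section TM

variable {Γ Λ : Type} [Fintype Γ] [Inhabited Γ] [Inhabited Λ] (M : TM0.Machine Γ Λ) (S : Finset Λ)

def stm : Bool ⊕ Γ → TM0.Stmt Γ
  | .inl true => .move .right
  | .inl false => .move .left
  | .inr b => .write b

noncomputable def tmProg (q0 : S × Γ) (a1 : Γ) : Prog where
  Γ := Γ
  Q := (S × Γ) ⊕ Option Bool
  R := Bool ⊕ {x : (S × Γ) × S × (Bool ⊕ Γ) × Option Γ //
    M x.1.1 x.1.2 = some (x.2.1.1, stm x.2.2.1)}
  fR := Fintype.ofFinite _
  src := Sum.elim (fun b => .inr (some b)) fun x => .inl x.1.1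
  tgt := Sum.elim (fun b => bif b then .inl q0 else .inr none) fun x =>
    .inl (x.1.2.1, x.1.2.2.1.elim (fun _ => x.1.2.2.2.getD default) id)
  pop := Sum.elim (fun _ => none) fun x =>
    x.1.2.2.1.elim (fun d => x.1.2.2.2.map fun c => (d, c)) fun _ => none
  push := Sum.elim (fun b => bif b then none else some (true, a1)) fun x =>
    x.1.2.2.1.elim (fun d => some (!d, x.1.1.2)) fun _ => none
  grd := Sum.elim (fun _ => none) fun x =>
    x.1.2.2.1.elim (fun d => x.1.2.2.2.elim (some d) fun _ => none) fun _ => none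
  g := .inr none
  g1 := .inr (some true)
  g2 := .inr (some false)

def cfg (s : S × Γ) (p : Bool → List Γ) : TM0.Cfg Γ Λ :=
  ⟨s.1, ⟨s.2, ListBlank.mk (p false), ListBlank.mk (p true)⟩⟩

variable {M S} {q0 : S × Γ} {a1 : Γ}

theorem step_ok (x) (p : Bool → List Γ) (hg : ∀ s ∈ (tmProg M S q0 a1).grd (.inr x), p s = []) :
    ∃ s', (tmProg M S q0 a1).tgt (.inr x) = .inl s' ∧
      TM0.step M (cfg S x.1.1 (psh ((tmProg M S q0 a1).pop (.inr x)) p)) =
        some (cfg S s' (psh ((tmProg M S q0 a1).push (.inr x)) p)) := by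
  obtain ⟨⟨⟨q, a⟩, q', d, o⟩, hx⟩ := x
  refine ⟨_, rfl, ?_⟩
  simp only [TM0.step, cfg] at hx ⊢
  rw [hx]
  rcases d with (_ | _) | b
  · rcases o with _ | c
    · have := hg false rfl
      simp [tmProg, stm, psh, Tape.move, this]
    · simp [tmProg, stm, psh, Tape.move]
  · rcases o with _ | c
    · have := hg true rfl
      simp [tmProg, stm, psh, Tape.move, this]
    · simp [tmProg, stm, psh, Tape.move]
  · simp [tmProg, stm, psh, Tape.write]

theorem step_ex (ss : TM0.Supports M (S : Set Λ)) (s : S × Γ) (p : Bool → List Γ)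
    (h : TM0.step M (cfg S s p) ≠ none) : ∃ x p0, (tmProg M S q0 a1).src (.inr x) = .inl s ∧
      p = psh ((tmProg M S q0 a1).pop (.inr x)) p0 ∧
      ∀ s ∈ (tmProg M S q0 a1).grd (.inr x), p0 s = [] := by
  obtain ⟨⟨q', st⟩, e⟩ : ∃ y, M s.1 s.2 = some y := by
    simpa [TM0.step, cfg, Option.ne_none_iff_exists'] using h
  have hq : q' ∈ S := ss.2 e s.1.2
  obtain ⟨d, rfl⟩ : ∃ d, stm d = st := by
    rcases st with (_ | _) | b
    exacts [⟨.inl false, rfl⟩, ⟨.inl true, rfl⟩, ⟨.inr b, rfl⟩]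
  rcases d with d | b
  · cases e2 : p d with
    | nil => exact ⟨⟨(s, ⟨q', hq⟩, .inl d, none), e⟩, p, rfl, rfl, by rintro _ ⟨⟩; exact e2⟩
    | cons c r =>
      refine ⟨⟨(s, ⟨q', hq⟩, .inl d, some c), e⟩, Function.update p d r, rfl, ?_, by rintro _ ⟨⟩⟩
      simp [tmProg, psh, ← e2]
  · exact ⟨⟨(s, ⟨q', hq⟩, .inr b, none), e⟩, p, rfl, rfl, by rintro _ ⟨⟩⟩

theorem tm_good (ss : TM0.Supports M (S : Set Λ)) (a0 a1 : Γ) :
    (tmProg M S (⟨default, ss.1⟩, a0) a1).Good
      (fun n => (TM0.eval M (a0 :: List.replicate n a1)).Dom) (true, a1) (.inl false) := by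
  have init : ∀ n, TM0.init (a0 :: List.replicate n a1) =
      cfg S (⟨default, ss.1⟩, a0) (pos (true, a1) n) := fun n => by
    simp [TM0.init, cfg, pos, Tape.mk₁, Tape.mk₂, Tape.mk']
  refine ⟨rfl, rfl, rfl, rfl, rfl, by rintro ⟨⟩, by rintro ⟨⟩, by rintro ⟨⟩, ?_, ?_,
    fun n hn => ?_, fun n hn => ?_⟩
  · rintro ((_ | _) | x) h
    · exact absurd rfl h
    · exact ⟨by rintro ⟨⟩, by rintro ⟨⟩⟩
    · exact ⟨by rintro ⟨⟩, by rintro ⟨⟩⟩
  · rintro ((_ | _) | x) h
    · exact absurd rfl h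
    · exact ⟨by rintro ⟨⟩, by rintro ⟨⟩, by rintro ⟨⟩⟩
    · exact ⟨by rintro ⟨⟩, by rintro ⟨⟩, by rintro ⟨⟩⟩
  · refine Prog.inf_of (tmProg M S (⟨default, ss.1⟩, a0) a1) (fun q l => (q = .inr (some true) ∧ l = List.replicate n (true, a1)) ∨
      ∃ s, q = .inl s ∧ StateTransition.Reaches (TM0.step M)
        (TM0.init (a0 :: List.replicate n a1)) (cfg S s (proj l))) ?_ (Or.inl ⟨rfl, rfl⟩)
    rintro q l (⟨rfl, rfl⟩ | ⟨s, rfl, h⟩)
    · refine ⟨.inl true, _, rfl, ⟨List.replicate n (true, a1), [], rfl, rfl, by simp,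
        by rintro _ _ ⟨⟩⟩, Or.inr ⟨_, rfl, ?_⟩⟩
      rw [init, ← proj_rep]
      exact Relation.ReflTransGen.refl
    · obtain ⟨x, p0, b1, b2, b3⟩ := step_ex (q0 := (⟨default, ss.1⟩, a0)) (a1 := a1) ss s (proj l)
        fun e => hn (Part.dom_iff_mem.2 ⟨_, (Part.mem_map_iff _).2
          ⟨_, StateTransition.mem_eval.2 ⟨h, e⟩, rfl⟩⟩)
      obtain ⟨l', c1, c2⟩ := Prog.lift _ _ b2 b3
      obtain ⟨s', d1, d2⟩ := step_ok x p0 b3
      obtain rfl : x.1.1 = s := Sum.inl.inj b1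
      refine ⟨.inr x, l', rfl, c1, Or.inr ⟨s', d1, h.tail ?_⟩⟩
      exact (congrArg (fun p => TM0.step M (cfg S x.1.1 p)) b2).trans
        (d2.trans (congrArg (fun p => some (cfg S s' p)) c2.symm))
  · obtain ⟨c, hc⟩ := Part.dom_iff_mem.1 (show (StateTransition.eval (TM0.step M)
      (TM0.init (a0 :: List.replicate n a1))).Dom from hn)
    obtain ⟨h1, h2⟩ := StateTransition.mem_eval.1 hc
    set f : Option (TM0.Cfg Γ Λ) → Option (TM0.Cfg Γ Λ) := fun o => o.bind (TM0.step M) with hf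
    obtain ⟨k, hk⟩ : ∃ k, f^[k] (some (TM0.init (a0 :: List.replicate n a1))) = some c := by
      clear h2 hc
      induction h1 with
      | refl => exact ⟨0, rfl⟩
      | tail _ e ih =>
        obtain ⟨k, hk⟩ := ih
        exact ⟨k + 1, by rw [Function.iterate_succ_apply', hk]; exact e⟩
    have key : ∀ t q p, (tmProg M S (⟨default, ss.1⟩, a0) a1).Run (.inr (some true))
        (pos (true, a1) n) t q p → (t = 0 ∧ q = .inr (some true) ∧ p = pos (true, a1) n) ∨
        ∃ s t', t = t' + 1 ∧ q = .inl s ∧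
          f^[t'] (some (TM0.init (a0 :: List.replicate n a1))) = some (cfg S s p) := by
      intro t q p h
      induction h with
      | zero => exact Or.inl ⟨rfl, rfl, rfl⟩
      | @succ t τ p _ hg ih =>
        right
        rcases τ with b | x
        · rcases ih with ⟨rfl, e, e'⟩ | ⟨s, t', -, ⟨⟩, -⟩
          obtain rfl : b = true := Option.some.inj (Sum.inr.inj e)
          obtain rfl : p = pos (true, a1) n := e'
          exact ⟨_, 0, rfl, rfl, congrArg some (init n)⟩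
        · rcases ih with ⟨-, ⟨⟩, -⟩ | ⟨s, t', rfl, e, e'⟩
          obtain rfl : x.1.1 = s := Sum.inl.inj e
          obtain ⟨s', d1, d2⟩ := step_ok x p hg
          exact ⟨s', t' + 1, rfl, d1, by rw [Function.iterate_succ_apply', e']; exact d2⟩
    refine ⟨k + 1, fun t q p h => ?_⟩
    rcases key t q p h with ⟨rfl, -⟩ | ⟨s, t', rfl, -, e⟩
    · omega
    · by_contra hlt
      obtain ⟨j, rfl⟩ : ∃ j, t' = j + (k + 1) := ⟨t' - (k + 1), by omega⟩
      rw [Function.iterate_add_apply, Function.iterate_succ_apply', hk,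
        show f (some c) = none from h2, Function.iterate_fixed rfl] at e
      cases e

end TM

open Pool.Agent.Lib.MP_038c09_al.RowSim PartrecToTM2 in
theorem exists_good : ∃ (P : Prog) (x0 : Bool × P.Γ) (τ : P.R), P.Good (fun n =>
    (Nat.Partrec.Code.eval (Denumerable.ofNat Nat.Partrec.Code n) 0).Dom) x0 τ := by
  classical
  obtain ⟨c, hc⟩ := exists_code
  let _ : Inhabited Λ' := ⟨trNormal c Cont'.halt⟩
  let _ : Fintype K' := ⟨{K'.main, K'.rev, K'.aux, K'.stack}, fun k => by cases k <;> simp⟩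
  have s2 : TM2.Supports tr (codeSupp c Cont'.halt) := tr_supports c Cont'.halt
  have s0 := TM1to0.tr_supports _ (TM2to1.tr_supports tr s2)
  have h := tm_good s0 (true, Function.update (fun _ => none) K'.main (some Γ'.cons))
    (false, Function.update (fun _ => none) K'.main (some Γ'.bit1))
  refine ⟨_, _, _, h.congr fun n => ?_⟩
  rw [TM1to0.tr_eval, ← hc]
  have h1 : TM2to1.trInit (Γ := fun _ : K' => Γ') K'.main (trList [ones n]) =
      (true, Function.update (fun _ => none) K'.main (some Γ'.cons)) ::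
        List.replicate n (false, Function.update (fun _ => none) K'.main (some Γ'.bit1)) := by
    have h3 : (trList [ones n]).reverse = Γ'.cons :: List.replicate n Γ'.bit1 := by
      simp [trNat_ones]
    unfold TM2to1.trInit
    rw [h3]
    exact congrArg _ List.map_replicate
  refine Iff.trans (Iff.of_eq (congrArg (fun l => (TM1.eval (TM2to1.tr tr) l).Dom) h1.symm)) ?_
  refine (TM2to1.tr_eval_dom tr K'.main (trList [ones n])).trans ?_
  have h2 : TM2.init (Γ := fun _ : K' => Γ') (Λ := Λ') (σ := Option Γ') K'.main (trList [ones n])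
      = init c [ones n] := by
    unfold TM2.init init
    congr 1
    funext k
    cases k <;> rfl
  change (StateTransition.eval (TM2.step tr) (TM2.init K'.main (trList [ones n]))).Dom ↔ _
  rw [h2, tr_eval]
  rfl

end Pool.Agent.Lib.MP_b69f85_lc
end
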