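import Pool.Agent.Lib.MP_b69f85_lc.Main
import Pool.Agent.Lib.MP_b69f85_lc.Tm

-- part Pool.Agent.Lib.MP_b69f85_lc.Gen
section

namespace Pool.Agent.Lib.MP_b69f85_lc

open Encodable Finset

variable {K : LS → ℕ} {run : ℕ → Str → Option LS} {k : ℕ}

theorem Mach.len_bound' (M : Mach K run) (k : ℕ) : ∃ c : ℕ, ∀ n : ℕ, 1 ≤ n → ∀ y : LS,
    y.length ≤ k → (∀ x ∈ y, x.length ≤ n) → K y ≤ c * n := by
  let g : List ℕ → ℕ → Option LS := fun ps z => (decode (α := LS) z).bind fun y =>
    if y.length ≤ k ∧ ∀ x ∈ y, x.length ≤ ps.getD 0 0 then some y else none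
  have hg : Primrec₂ g := by
    refine Primrec.option_bind (Primrec.decode.comp Primrec.snd) ?_
    refine Primrec.ite (PrimrecPred.and ?_ ?_) (Primrec.option_some.comp Primrec.snd)
      (Primrec.const none)
    · exact Primrec.nat_le.comp (Primrec.list_length.comp Primrec.snd) (Primrec.const k)
    · have h : PrimrecRel fun (x : Str) (n : ℕ) => x.length ≤ n :=
        Primrec.nat_le.comp (Primrec.list_length.comp Primrec.fst) Primrec.snd
      exact h.forall_mem_list.comp Primrec.snd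
        ((Primrec.list_getD 0).comp (Primrec.fst.comp Primrec.fst) (Primrec.const 0))
  obtain ⟨c, hc⟩ := M.enum hg 1
  refine ⟨c + 2 * k, fun n hn y hy hx => ?_⟩
  have h1 := hc [n] n (k * (n + 1)) (listsLe (listsLe (Finset.univ : Finset Bool) n) k) hn
    (by simp) (by simpa using Nat.lt_two_pow_self) ?_ ?_ (encode y) y ?_
  · nlinarith [Nat.mul_le_mul_left k hn]
  · refine (card_listsLe _ _).trans ?_
    rw [mul_comm, pow_mul]
    exact Nat.pow_le_pow_left (card_strs n) _
  · intro z x hz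
    simp only [g, Option.bind_eq_some_iff] at hz
    obtain ⟨q, _, hq⟩ := hz
    split_ifs at hq with hl
    obtain rfl : q = x := by simpa using hq
    exact mem_listsLe _ _ _ hl.1 fun s hs => mem_listsLe _ _ _ (by simpa using hl.2 s hs) (by simp)
  · simp only [g, encodek, Option.bind_some]
    rw [if_pos ⟨hy, by simpa using hx⟩]

def sl (u : Finset (Fin k)) : List ℕ := (u.sort (· ≤ ·)).map Fin.val

def sel (l : List ℕ) (y : LS) : LS := l.map fun j => y.getD j []

theorem sel_ofFn (u : Finset (Fin k)) (A : Fin k → Str) : sel (sl u) (List.ofFn A) = tup A u := by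
  simp [sel, sl, tup]

theorem sel_eq_iff (u : Finset (Fin k)) (x y : LS) :
    sel (sl u) x = sel (sl u) y ↔ ∀ j ∈ u.map Fin.valEmbedding, x.getD j [] = y.getD j [] := by
  simp [sel, sl]

theorem tup_len (u : Finset (Fin k)) (A : Fin k → Str) : (tup A u).length ≤ k := by
  simpa [tup] using card_le_univ u

theorem exists_family (k : ℕ) : ∃ (π : ℕ → LS → LS) (r : ℕ), Primrec₂ π ∧
    (∀ u : Finset (Fin k), ∃ i < r, π i = sel (sl u)) ∧
    ∀ i < r, ∃ u : Finset (Fin k), π i = sel (sl u) := by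
  let e := Fintype.equivFin (Finset (Fin k))
  let ul := List.ofFn fun i => sl (e.symm i)
  have h : ∀ i : Fin _, ul.getD i [] = sl (e.symm i) := fun i => by
    rw [List.getD_eq_getElem _ _ (by simp only [ul, List.length_ofFn]; exact i.2), List.getElem_ofFn]
  refine ⟨fun i => sel (ul.getD i []), Fintype.card (Finset (Fin k)),
    Primrec.list_map ((Primrec.list_getD []).comp (Primrec.const ul) Primrec.fst)
      ((Primrec.list_getD []).comp (Primrec.snd.comp Primrec.fst) Primrec.snd).to₂,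
    fun u => ⟨e u, (e u).2, ?_⟩, fun i hi => ⟨e.symm ⟨i, hi⟩, congrArg sel (h ⟨i, hi⟩)⟩⟩
  simp only [h, Equiv.symm_apply_apply]

theorem sum_near {ι : Type} [Fintype ι] (l a b : ι → ℝ) {δ : ℝ} (h : ∀ u, |a u - b u| ≤ δ) :
    ∑ u, l u * a u ≤ ∑ u, l u * b u + (∑ u, |l u|) * δ := by
  rw [sum_mul, ← sum_add_distrib]
  refine sum_le_sum fun u _ => ?_
  have := mul_le_mul_of_nonneg_left (h u) (abs_nonneg (l u))
  rw [← abs_mul] at this
  linarith [le_abs_self (l u * (a u - b u))]

/-- Inequalities for Shannon entropy hold for Kolmogorov complexity. -/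
theorem Mach.of_entropy (M : Mach K run) (l : {u : Finset (Fin k) // u.Nonempty} → ℝ)
    (hl : ∀ σ : Sys, 0 ≤ ∑ u, l u * σ.rk (u.1.map Fin.valEmbedding)) :
    ∃ c : ℝ, ∀ n : ℕ, 2 ≤ n → ∀ A : Fin k → Str, (∀ i, (A i).length ≤ n) →
      -(c * Real.log n) ≤ ∑ u, l u * (K (tup A u.1) : ℝ) := by
  obtain ⟨c0, hc0⟩ := M.len_bound' k
  obtain ⟨π, r, hπ, p1, p2⟩ := exists_family k
  obtain ⟨c1, hc1⟩ := M.typ hπ r
  have l2 : 0 < Real.log 2 := Real.log_pos (by norm_num)
  set W : ℝ := ∑ u, |l u| with hW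
  refine ⟨W * ((c1 + 1) * (c0 + 3)) / Real.log 2, fun n hn A hA => ?_⟩
  set e := Nat.log 2 n + 1 + (c0 + 1) with he
  have hlog : 1 ≤ Nat.log 2 n := Nat.log_pos (by norm_num) hn
  have hbig : c0 * n + 1 < 2 ^ e := by
    have h1 : n < 2 ^ (Nat.log 2 n + 1) := Nat.lt_pow_succ_log_self (by norm_num) n
    have h2 : c0 + 1 < 2 ^ (c0 + 1) := Nat.lt_two_pow_self
    rw [he, pow_add]
    nlinarith
  have hK : ∀ y : LS, y.length ≤ k → (∀ x ∈ y, x.length ≤ n) → K y + 1 < 2 ^ e :=
    fun y h1 h2 => lt_of_le_of_lt (Nat.succ_le_succ (hc0 n (by omega) y h1 h2)) hbig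
  obtain ⟨S, hS, hb'⟩ := hc1 (List.ofFn A) e (by omega) (hK _ (by simp) (by simpa using hA)) (by
    intro i hi
    obtain ⟨u, hu⟩ := p2 i hi
    rw [hu, sel_ofFn]
    refine Nat.lt_of_succ_lt (hK _ (tup_len u A) fun x hx => ?_)
    obtain ⟨j, -, rfl⟩ := List.mem_map.1 hx
    exact hA j)
  have hc' : (0 : ℝ) < S.card := by exact_mod_cast hS.card_pos
  let σ : Sys := ⟨S, fun _ => 1 / (S.card : ℝ), fun _ => by positivity, by simp [hc'.ne'],
    fun j => Eqv.ker fun x : S => (x : LS).getD j [], Eqv.ker fun _ => ()⟩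
  have h0 : H σ.p (σ.J ∅) = 0 := sum_eq_zero fun ω _ => by
    have : mass σ.p (σ.J ∅) ω = 1 :=
      (sum_congr rfl fun x _ => if_pos ⟨rfl, by simp⟩).trans σ.h1
    rw [this]; simp
  set δ : ℝ := (((c1 * e : ℕ) : ℝ) + 1) * Real.log 2 with hδ
  have hB : ∀ u : {u : Finset (Fin k) // u.Nonempty},
      |σ.rk (u.1.map Fin.valEmbedding) - K (tup A u.1) * Real.log 2| ≤ δ := by
    intro u
    obtain ⟨i, hi, hu⟩ := p1 u.1
    have := unif_bounds S hS (π i) _ _ (hb' i hi).1 (hb' i hi).2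
    rw [hu, sel_ofFn] at this
    rw [Sys.rk, h0, sub_zero, H_congr σ.p (σ.J _) (Eqv.ker fun x : S => sel (sl u.1) x) fun x y =>
      ⟨fun h => (sel_eq_iff _ _ _).2 h.2, fun h => ⟨rfl, (sel_eq_iff _ _ _).1 h⟩⟩]
    exact this
  have hδle : δ ≤ (c1 + 1) * (c0 + 3) * Real.log n := by
    have h1 : (Nat.log 2 n : ℝ) * Real.log 2 ≤ Real.log n := by
      rw [← Real.log_pow]
      refine Real.log_le_log (by positivity) ?_
      exact_mod_cast Nat.pow_log_le_self 2 (by omega)
    have h2 : c1 * e + 1 ≤ (c1 + 1) * (c0 + 3) * Nat.log 2 n := by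
      have : e ≤ (c0 + 3) * Nat.log 2 n := by rw [he]; nlinarith
      calc c1 * e + 1 ≤ (c1 + 1) * e := by rw [add_mul]; omega
        _ ≤ _ := by rw [mul_assoc]; exact Nat.mul_le_mul_left _ this
    have h3 : ((c1 * e : ℕ) : ℝ) + 1 ≤ (c1 + 1) * (c0 + 3) * (Nat.log 2 n : ℝ) := by
      exact_mod_cast h2
    calc δ ≤ (c1 + 1) * (c0 + 3) * (Nat.log 2 n : ℝ) * Real.log 2 :=
          mul_le_mul_of_nonneg_right h3 l2.le
      _ ≤ _ := by rw [mul_assoc]; exact mul_le_mul_of_nonneg_left h1 (by positivity)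
  have m1 := sum_near l _ _ hB
  have m3 := mul_le_mul_of_nonneg_left hδle (show 0 ≤ W from sum_nonneg fun _ _ => abs_nonneg _)
  refine le_of_mul_le_mul_right ?_ l2
  have m4 : W * ((c1 + 1) * (c0 + 3)) / Real.log 2 * Real.log n * Real.log 2 =
      W * ((c1 + 1) * (c0 + 3) * Real.log n) := by field_simp
  simp only [← mul_assoc, ← sum_mul] at m1
  rw [neg_mul, m4]
  linarith [hl σ]

theorem Mach.few_bad' (M : Mach K run) {Ω : Type} [Fintype Ω] [Nonempty Ω] (Φ : Ω → LS)
    (w l F m a : ℕ) (hΦ : ∀ x, (Φ x).length = w ∧ ∀ s ∈ Φ x, s.length = l)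
    (hF : ∀ y, (univ.filter fun x => Φ x = y).card ≤ F) :
    2 ^ a * (univ.filter fun ω : Fin m → Ω => 2 ^ (K (glue w (List.ofFn (Φ ∘ ω))) + (a + 1)) *
      F ^ m < Fintype.card Ω ^ m).card ≤ Fintype.card Ω ^ m := by
  classical
  set B := univ.filter fun ω : Fin m → Ω => 2 ^ (K (glue w (List.ofFn (Φ ∘ ω))) + (a + 1)) * F ^ m <
      Fintype.card Ω ^ m with hB
  rcases B.eq_empty_or_nonempty with h | h
  · rw [h]; simp
  obtain ⟨ω0, h0, hmax⟩ := exists_max_image B (fun ω => K (glue w (List.ofFn (Φ ∘ ω)))) h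
  obtain ⟨T, hT, hTm⟩ := M.exists_low (K (glue w (List.ofFn (Φ ∘ ω0))))
  have h1 : B.card ≤ F ^ m * T.card := by
    refine card_le_mul_card_image_of_maps_to (f := fun ω => glue w (List.ofFn (Φ ∘ ω)))
      (fun ω hω => (hTm _).2 (hmax ω hω)) _ fun y _ => ?_
    rcases (B.filter fun ω => glue w (List.ofFn (Φ ∘ ω)) = y).eq_empty_or_nonempty with h | ⟨ω1, h1⟩
    · simp [h]
    calc _ ≤ (Fintype.piFinset fun i => univ.filter fun x => Φ x = Φ (ω1 i)).card := by
          refine card_le_card fun ω hω => Fintype.mem_piFinset.2 fun i => ?_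
          refine mem_filter.2 ⟨mem_univ _, ?_⟩
          exact glue_inj (f := Φ ∘ ω) (g := Φ ∘ ω1) (fun i => hΦ _) (fun i => hΦ _)
            ((mem_filter.1 hω).2.trans (mem_filter.1 h1).2.symm) i
      _ ≤ F ^ m := by
          rw [Fintype.card_piFinset]
          exact (prod_le_pow_card _ _ F fun i _ => hF _).trans (by simp)
  have h2 := (mem_filter.1 h0).2
  have h3 := Nat.mul_le_mul_left (2 ^ a) (h1.trans (Nat.mul_le_mul_left (F ^ m) hT.le))
  refine h3.trans (le_of_eq_of_le ?_ h2.le)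
  ring

theorem glue_sel (l : List ℕ) (zs : List LS) :
    glue l.length (zs.map (sel l)) = l.map fun j => zs.flatMap fun y => y.getD j [] := by
  refine List.ext_getElem (by simp [glue]) fun i h1 h2 => ?_
  have hi : i < l.length := by simpa using h2
  simp [glue, sel, List.flatMap_map, hi]

theorem Mach.sample' (M : Mach K run) {Ω : Type} [Fintype Ω] [Nonempty Ω] (Φ : Ω → Fin k → Str)
    (l : ℕ) (hΦ : ∀ x j, (Φ x j).length = l) (N F : Finset (Fin k) → ℕ)
    (hNF : ∀ u, N u * F u = Fintype.card Ω)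
    (hN : ∀ u, (univ.image fun x => tup (Φ x) u).card ≤ N u)
    (hF : ∀ u y, (univ.filter fun x => tup (Φ x) u = y).card ≤ F u) :
    ∃ C : ℝ, ∀ m : ℕ, 2 ≤ m → ∃ A : Fin k → Str, (∀ j, (A j).length = m * l) ∧ ∀ u,
      |m * Real.log (N u) - K (tup A u) * Real.log 2| ≤ C * Real.log m := by
  classical
  have h1 := fun u => M.glue_le (sl u).length (univ.image fun x => tup (Φ x) u)
  choose c hc using h1
  set c1 := univ.sup c
  refine ⟨2 * c1 + (k + 2 : ℕ), fun m hm => ?_⟩
  let B : Finset (Fin k) → Finset (Fin m → Ω) := fun u => univ.filter fun ω : Fin m → Ω =>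
    2 ^ (K (glue (sl u).length (List.ofFn ((fun x => tup (Φ x) u) ∘ ω))) + (k + 1 + 1)) * F u ^ m <
      Fintype.card Ω ^ m
  have hB : ∀ u ∈ univ, 2 ^ (k + 1) * (B u).card ≤ Fintype.card Ω ^ m := fun u _ =>
    M.few_bad' (fun x => tup (Φ x) u) _ l (F u) m (k + 1) (fun x => ⟨by simp [tup, sl], fun s hs => by
      obtain ⟨j, -, rfl⟩ := List.mem_map.1 hs
      exact hΦ x j⟩) (hF u)
  have hlt : (univ.biUnion B).card < (univ : Finset (Fin m → Ω)).card := by
    have e1 : (univ.biUnion B).card ≤ ∑ u, (B u).card := card_biUnion_le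
    have e2 := sum_le_sum hB
    rw [← mul_sum, sum_const, card_univ, Fintype.card_finset, Fintype.card_fin, smul_eq_mul,
      pow_succ, mul_assoc] at e2
    have e4 := Nat.le_of_mul_le_mul_left e2 (by positivity)
    have e3 : 0 < Fintype.card Ω ^ m := pow_pos Fintype.card_pos m
    rw [card_univ, Fintype.card_fun, Fintype.card_fin]
    omega
  obtain ⟨ω, _, hω⟩ := exists_mem_notMem_of_card_lt_card hlt
  refine ⟨fun j => (List.ofFn fun i => List.ofFn (Φ (ω i))).flatMap fun y => y.getD j [],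
    fun j => length_flatMap_ofFn _ l m _ fun i => by simp [hΦ], fun u => ?_⟩
  have e : tup (fun j : Fin k => (List.ofFn fun i => List.ofFn (Φ (ω i))).flatMap
      fun y => y.getD j []) u = glue (sl u).length (List.ofFn ((fun x => tup (Φ x) u) ∘ ω)) := by
    have := glue_sel (sl u) (List.ofFn fun i => List.ofFn (Φ (ω i)))
    rw [List.map_ofFn] at this
    simp only [Function.comp_def, sel_ofFn] at this ⊢
    rw [this, sl, List.map_map]
    rfl
  rw [e]
  set t := K (glue (sl u).length (List.ofFn ((fun x => tup (Φ x) u) ∘ ω))) with ht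
  have l2 : 0 < Real.log 2 := Real.log_pos (by norm_num)
  have lm : Real.log 2 ≤ Real.log m := Real.log_le_log (by norm_num) (by exact_mod_cast hm)
  have hc1 : (0 : ℝ) ≤ c1 := Nat.cast_nonneg _
  have p0 : 0 < N u * F u := hNF u ▸ Fintype.card_pos
  have hN0 : 0 < N u := Nat.pos_of_mul_pos_right p0
  have hF0 : 0 < F u := Nat.pos_of_mul_pos_left p0
  have hk : (2 : ℝ) ≤ (k + 2 : ℕ) := by exact_mod_cast Nat.le_add_left 2 k
  have lk := mul_le_mul_of_nonneg_left lm (Nat.cast_nonneg (k + 2))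
  rw [abs_le]
  constructor
  · have h1 := hc u m (Nat.log 2 m + 1) (Nat.log 2 (N u ^ m) + 1) (by omega)
      (Nat.lt_pow_succ_log_self (by norm_num) m)
      ((Nat.pow_le_pow_left (hN u) m).trans (Nat.lt_pow_succ_log_self (by norm_num) _).le)
      ((fun x => tup (Φ x) u) ∘ ω) (fun j => mem_image_of_mem _ (mem_univ _))
    have h2 : c u ≤ c1 := le_sup (mem_univ u)
    have h3 : t ≤ Nat.log 2 (N u ^ m) + 1 + c1 * (Nat.log 2 m + 1) :=
      h1.trans (Nat.add_le_add_left (Nat.mul_le_mul_right _ h2) _)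
    have h4 : (t : ℝ) ≤ Nat.log 2 (N u ^ m) + 1 + c1 * (Nat.log 2 m + 1) := by exact_mod_cast h3
    have lg : ∀ t : ℕ, t ≠ 0 → (Nat.log 2 t : ℝ) * Real.log 2 ≤ Real.log t := by
      intro t ht
      rw [← Real.log_pow]
      refine Real.log_le_log (by positivity) ?_
      exact_mod_cast Nat.pow_log_le_self 2 ht
    have h5 := lg (N u ^ m) (by positivity)
    have h6 := mul_le_mul_of_nonneg_left (lg m (by omega)) hc1
    have h7 := mul_le_mul_of_nonneg_left lm hc1
    have h8 := mul_le_mul_of_nonneg_right h4 l2.le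
    rw [Nat.cast_pow, Real.log_pow] at h5
    nlinarith
  · have h1 : Fintype.card Ω ^ m ≤ 2 ^ (t + (k + 2)) * F u ^ m := by
      by_contra h
      exact hω (mem_biUnion.2 ⟨u, mem_univ _, mem_filter.2 ⟨mem_univ _, not_le.1 h⟩⟩)
    rw [← hNF u, mul_pow] at h1
    have h4 : (N u : ℝ) ^ m ≤ 2 ^ (t + (k + 2)) := by
      exact_mod_cast Nat.le_of_mul_le_mul_right h1 (by positivity)
    have h5 := Real.log_le_log (by positivity) h4
    rw [Real.log_pow, Real.log_pow, Nat.cast_add] at h5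
    have := mul_nonneg hc1 (l2.le.trans lm)
    linarith

/-- Inequalities for Kolmogorov complexity hold for finite groups. -/
theorem Mach.to_group (M : Mach K run) (l : {u : Finset (Fin k) // u.Nonempty} → ℝ) {c : ℝ}
    (hl : ∀ n : ℕ, 2 ≤ n → ∀ A : Fin k → Str, (∀ i, (A i).length ≤ n) →
      -(c * Real.log n) ≤ ∑ u, l u * (K (tup A u.1) : ℝ))
    {Ω : Type} [AddCommGroup Ω] [Finite Ω] (G : ℕ → AddSubgroup Ω) :
    0 ≤ ∑ u, l u * grk G (u.1.map Fin.valEmbedding) := by
  classical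
  let _ := Fintype.ofFinite Ω
  choose cd h1 h2 using fun x : Ω => exists_bits (Fintype.card Ω) (Fintype.equivFin Ω x)
    ((Fintype.equivFin Ω x).2.trans Nat.lt_two_pow_self)
  have inj : Function.Injective cd := fun x y h =>
    (Fintype.equivFin Ω).injective (Fin.ext (by rw [← h2, ← h2, h]))
  let Φ : Ω → Fin k → Str := fun x j => cd (Quotient.out (x : Ω ⧸ G j))
  let Gu : Finset (Fin k) → AddSubgroup Ω := fun u => ⨅ n ∈ u.map Fin.valEmbedding, G n
  have key : ∀ u x y, tup (Φ x) u = tup (Φ y) u ↔ -x + y ∈ Gu u := fun u x y => by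
    simp only [tup, Φ, Gu, inj.eq_iff, AddSubgroup.mem_iInf,
      List.map_inj_left, mem_sort, Quotient.out_inj, mem_map, Fin.valEmbedding_apply,
      forall_exists_index, and_imp, forall_apply_eq_imp_iff₂]
    exact forall₂_congr fun _ _ => QuotientAddGroup.eq
  obtain ⟨C, hC⟩ := M.sample' Φ _ (fun x j => h1 _) (fun u => (Gu u).index)
    (fun u => Nat.card (Gu u))
    (fun u => (Gu u).index_mul_card.trans Nat.card_eq_fintype_card) (fun u => by
      rw [AddSubgroup.index, ← Nat.card_eq_finsetCard]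
      refine Nat.card_le_card_of_surjective
        (fun q => ⟨tup (Φ q.out) u, mem_image_of_mem _ (mem_univ _)⟩) fun ⟨y, hy⟩ => ?_
      obtain ⟨x, -, rfl⟩ := mem_image.1 hy
      exact ⟨x, Subtype.ext ((key _ _ _).2 (QuotientAddGroup.eq.1 (Quotient.out_eq _)))⟩)
    (fun u y => by
      rcases (univ.filter fun x => tup (Φ x) u = y).eq_empty_or_nonempty with h | ⟨x, hx⟩
      · simp [h]
      rw [← Nat.card_eq_finsetCard]
      exact Nat.card_le_card_of_injective (fun z => ⟨-x + z.1,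
        (key _ _ _).1 ((mem_filter.1 hx).2.trans (mem_filter.1 z.2).2.symm)⟩)
        fun a b e => Subtype.ext (add_left_cancel (congrArg Subtype.val e)))
  have l2 : 0 < Real.log 2 := Real.log_pos (by norm_num)
  have p0 : 0 < Fintype.card Ω := Fintype.card_pos
  refine neg_nonpos.1 (nonpos_of_le_log (C := (∑ u, |l u|) * C + c * Real.log 2)
    (D := c * Real.log (Fintype.card Ω) * Real.log 2) fun m hm => ?_)
  obtain ⟨A, a1, a2⟩ := hC m hm
  have b1 := mul_le_mul_of_nonneg_right (hl (m * Fintype.card Ω) (by nlinarith) A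
    fun i => (a1 i).le) l2.le
  have b2 := sum_near l _ _ fun u => (abs_sub_comm _ _).trans_le (a2 u.1)
  rw [Nat.cast_mul, Real.log_mul (by positivity) (by positivity)] at b1
  simp only [← mul_assoc, ← sum_mul] at b2
  simp only [mul_assoc, mul_comm _ (m : ℝ), ← mul_sum] at b2
  change _ ≤ m * ∑ u, l u * grk G (u.1.map Fin.valEmbedding) + _ at b2
  linarith

end Pool.Agent.Lib.MP_b69f85_lc
end

-- part Pool.Agent.Lib.MP_b69f85_lc.Und
section

namespace Pool.Agent.Lib.MP_b69f85_lc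

open Finset Encodable Denumerable Nat.Partrec Prog

/-- Integer linear forms in the values on nonempty subsets of `range k`. -/
def Lin (k : ℕ) (φ : (Finset ℕ → ℝ) → ℝ) : Prop :=
  ∃ c : Finset ℕ → ℤ, ∀ h, h ∅ = 0 → φ h = ∑ u : {u : Finset (Fin k) // u.Nonempty},
    c (u.1.map Fin.valEmbedding) * h (u.1.map Fin.valEmbedding)

variable {k : ℕ} {φ ψ : (Finset ℕ → ℝ) → ℝ}

theorem Lin.eval {T : Finset ℕ} (hT : T ⊆ range k) : Lin k fun h => h T := by
  classical
  refine ⟨fun S => if S = T then 1 else 0, fun h h0 => ?_⟩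
  rcases T.eq_empty_or_nonempty with rfl | hn
  · refine h0.trans (sum_eq_zero fun u _ => ?_).symm
    simp [u.2.ne_empty]
  · have e := map_valEmbedding_attachFin (s := T) fun m hm => mem_range.1 (hT hm)
    rw [sum_eq_single ⟨T.attachFin fun m hm => mem_range.1 (hT hm), map_nonempty.1 (e.symm ▸ hn)⟩]
    · simp [e]
    · intro u _ hu
      have : u.1.map Fin.valEmbedding ≠ T := fun a =>
        hu (Subtype.ext (map_injective _ (a.trans e.symm)))
      simp [this]
    · simp

theorem Lin.add (a : Lin k φ) (b : Lin k ψ) : Lin k fun h => φ h + ψ h := by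
  obtain ⟨c, hc⟩ := a
  obtain ⟨d, hd⟩ := b
  refine ⟨c + d, fun h h0 => ?_⟩
  simp only [hc h h0, hd h h0, Pi.add_apply, Int.cast_add, add_mul, sum_add_distrib]

theorem Lin.sub (a : Lin k φ) (b : Lin k ψ) : Lin k fun h => φ h - ψ h := by
  obtain ⟨c, hc⟩ := a
  obtain ⟨d, hd⟩ := b
  refine ⟨c - d, fun h h0 => ?_⟩
  simp only [hc h h0, hd h h0, Pi.sub_apply, Int.cast_sub, sub_mul, sum_sub_distrib]

theorem Lin.sum {ι : Type} (f : ι → (Finset ℕ → ℝ) → ℝ) (s : Finset ι) (hs : ∀ i ∈ s, Lin k (f i)) :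
    Lin k fun h => ∑ i ∈ s, f i h := by
  classical
  induction s using Finset.induction_on with
  | empty => exact ⟨0, by simp⟩
  | insert a s ha ih =>
    simp only [sum_insert ha]
    exact (hs a (by simp)).add (ih fun i hi => hs i (by simp [hi]))

theorem Lin.berr {ON BN : Type} [Fintype ON] [Fintype BN] (𝓜 : PM ON BN → Prop)
    (hk : k0 ON BN ≤ k) : Lin k (Berr 𝓜) := by
  classical
  refine Lin.sum (fun (q : Finset ℕ × Finset ℕ × Finset ℕ) h => CI h q.1 q.2.1 q.2.2) _
    fun q hq => ?_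
  simp only [mem_filter, mem_product, mem_powerset] at hq
  obtain ⟨⟨a, b, c⟩, -⟩ := hq
  have s := range_mono hk
  exact (((Lin.eval ((union_subset a c).trans s)).add (Lin.eval ((union_subset b c).trans s))).sub
    (Lin.eval ((union_subset (union_subset a b) c).trans s))).sub (Lin.eval (c.trans s))

theorem prim_isub : Primrec₂ fun x y : ℕ => (x : ℤ) - y := by
  refine Primrec.encode_iff.1 (Primrec.of_eq (f := fun q : ℕ × ℕ =>
    if q.2 ≤ q.1 then 2 * (q.1 - q.2) else 2 * (q.2 - q.1 - 1) + 1) ?_ ?_)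
  · exact Primrec.ite (Primrec.nat_le.comp Primrec.snd Primrec.fst)
      (Primrec.nat_mul.comp (Primrec.const 2) (Primrec.nat_sub.comp Primrec.fst Primrec.snd))
      (Primrec.succ.comp (Primrec.nat_mul.comp (Primrec.const 2) (Primrec.nat_sub.comp
        (Primrec.nat_sub.comp Primrec.snd Primrec.fst) (Primrec.const 1))))
  · rintro ⟨x, y⟩
    dsimp only
    split_ifs with h
    · rw [show (x : ℤ) - y = Int.ofNat (x - y) by simp [h]]; rfl
    · rw [show (x : ℤ) - y = Int.negSucc (y - x - 1) by omega]; rfl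

theorem prim_lin (a b c d : ℤ) :
    Primrec fun x : ℕ × ℕ × ℕ => a * x.1 + b + c * x.2.1 - d * x.2.2 := by
  have h : ∀ a b c d : ℕ, Primrec fun x : ℕ × ℕ × ℕ => a * x.1 + b + c * x.2.1 + d * x.2.2 :=
    fun a b c d => Primrec.nat_add.comp (Primrec.nat_add.comp (Primrec.nat_add.comp
      (Primrec.nat_mul.comp (Primrec.const a) Primrec.fst) (Primrec.const b))
      (Primrec.nat_mul.comp (Primrec.const c) (Primrec.fst.comp Primrec.snd)))
      (Primrec.nat_mul.comp (Primrec.const d) (Primrec.snd.comp Primrec.snd))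
  refine (prim_isub.comp (h a.toNat b.toNat c.toNat (-d).toNat)
    (h (-a).toNat (-b).toNat (-c).toNat d.toNat)).of_eq fun x => ?_
  push_cast
  linear_combination (x.1 : ℤ) * Int.toNat_sub_toNat_neg a + Int.toNat_sub_toNat_neg b +
    (x.2.1 : ℤ) * Int.toNat_sub_toNat_neg c - (x.2.2 : ℤ) * Int.toNat_sub_toNat_neg d

theorem prim_map {α β : Type} [Primcodable α] [Primcodable β] (f : ℕ → α → β)
    (hf : ∀ j, Primrec (f j)) : ∀ l : List ℕ, Primrec fun x => l.map fun j => f j x
  | [] => Primrec.const []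
  | j :: l => Primrec.list_cons.comp (hf j) (prim_map f hf l)

theorem SS_mono {A B : ℕ → Prop} : ∀ N, (∀ n < N, A n → B n) → SS A N ≤ SS B N
  | 0, _ => le_rfl
  | N + 1, h => by
    have := SS_mono N fun n hn => h n (by omega)
    have := h N (by omega)
    rw [SS, SS]
    split_ifs <;> first | omega | tauto

theorem prim_SS : Primrec₂ fun T N => SS (fun n => (Code.evaln T (ofNat Code n) 0).isSome) N := by
  refine Primrec.of_eq (Primrec.nat_rec' (f := fun q : ℕ × ℕ => q.2) (g := fun _ => 0)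
    (h := fun q r => 8192 * (r.2 + bif (Code.evaln q.1 (ofNat Code r.1) 0).isSome then 1 else 0))
    Primrec.snd (Primrec.const 0) ?_) ?_
  · exact Primrec.nat_mul.comp (Primrec.const _) (Primrec.nat_add.comp
      (Primrec.snd.comp Primrec.snd) (Primrec.cond (Primrec.option_isSome.comp
        (Code.primrec_evaln.comp (((Primrec.fst.comp Primrec.fst).pair
          ((Primrec.ofNat _).comp (Primrec.fst.comp Primrec.snd))).pair (Primrec.const 0))))
        (Primrec.const 1) (Primrec.const 0)))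
  · rintro ⟨T, N⟩
    induction N with
    | zero => rfl
    | succ N ih =>
      dsimp only at ih ⊢
      rw [ih, SS]
      cases (Code.evaln T (ofNat Code N) 0).isSome <;> simp

theorem not_re_of {V : List ℤ → Prop} {v : ℕ × ℕ × ℕ → List ℤ} (hv : Primrec v)
    (hA : ∀ N, ∃ M, V (v (SS (fun n => (Code.eval (ofNat Code n) 0).Dom) N, M, 8192 ^ N)))
    (hB : ∀ p M N, V (v (p, M, 8192 ^ N)) → SS (fun n => (Code.eval (ofNat Code n) 0).Dom) N ≤ p + 2) :
    ¬ REPred V := by
  intro hV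
  obtain ⟨run, hr, hrun⟩ := exists_run hV
  have ev : ∀ c : Code, (c.eval 0).Dom ↔ ∃ T, (Code.evaln T c 0).isSome := fun c => by
    simp only [Part.dom_iff_mem, Code.evaln_complete, Option.isSome_iff_exists]
    exact exists_comm
  let g : Code → ℕ → Bool := fun c z => (run z.unpair.2.unpair.2
    (v (SS (fun n => (Code.evaln z.unpair.1 (ofNat Code n) 0).isSome) (encode c + 1),
      z.unpair.2.unpair.1, 8192 ^ (encode c + 1)))).isSome && !(Code.evaln z.unpair.1 c 0).isSome
  have hg : Primrec₂ g := by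
    have a1 : Primrec fun q : Code × ℕ => q.2.unpair.1 :=
      Primrec.fst.comp (Primrec.unpair.comp Primrec.snd)
    have a2 : Primrec fun q : Code × ℕ => q.2.unpair.2.unpair :=
      Primrec.unpair.comp (Primrec.snd.comp (Primrec.unpair.comp Primrec.snd))
    have a3 : Primrec fun q : Code × ℕ => encode q.1 + 1 :=
      Primrec.succ.comp (Primrec.encode.comp Primrec.fst)
    exact Primrec.and.comp (Primrec.option_isSome.comp (hr.comp (Primrec.snd.comp a2)
      (hv.comp ((prim_SS.comp a1 a3).pair ((Primrec.fst.comp a2).pair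
        ((Primrec₂.unpaired'.1 Nat.Primrec.pow).comp (Primrec.const 8192) a3))))))
      (Primrec.not.comp (Primrec.option_isSome.comp (Code.primrec_evaln.comp
        ((a1.pair Primrec.fst).pair (Primrec.const 0)))))
  have vr : ∀ x, V x ↔ ∃ s, (run s x).isSome := fun x => by
    have := hrun x ()
    simp only [Part.mem_assert_iff, Part.mem_some_iff, exists_prop, and_true] at this
    simp only [this, Option.isSome_iff_exists]
    exact exists_congr fun s => ⟨fun h => ⟨_, h⟩, fun ⟨_, h⟩ => h⟩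
  refine ComputablePred.halting_problem_not_re 0
    ((Partrec.rfind (p := fun c z => Part.some (g c z)) hg.to_comp.partrec₂).dom_re.of_eq fun c => ?_)
  simp only [Nat.rfind_dom, Part.mem_some_iff, Part.some_dom, implies_true, and_true]
  constructor
  · rintro ⟨z, hz⟩ hc
    simp only [g, Bool.true_eq, Bool.and_eq_true, Bool.not_eq_true'] at hz
    have b1 := hB _ _ _ ((vr _).2 ⟨_, hz.1⟩)
    have b2 := SS_mono (A := fun n => (Code.evaln z.unpair.1 (ofNat Code n) 0).isSome)
      (encode c) fun n _ h => (ev _).2 ⟨_, h⟩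
    rw [SS, SS, ofNat_encode, if_pos hc, if_neg (by simp [hz.2])] at b1
    omega
  · intro hc
    have : ∀ n, ∃ T, (Code.eval (ofNat Code n) 0).Dom → (Code.evaln T (ofNat Code n) 0).isSome :=
      fun n => by
        by_cases h : (Code.eval (ofNat Code n) 0).Dom
        · exact ((ev _).1 h).imp fun _ a _ => a
        · exact ⟨0, fun a => absurd a h⟩
    choose f hf using this
    obtain ⟨M, hM⟩ := hA (encode c + 1)
    obtain ⟨s, hs⟩ := (vr _).1 hM
    set T := (range (encode c + 1)).sup f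
    have e : SS (fun n => (Code.evaln T (ofNat Code n) 0).isSome) (encode c + 1) =
        SS (fun n => (Code.eval (ofNat Code n) 0).Dom) (encode c + 1) :=
      le_antisymm (SS_mono _ fun n _ h => (ev _).2 ⟨_, h⟩) (SS_mono _ fun n hn h => by
        obtain ⟨x, hx⟩ := Option.isSome_iff_exists.1 (hf n h)
        exact Option.isSome_iff_exists.2 ⟨x, Code.evaln_mono (le_sup (mem_range.2 hn)) hx⟩)
    refine ⟨Nat.pair T (Nat.pair M s), ?_⟩
    simp only [g, Nat.unpair_pair, e, hs, Bool.true_and, Bool.true_eq, Bool.not_eq_true']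
    exact Bool.eq_false_iff.2 fun h => hc ((ev c).2 ⟨_, h⟩)

theorem not_re_cone : ∃ k0 : ℕ, ∀ U, Optimal U → ∀ enc : List Str → Str, Computable enc →
    Function.Injective enc → ∀ k, k0 ≤ k → ¬ REPred fun v : List ℤ =>
      (fun u : {u : Finset (Fin k) // u.Nonempty} =>
        (v.getD (∑ i ∈ u.1, 2 ^ i.val) 0 : ℝ)) ∈ cone U enc k := by
  obtain ⟨P, x0, τ, G⟩ := exists_good
  refine ⟨k0 P.ON P.BN, fun U hU enc he hi k hk => ?_⟩
  obtain ⟨run, M⟩ := exists_mach hU he hi
  have lb := fun s => Lin.eval (k := k) (T := P.bv s 0) ((obv_sub _ _).trans (range_mono hk))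
  obtain ⟨c1, h1⟩ := lb (.inr (.inl P.g1))
  obtain ⟨c2, h2⟩ := lb (.inr (.inl P.g))
  obtain ⟨c3, h3⟩ := Lin.berr P.MM hk
  obtain ⟨c4, h4⟩ := lb (.inl false)
  let w : ℕ → ℕ × ℕ × ℕ → ℤ := fun j x => c1 j.bitIndices.toFinset * x.1 +
    c2 j.bitIndices.toFinset + c3 j.bitIndices.toFinset * x.2.1 - c4 j.bitIndices.toFinset * x.2.2
  have key : ∀ (x : ℕ × ℕ × ℕ) (h : Finset ℕ → ℝ), h ∅ = 0 →
      ∑ u : {u : Finset (Fin k) // u.Nonempty}, ((((List.range (2 ^ k)).map fun j => w j x).getD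
        (∑ i ∈ u.1, 2 ^ i.val) 0 : ℤ) : ℝ) * h (u.1.map Fin.valEmbedding) =
      x.1 * h (P.bv (.inr (.inl P.g1)) 0) + h (P.bv (.inr (.inl P.g)) 0) + x.2.1 * Berr P.MM h -
        x.2.2 * h (P.bv (.inl false) 0) := by
    intro x h h0
    have a1 := h1 h h0
    have a2 := h2 h h0
    have a4 := h4 h h0
    dsimp only at a1 a2 a4
    rw [a1, a2, h3 h h0, a4]
    simp only [mul_sum, ← sum_add_distrib, ← sum_sub_distrib]
    refine sum_congr rfl fun u _ => ?_
    have e : ∑ i ∈ u.1, 2 ^ i.val = ∑ i ∈ u.1.map Fin.valEmbedding, 2 ^ i := by simp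
    have lt : ∑ i ∈ u.1.map Fin.valEmbedding, 2 ^ i < 2 ^ k :=
      Nat.geomSum_lt le_rfl (by simp)
    rw [e, List.getD_eq_getElem _ _ (by simpa using lt), List.getElem_map, List.getElem_range]
    simp only [w, toFinset_bitIndices_sum_two_pow]
    push_cast
    ring
  refine not_re_of (prim_map w (fun j => prim_lin _ _ _ _) (List.range (2 ^ k))) (fun N => ?_)
    fun p m N ⟨c, hc⟩ => ?_
  · obtain ⟨m, hm⟩ := upper _ x0 τ G.e1 G.e2 G.e3 G.e4 G.e5 G.inf N
    refine ⟨m, M.of_entropy _ fun σ => ?_⟩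
    obtain ⟨h, H, e⟩ := σ.sat k
    rw [sum_congr rfl fun u _ => congrArg _ (e _ fun i hi => by
      obtain ⟨j, -, rfl⟩ := mem_map.1 hi
      exact mem_range.2 j.2).symm, key _ h H.zero]
    push_cast
    linarith [hm h H]
  · obtain ⟨m, hm, b1, b2, b3⟩ := lower G N
    have := M.to_group _ hc m.K
    rw [key _ _ (by simp [grk]), Berr_model _ hm] at this
    push_cast at this
    have l2 : 0 < (8192 : ℝ) ^ N * Real.log 2 := mul_pos (by positivity) (Real.log_pos (by norm_num))
    have a1 := mul_le_mul_of_nonneg_left b1 (show (0 : ℝ) ≤ 8192 ^ N by positivity)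
    have a2 := mul_le_mul_of_nonneg_left b2 (Nat.cast_nonneg (α := ℝ) p)
    have : (SS (fun n => (Code.eval (ofNat Code n) 0).Dom) N : ℝ) ≤ p + 2 :=
      le_of_mul_le_mul_right (by linarith) l2
    exact_mod_cast this

end Pool.Agent.Lib.MP_b69f85_lc
end
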